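import Pool.Agent.W426.SM.Stm

/-!
Part ZC of the project SM (owner helper426): generating functions of lattice points of rational
polyhedra in the orthant.
-/

set_option autoImplicit false

namespace Pool.Agent.W565.SMZC

open Pool.Agent.W426.SM

variable {n : ℕ} {ι : Type}

/-- linear form on integer vectors -/
def L (h : ι → Fin n → ℤ) (j : ι) (u : Fin n → ℤ) : ℤ := ∑ i, h j i * u i

/-- linear form on natural vectors -/
def LN (h : ι → Fin n → ℤ) (j : ι) (u : Fin n → ℕ) : ℤ := ∑ i, h j i * (u i : ℤ)

/-- the polyhedron -/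
def Pol (h : ι → Fin n → ℤ) (d : ι → ℤ) (E : Finset ι) : Set (Fin n → ℕ) :=
  {u | (∀ j, d j ≤ LN h j u) ∧ ∀ j ∈ E, LN h j u = d j}

/-- allowed rays -/
def Allowed (h : ι → Fin n → ℤ) (E : Finset ι) (a : Fin n → ℕ) : Prop :=
  a ≠ 0 ∧ (∀ j, 0 ≤ LN h j a) ∧ (∀ j ∈ E, LN h j a = 0) ∧
  ∀ u : Fin n → ℤ, (∀ j, LN h j a = 0 → L h j u = 0) →
    ∃ p q : ℤ, q ≠ 0 ∧ ∀ i, q * u i = p * a i

/-- monomial -/
def mon (u : Fin n → ℕ) (y : Fin n → ℂ) : ℂ := ∏ i, y i ^ u i

/-- good functions -/
def Good (h : ι → Fin n → ℤ) (E : Finset ι) (F : (Fin n → ℂ) → ℂ) : Prop :=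
  ∃ (l : List (Fin n → ℕ)) (P : MvPolynomial (Fin n) ℤ), (∀ a ∈ l, Allowed h E a) ∧
    ∀ y : Fin n → ℂ, (∀ i, ‖y i‖ < 1) →
      F y * (l.map (fun a => 1 - mon a y)).prod = MvPolynomial.aeval y P

/-- generating function -/
noncomputable def S (Q : Set (Fin n → ℕ)) (y : Fin n → ℂ) : ℂ :=
  ∑' u : Fin n → ℕ, Q.indicator (fun u => mon u y) u

theorem LN_add (h : ι → Fin n → ℤ) (j : ι) (u v : Fin n → ℕ) :
    LN h j (u + v) = LN h j u + LN h j v := by
  simp only [LN, Pi.add_apply, Nat.cast_add, mul_add, Finset.sum_add_distrib]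

theorem mon_add (u v : Fin n → ℕ) (y : Fin n → ℂ) : mon (u + v) y = mon u y * mon v y := by
  simp only [mon, Pi.add_apply, pow_add, Finset.prod_mul_distrib]

/-- polynomial of a monomial -/
noncomputable def pmon (u : Fin n → ℕ) : MvPolynomial (Fin n) ℤ :=
  ∏ i, MvPolynomial.X i ^ u i

theorem aeval_pmon (u : Fin n → ℕ) (y : Fin n → ℂ) :
    MvPolynomial.aeval y (pmon u) = mon u y := by
  simp only [pmon, mon, map_prod, map_pow, MvPolynomial.aeval_X]

theorem Good.add {h : ι → Fin n → ℤ} {E : Finset ι} {F G : (Fin n → ℂ) → ℂ}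
    (hF : Good h E F) (hG : Good h E G) : Good h E (fun y => F y + G y) := by
  obtain ⟨l1, P1, h1, e1⟩ := hF
  obtain ⟨l2, P2, h2, e2⟩ := hG
  refine ⟨l1 ++ l2, P1 * (l2.map (fun a => 1 - pmon a)).prod +
    P2 * (l1.map (fun a => 1 - pmon a)).prod, ?_, ?_⟩
  · intro a ha
    rcases List.mem_append.mp ha with ha | ha
    · exact h1 a ha
    · exact h2 a ha
  · intro y hy
    have key : ∀ l : List (Fin n → ℕ), MvPolynomial.aeval y (l.map (fun a => 1 - pmon a)).prod =
        (l.map (fun a => 1 - mon a y)).prod := by
      intro l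
      rw [map_list_prod, List.map_map]
      congr 2
      funext a
      simp [aeval_pmon]
    rw [map_add, map_mul, map_mul, key, key, ← e1 y hy, ← e2 y hy, List.map_append,
      List.prod_append]
    ring

theorem Good.congr {h : ι → Fin n → ℤ} {E : Finset ι} {F G : (Fin n → ℂ) → ℂ}
    (hF : Good h E F) (hFG : ∀ y : Fin n → ℂ, (∀ i, ‖y i‖ < 1) → G y = F y) : Good h E G := by
  obtain ⟨l, P, h1, e1⟩ := hF
  exact ⟨l, P, h1, fun y hy => by rw [hFG y hy, e1 y hy]⟩

theorem Good.sum {κ : Type} {h : ι → Fin n → ℤ} {E : Finset ι} (s : Finset κ)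
    (F : κ → (Fin n → ℂ) → ℂ) (hF : ∀ c ∈ s, Good h E (F c)) :
    Good h E (fun y => ∑ c ∈ s, F c y) := by
  classical
  induction s using Finset.induction_on with
  | empty => exact ⟨[], 0, by simp, fun y _ => by simp⟩
  | insert c s hc ih =>
    refine ((hF c (Finset.mem_insert_self _ _)).add
      (ih fun c' hc' => hF c' (Finset.mem_insert_of_mem hc'))).congr fun y _ => ?_
    rw [Finset.sum_insert hc]

theorem Good.mono {h : ι → Fin n → ℤ} {E E' : Finset ι} (hE : E ⊆ E')
    {F : (Fin n → ℂ) → ℂ} (hF : Good h E' F) : Good h E F := by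
  obtain ⟨l, P, h1, e1⟩ := hF
  exact ⟨l, P, fun a ha => ⟨(h1 a ha).1, (h1 a ha).2.1, fun j hj => (h1 a ha).2.2.1 j (hE hj),
    (h1 a ha).2.2.2⟩, e1⟩

theorem Good.ray {h : ι → Fin n → ℤ} {E : Finset ι} {F : (Fin n → ℂ) → ℂ} {a : Fin n → ℕ}
    (ha : Allowed h E a) (hF : Good h E (fun y => (1 - mon a y) * F y)) : Good h E F := by
  obtain ⟨l, P, h1, e1⟩ := hF
  refine ⟨a :: l, P, ?_, fun y hy => ?_⟩
  · intro b hb
    rcases List.mem_cons.mp hb with hb | hb
    · rw [hb]; exact ha
    · exact h1 b hb
  · rw [← e1 y hy, List.map_cons, List.prod_cons]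
    ring

/-- summability -/
theorem summable_mon {y : Fin n → ℂ} (hy : ∀ i, ‖y i‖ < 1) :
    Summable (fun u : Fin n → ℕ => mon u y) := by
  apply Summable.of_norm
  refine summable_of_sum_le (c := ∏ i, (1 - ‖y i‖)⁻¹) (fun u => norm_nonneg _) fun s => ?_
  obtain ⟨M, hM⟩ : ∃ M : ℕ, ∀ u ∈ s, ∀ i, u i < M := by
    refine ⟨(s.sup fun u => Finset.univ.sup fun i => u i) + 1, fun u hu i => ?_⟩
    have h1 : u i ≤ Finset.univ.sup (fun i => u i) :=
      Finset.le_sup (f := fun i => u i) (Finset.mem_univ i)
    have h2 : Finset.univ.sup (fun i => u i) ≤ s.sup fun u => Finset.univ.sup fun i => u i :=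
      Finset.le_sup (f := fun u : Fin n → ℕ => Finset.univ.sup fun i => u i) hu
    omega
  calc ∑ u ∈ s, ‖mon u y‖ ≤ ∑ u ∈ Fintype.piFinset (fun _ : Fin n => Finset.range M),
        ‖mon u y‖ := by
        refine Finset.sum_le_sum_of_subset_of_nonneg ?_ fun _ _ _ => norm_nonneg _
        intro u hu
        rw [Fintype.mem_piFinset]
        exact fun i => Finset.mem_range.mpr (hM u hu i)
    _ = ∏ i, ∑ k ∈ Finset.range M, ‖y i‖ ^ k := by
        rw [Finset.prod_univ_sum]
        refine Finset.sum_congr rfl fun u _ => ?_
        simp [mon]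
    _ ≤ ∏ i, (1 - ‖y i‖)⁻¹ := by
        refine Finset.prod_le_prod (fun i _ => Finset.sum_nonneg fun k _ => by positivity) ?_
        intro i _
        rw [← tsum_geometric_of_lt_one (norm_nonneg _) (hy i)]
        exact (summable_geometric_of_lt_one (norm_nonneg _) (hy i)).sum_le_tsum _
          (fun k _ => by positivity)

theorem summable_ind {y : Fin n → ℂ} (hy : ∀ i, ‖y i‖ < 1) (Q : Set (Fin n → ℕ)) :
    Summable (fun u : Fin n → ℕ => Q.indicator (fun u => mon u y) u) :=
  (summable_mon hy).indicator Q

/-- finite sets are good -/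
theorem good_finite (h : ι → Fin n → ℤ) (E : Finset ι) {Q : Set (Fin n → ℕ)} (hQ : Q.Finite) :
    Good h E (S Q) := by
  classical
  refine ⟨[], ∑ u ∈ hQ.toFinset, pmon u, by simp, fun y _ => ?_⟩
  simp only [List.map_nil, List.prod_nil, mul_one, map_sum, aeval_pmon, S]
  rw [tsum_eq_sum (s := hQ.toFinset)]
  · refine Finset.sum_congr rfl fun u hu => ?_
    rw [Set.indicator_of_mem (hQ.mem_toFinset.mp hu)]
  · intro u hu
    rw [Set.indicator_of_notMem]
    intro h'
    exact hu (hQ.mem_toFinset.mpr h')

variable [Fintype ι] [DecidableEq ι]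

/-- trivial recession cone: finitely many points -/
theorem finite_of_cone (h : ι → Fin n → ℤ) (d : ι → ℤ) (E : Finset ι)
    (hC : ∀ a : Fin n → ℕ, (∀ j, 0 ≤ LN h j a) → (∀ j ∈ E, LN h j a = 0) → a = 0) :
    (Pol h d E).Finite := by
  by_contra hinf
  have hinf : (Pol h d E).Infinite := hinf
  let f : ℕ ↪ Pol h d E := hinf.natEmbedding _
  let g : ℕ → (Fin n ⊕ ι → ℕ) := fun k =>
    Sum.elim (fun i => (f k : Fin n → ℕ) i) (fun j => (LN h j (f k : Fin n → ℕ) - d j).toNat)
  obtain ⟨k, l, hkl, hle⟩ := (wellQuasiOrdered_le (α := Fin n ⊕ ι → ℕ)) g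
  have h1 : ∀ i, (f k : Fin n → ℕ) i ≤ (f l : Fin n → ℕ) i := fun i => hle (Sum.inl i)
  have h2 : ∀ j, LN h j (f k : Fin n → ℕ) ≤ LN h j (f l : Fin n → ℕ) := by
    intro j
    have := hle (Sum.inr j)
    simp only [g, Sum.elim_inr] at this
    have a1 := (f k).2.1 j
    have a2 := (f l).2.1 j
    omega
  have h3 : (f k : Fin n → ℕ) + (fun i => (f l : Fin n → ℕ) i - (f k : Fin n → ℕ) i) =
      (f l : Fin n → ℕ) := by
    funext i
    simp only [Pi.add_apply]
    have := h1 i
    omega
  have h4 : ∀ j, LN h j (fun i => (f l : Fin n → ℕ) i - (f k : Fin n → ℕ) i) =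
      LN h j (f l : Fin n → ℕ) - LN h j (f k : Fin n → ℕ) := by
    intro j
    have := LN_add h j (f k : Fin n → ℕ) (fun i => (f l : Fin n → ℕ) i - (f k : Fin n → ℕ) i)
    rw [h3] at this
    omega
  have h5 := hC (fun i => (f l : Fin n → ℕ) i - (f k : Fin n → ℕ) i)
    (fun j => by rw [h4]; have := h2 j; omega)
    (fun j hj => by rw [h4, (f k).2.2 j hj, (f l).2.2 j hj]; omega)
  have h6 : (f k : Fin n → ℕ) = (f l : Fin n → ℕ) := by
    funext i
    have a1 := h1 i
    have a2 := congrFun h5 i
    simp only [Pi.zero_apply] at a2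
    omega
  exact absurd (f.injective (Subtype.ext h6)) (by omega)

/-- existence of an extreme ray -/
theorem exists_allowed (h : ι → Fin n → ℤ) (E : Finset ι) (κ : Fin n → ι)
    (hκ : ∀ i i', h (κ i) i' = if i' = i then 1 else 0)
    (hC : ∃ a : Fin n → ℕ, a ≠ 0 ∧ (∀ j, 0 ≤ LN h j a) ∧ (∀ j ∈ E, LN h j a = 0)) :
    ∃ a, Allowed h E a := by
  classical
  -- choose `a` with the maximal number of vanishing forms
  let Z : (Fin n → ℕ) → Finset ι := fun a => Finset.univ.filter fun j => LN h j a = 0
  let C : Set (Fin n → ℕ) := {a | a ≠ 0 ∧ (∀ j, 0 ≤ LN h j a) ∧ (∀ j ∈ E, LN h j a = 0)}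
  obtain ⟨a, haC, hmax⟩ : ∃ a ∈ C, ∀ b ∈ C, (Z b).card ≤ (Z a).card := by
    have hne : ((fun a => Fintype.card ι - (Z a).card) '' C).Nonempty :=
      Set.Nonempty.image _ hC
    obtain ⟨a, ha, hae⟩ := Nat.sInf_mem hne
    refine ⟨a, ha, fun b hb => ?_⟩
    have h1 : sInf ((fun a => Fintype.card ι - (Z a).card) '' C) ≤ Fintype.card ι - (Z b).card :=
      Nat.sInf_le ⟨b, hb, rfl⟩
    have h2 : (Z b).card ≤ Fintype.card ι := Finset.card_le_univ _
    have h3 : (Z a).card ≤ Fintype.card ι := Finset.card_le_univ _
    simp only at hae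
    omega
  refine ⟨a, haC.1, haC.2.1, haC.2.2, ?_⟩
  have LNκ : ∀ (i : Fin n) (u : Fin n → ℤ), L h (κ i) u = u i := by
    intro i u
    simp [L, hκ]
  have main : ∀ u : Fin n → ℤ, (∀ j, LN h j a = 0 → L h j u = 0) → (∃ i, u i < 0) →
      ∃ p q : ℤ, q ≠ 0 ∧ ∀ i, q * u i = p * a i := by
    intro u hu ⟨i0, hi0⟩
    let N : Finset ι := Finset.univ.filter fun j => L h j u < 0
    have hN : N.Nonempty := ⟨κ i0, by simp [N, LNκ, hi0]⟩
    obtain ⟨j0, hj0, hmin⟩ := N.exists_min_image
      (fun j => (LN h j a : ℚ) / (-(L h j u) : ℚ)) hN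
    have hj0' : L h j0 u < 0 := (Finset.mem_filter.mp hj0).2
    have ha0 : 0 < LN h j0 a := by
      rcases lt_or_eq_of_le (haC.2.1 j0) with h' | h'
      · exact h'
      · have := hu j0 h'.symm
        omega
    by_contra hcon
    push Not at hcon
    let w : Fin n → ℤ := fun i => (-(L h j0 u)) * (a i : ℤ) + LN h j0 a * u i
    have hLw : ∀ j, L h j w = (-(L h j0 u)) * LN h j a + LN h j0 a * L h j u := by
      intro j
      show ∑ i, h j i * ((-(L h j0 u)) * (a i : ℤ) + LN h j0 a * u i) = _
      generalize L h j0 u = A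
      generalize LN h j0 a = A'
      simp only [LN, L]
      rw [Finset.mul_sum, Finset.mul_sum, ← Finset.sum_add_distrib]
      refine Finset.sum_congr rfl fun i _ => ?_
      ring
    have hwnn : ∀ j, 0 ≤ L h j w := by
      intro j
      rw [hLw]
      by_cases hj : L h j u < 0
      · have h1 := hmin j (by simp [N, hj])
        have hp0 : (0 : ℚ) < (-(L h j0 u) : ℚ) := by exact_mod_cast (by omega : 0 < -(L h j0 u))
        have hp1 : (0 : ℚ) < (-(L h j u) : ℚ) := by exact_mod_cast (by omega : 0 < -(L h j u))
        rw [div_le_div_iff₀ hp0 hp1] at h1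
        have h2 : LN h j0 a * (-(L h j u)) ≤ LN h j a * (-(L h j0 u)) := by exact_mod_cast h1
        linarith
      · have h1 : 0 ≤ (-(L h j0 u)) * LN h j a := mul_nonneg (by omega) (haC.2.1 j)
        have h2 : 0 ≤ LN h j0 a * L h j u := mul_nonneg ha0.le (by omega)
        linarith
    have hwi : ∀ i, 0 ≤ w i := fun i => by rw [← LNκ i w]; exact hwnn _
    let b : Fin n → ℕ := fun i => (w i).toNat
    have hb : ∀ i, (b i : ℤ) = w i := fun i => Int.toNat_of_nonneg (hwi i)
    have hLNb : ∀ j, LN h j b = L h j w := by
      intro j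
      simp only [LN, L, hb]
    have hbC : b ∈ C := by
      refine ⟨?_, fun j => by rw [hLNb]; exact hwnn j, fun j hj => ?_⟩
      · intro hb0
        obtain ⟨i, hi⟩ := hcon (-(-(L h j0 u))) (LN h j0 a) ha0.ne'
        apply hi
        have h1 : w i = 0 := by
          rw [← hb i, hb0]
          simp
        simp only [w] at h1
        linarith
      · rw [hLNb, hLw, haC.2.2 j hj, hu j (haC.2.2 j hj)]
        simp
    have hlt : (Z a).card < (Z b).card := by
      apply Finset.card_lt_card
      refine Finset.ssubset_iff_subset_ne.mpr ⟨?_, ?_⟩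
      · intro j hj
        have hj' : LN h j a = 0 := (Finset.mem_filter.mp hj).2
        simp only [Z, Finset.mem_filter, Finset.mem_univ, true_and]
        rw [hLNb, hLw, hj', hu j hj']
        simp
      · intro heq
        have : j0 ∈ Z b := by
          simp only [Z, Finset.mem_filter, Finset.mem_univ, true_and]
          rw [hLNb, hLw]
          ring
        rw [← heq] at this
        have := (Finset.mem_filter.mp this).2
        omega
    have := hmax b hbC
    omega
  intro u hu
  by_cases h1 : ∃ i, u i < 0
  · exact main u hu h1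
  by_cases h2 : ∃ i, 0 < u i
  · obtain ⟨p, q, hq, hpq⟩ := main (fun i => - u i)
      (fun j hj => by
        have := hu j hj
        simp only [L, mul_neg, Finset.sum_neg_distrib] at this ⊢
        omega)
      (by obtain ⟨i, hi⟩ := h2; exact ⟨i, by omega⟩)
    refine ⟨-p, q, hq, fun i => ?_⟩
    have := hpq i
    linarith
  · push Not at h1 h2
    refine ⟨0, 1, one_ne_zero, fun i => ?_⟩
    have a1 := h1 i
    have a2 := h2 i
    have : u i = 0 := by omega
    simp [this]

/-- the induction -/
theorem good_pol (h : ι → Fin n → ℤ) (κ : Fin n → ι)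
    (hκ : ∀ i i', h (κ i) i' = if i' = i then 1 else 0) :
    ∀ (k : ℕ) (E : Finset ι), (Eᶜ).card = k → ∀ d : ι → ℤ, (∀ i, 0 ≤ d (κ i)) →
      Good h E (S (Pol h d E)) := by
  classical
  intro k
  induction k using Nat.strong_induction_on with
  | _ k ih =>
  intro E hE d hd
  by_cases hC : ∀ a : Fin n → ℕ, (∀ j, 0 ≤ LN h j a) → (∀ j ∈ E, LN h j a = 0) → a = 0
  · exact good_finite h E (finite_of_cone h d E hC)
  push Not at hC
  obtain ⟨a, ha⟩ := exists_allowed h E κ hκ (by
    obtain ⟨a, h1, h2, h3⟩ := hC
    exact ⟨a, h3, h1, h2⟩)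
  -- the shifted right hand sides
  let D : Finset ι → ι → ℤ := fun J j => if j ∈ J then d j + LN h j a else d j
  have hDd : ∀ J j, d j ≤ D J j := by
    intro J j
    simp only [D]
    split_ifs
    · have := ha.2.1 j; omega
    · exact le_rfl
  have hDE : ∀ J, ∀ j ∈ E, D J j = d j := by
    intro J j hj
    simp only [D]
    split_ifs
    · rw [ha.2.2.1 j hj]; omega
    · rfl
  -- one step
  have step : ∀ (J : Finset ι) (j : ι), j ∉ J →
      ∀ y : Fin n → ℂ, (∀ i, ‖y i‖ < 1) →
        S (Pol h (D J) E) y = S (Pol h (D (insert j J)) E) y +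
          ∑ c ∈ Finset.Ico (d j) (d j + LN h j a),
            S (Pol h (Function.update (D J) j c) (insert j E)) y := by
    intro J j hj y hy
    unfold S
    rw [← Summable.tsum_finsetSum (fun c _ => summable_ind hy _),
      ← (summable_ind hy _).tsum_add (summable_sum fun c _ => summable_ind hy _)]
    refine tsum_congr fun u => ?_
    have hDj : D J j = d j := by simp [D, hj]
    have hDj' : D (insert j J) j = d j + LN h j a := by simp [D]
    have hDi : ∀ i, i ≠ j → D (insert j J) i = D J i := by
      intro i hi
      simp [D, Finset.mem_insert, hi]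
    by_cases hu : u ∈ Pol h (D J) E
    · rw [Set.indicator_of_mem hu]
      by_cases hlt : LN h j u < d j + LN h j a
      · -- exactly one c
        have h1 : u ∉ Pol h (D (insert j J)) E := by
          intro h'
          have := h'.1 j
          rw [hDj'] at this
          omega
        rw [Set.indicator_of_notMem h1, zero_add]
        rw [Finset.sum_eq_single (LN h j u)]
        · rw [Set.indicator_of_mem]
          refine ⟨fun i => ?_, fun i hi => ?_⟩
          · by_cases hij : i = j
            · subst hij; simp
            · rw [Function.update_of_ne hij]; exact hu.1 i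
          · by_cases hij : i = j
            · subst hij; simp
            · rw [Function.update_of_ne hij]
              exact hu.2 i ((Finset.mem_insert.mp hi).resolve_left hij)
        · intro c _ hc
          rw [Set.indicator_of_notMem]
          intro h'
          have := h'.2 j (Finset.mem_insert_self _ _)
          rw [Function.update_self] at this
          exact hc this.symm
        · intro h'
          exfalso
          apply h'
          rw [Finset.mem_Ico]
          have := hu.1 j
          rw [hDj] at this
          exact ⟨this, hlt⟩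
      · have h1 : u ∈ Pol h (D (insert j J)) E := by
          refine ⟨fun i => ?_, fun i hi => ?_⟩
          · by_cases hij : i = j
            · subst hij; rw [hDj']; omega
            · rw [hDi i hij]; exact hu.1 i
          · rw [hDE _ i hi, ← hDE J i hi]; exact hu.2 i hi
        rw [Set.indicator_of_mem h1, Finset.sum_eq_zero, add_zero]
        intro c hc
        rw [Set.indicator_of_notMem]
        intro h'
        have := h'.2 j (Finset.mem_insert_self _ _)
        rw [Function.update_self] at this
        rw [Finset.mem_Ico] at hc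
        omega
    · rw [Set.indicator_of_notMem hu]
      have h1 : u ∉ Pol h (D (insert j J)) E := by
        intro h'
        apply hu
        refine ⟨fun i => ?_, fun i hi => ?_⟩
        · by_cases hij : i = j
          · subst hij
            have := h'.1 i
            rw [hDj'] at this
            rw [hDj]
            have := ha.2.1 i
            omega
          · rw [← hDi i hij]; exact h'.1 i
        · rw [hDE _ i hi, ← hDE (insert j J) i hi]; exact h'.2 i hi
      rw [Set.indicator_of_notMem h1, zero_add, Finset.sum_eq_zero]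
      intro c hc
      rw [Set.indicator_of_notMem]
      intro h'
      apply hu
      rw [Finset.mem_Ico] at hc
      refine ⟨fun i => ?_, fun i hi => ?_⟩
      · by_cases hij : i = j
        · subst hij
          have := h'.1 i
          rw [Function.update_self] at this
          rw [hDj]
          omega
        · have := h'.1 i
          rw [Function.update_of_ne hij] at this
          exact this
      · by_cases hij : i = j
        · subst hij
          -- then `LN h i a = 0` and the interval is empty
          have := ha.2.2.1 i hi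
          omega
        · have := h'.2 i (Finset.mem_insert_of_mem hi)
          rw [Function.update_of_ne hij] at this
          exact this
  -- the difference is good
  have diff : ∀ J : Finset ι, ∃ G : (Fin n → ℂ) → ℂ, Good h E G ∧
      ∀ y : Fin n → ℂ, (∀ i, ‖y i‖ < 1) → S (Pol h d E) y = S (Pol h (D J) E) y + G y := by
    intro J
    induction J using Finset.induction_on with
    | empty =>
      refine ⟨fun _ => 0, ⟨[], 0, by simp, fun y _ => by simp⟩, fun y _ => ?_⟩
      have : D ∅ = d := by funext j; simp [D]
      rw [this, add_zero]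
    | insert j J hj ihJ =>
      obtain ⟨G, hG, hGe⟩ := ihJ
      refine ⟨fun y => G y + ∑ c ∈ Finset.Ico (d j) (d j + LN h j a),
            S (Pol h (Function.update (D J) j c) (insert j E)) y, hG.add (Good.sum _ _ ?_), ?_⟩
      · intro c hc
        rw [Finset.mem_Ico] at hc
        have hjE : j ∉ E := by
          intro hjE
          have := ha.2.2.1 j hjE
          omega
        refine Good.mono (Finset.subset_insert j E) (ih _ ?_ (insert j E) rfl _ ?_)
        · rw [← hE]
          apply Finset.card_lt_card
          rw [Finset.compl_ssubset_compl]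
          exact Finset.ssubset_insert hjE
        · intro i
          by_cases hij : κ i = j
          · rw [hij, Function.update_self]
            have := hd i
            rw [hij] at this
            omega
          · rw [Function.update_of_ne hij]
            exact le_trans (hd i) (hDd J _)
      · intro y hy
        rw [hGe y hy, step J j hj y hy]
        ring
  obtain ⟨G, hG, hGe⟩ := diff Finset.univ
  refine Good.ray ha (hG.congr fun y hy => ?_)
  -- the shift
  have shift : S (Pol h (D Finset.univ) E) y = mon a y * S (Pol h d E) y := by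
    unfold S
    rw [← tsum_mul_left]
    have hinj : Function.Injective (fun v : Fin n → ℕ => a + v) := add_right_injective a
    rw [← hinj.tsum_eq]
    · refine tsum_congr fun v => ?_
      have hiff : a + v ∈ Pol h (D Finset.univ) E ↔ v ∈ Pol h d E := by
        constructor
        · intro h'
          refine ⟨fun j => ?_, fun j hj => ?_⟩
          · have := h'.1 j
            rw [LN_add] at this
            simp only [D, Finset.mem_univ, if_true] at this
            omega
          · have := h'.2 j hj
            rw [LN_add] at this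
            simp only [D, Finset.mem_univ, if_true] at this
            omega
        · intro h'
          refine ⟨fun j => ?_, fun j hj => ?_⟩
          · have := h'.1 j
            rw [LN_add]
            simp only [D, Finset.mem_univ, if_true]
            omega
          · have := h'.2 j hj
            rw [LN_add]
            simp only [D, Finset.mem_univ, if_true]
            omega
      by_cases hv : v ∈ Pol h d E
      · rw [Set.indicator_of_mem hv, Set.indicator_of_mem (hiff.mpr hv), mon_add]
      · rw [Set.indicator_of_notMem hv, Set.indicator_of_notMem (fun h' => hv (hiff.mp h')),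
          mul_zero]
    · intro u hu
      rw [Function.mem_support] at hu
      have hu' : u ∈ Pol h (D Finset.univ) E := by
        by_contra h'
        exact hu (Set.indicator_of_notMem h' _)
      have hle : ∀ i, a i ≤ u i := by
        intro i
        have h1 := hu'.1 (κ i)
        simp only [D, Finset.mem_univ, if_true] at h1
        have h2 : ∀ v : Fin n → ℕ, LN h (κ i) v = v i := by
          intro v
          simp [LN, hκ]
        rw [h2, h2] at h1
        have := hd i
        omega
      refine ⟨fun i => u i - a i, ?_⟩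
      funext i
      simp only [Pi.add_apply]
      have := hle i
      omega
  have := hGe y hy
  rw [shift] at this
  linear_combination this

theorem main : S_ZC := by
  classical
  intro n r h d E
  let h' : Fin r ⊕ Fin n → Fin n → ℤ := Sum.elim h (fun i i' => if i' = i then 1 else 0)
  let d' : Fin r ⊕ Fin n → ℤ := Sum.elim d 0
  let E' : Finset (Fin r ⊕ Fin n) := E.map Function.Embedding.inl
  obtain ⟨l, P, hl, hP⟩ := good_pol h' (fun i => Sum.inr i) (fun i i' => rfl) _ E' rfl d'
    (fun i => le_rfl)
  have hLN1 : ∀ (j : Fin r) (u : Fin n → ℕ), LN h' (Sum.inl j) u = ∑ i, h j i * (u i : ℤ) :=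
    fun j u => rfl
  have hLN2 : ∀ (i : Fin n) (u : Fin n → ℕ), LN h' (Sum.inr i) u = u i := by
    intro i u
    simp [LN, h']
  have hPol : Pol h' d' E' = poly h d E := by
    ext u
    constructor
    · intro hu
      refine ⟨fun j => ?_, fun j hj => ?_⟩
      · have := hu.1 (Sum.inl j)
        rw [hLN1] at this
        exact this
      · have := hu.2 (Sum.inl j) (by simp [E', hj])
        rw [hLN1] at this
        exact this.symm
    · intro hu
      refine ⟨fun j => ?_, fun j hj => ?_⟩
      · rcases j with j | i
        · rw [hLN1]; exact hu.1 j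
        · rw [hLN2]; simp [d']
      · obtain ⟨j0, hj0, rfl⟩ := Finset.mem_map.mp hj
        show LN h' (Sum.inl j0) u = d' (Sum.inl j0)
        rw [hLN1]; exact (hu.2 j0 hj0).symm
  refine ⟨l.length, fun q => l.get q, P, fun q => ?_, fun y hy => ?_⟩
  · obtain ⟨h1, h2, h3, h4⟩ := hl (l.get q) (List.get_mem _ _)
    refine ⟨h1, fun j => ?_, fun j hj => ?_, ?_⟩
    · have := h2 (Sum.inl j)
      rw [hLN1] at this
      exact this
    · have := h3 (Sum.inl j) (by simp [E', hj])
      rw [hLN1] at this
      exact this
    · intro u hu1 hu2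
      -- common denominator
      let B : ℕ := ∏ i, (u i).den
      have hB : B ≠ 0 := Finset.prod_ne_zero_iff.mpr fun i _ => (u i).den_nz
      have hex : ∀ i, ∃ z : ℤ, (z : ℚ) = B * u i := by
        intro i
        obtain ⟨c, hc⟩ := Finset.dvd_prod_of_mem (fun i => (u i).den) (Finset.mem_univ i)
        refine ⟨c * (u i).num, ?_⟩
        have h5 : (B : ℚ) = (u i).den * c := by
          have : B = (u i).den * c := hc
          rw [this]; push_cast; ring
        rw [h5]
        push_cast
        have := Rat.mul_den_eq_num (u i)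
        calc (c : ℚ) * (u i).num = c * (u i * (u i).den) := by rw [this]
          _ = _ := by ring
      choose z hz using hex
      obtain ⟨p, qq, hqq, hpq⟩ := h4 z (by
        intro j hj
        have key : (L h' j z : ℚ) = B * ∑ i, (h' j i : ℚ) * u i := by
          simp only [L]
          push_cast
          rw [Finset.mul_sum]
          refine Finset.sum_congr rfl fun i _ => ?_
          rw [hz]; ring
        rcases j with j | i
        · have h6 := hu2 j (by rw [hLN1] at hj; exact hj)
          have h7 : (L h' (Sum.inl j) z : ℚ) = 0 := by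
            rw [key]
            show (B : ℚ) * ∑ i, (h j i : ℚ) * u i = 0
            rw [h6, mul_zero]
          exact_mod_cast h7
        · have h6 := hu1 i (by rw [hLN2] at hj; exact_mod_cast hj)
          have h7 : (L h' (Sum.inr i) z : ℚ) = 0 := by
            rw [key]
            simp [h', h6]
          exact_mod_cast h7)
      refine ⟨(p : ℚ) / (qq * B), fun i => ?_⟩
      have h8 : (qq : ℚ) * (B * u i) = p * (l.get q) i := by
        rw [← hz]; exact_mod_cast hpq i
      have hq0 : (qq : ℚ) ≠ 0 := by exact_mod_cast hqq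
      have hB0 : (B : ℚ) ≠ 0 := by exact_mod_cast hB
      field_simp
      linear_combination h8
  · rw [← hP y hy, hPol]
    congr 1
    · unfold S
      rw [← tsum_subtype]
      rfl
    · exact Fin.prod_univ_fun_getElem l (fun a => 1 - mon a y)

end Pool.Agent.W565.SMZC
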