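import Pool.Agent.W829.UC.Stmts

/-! UC-A3: a Menger theorem via Hall's theorem (MP_566bac_pr). -/

set_option autoImplicit false
set_option linter.all false

open Set
open Pool.Agent.W829.UC

namespace Pool.Agent.W565.UCA3

/-- uniqueness of the position on an orbit -/
theorem key {α : Type} (σ : α → α) (D S : Set α) (hinj : Set.InjOn σ D) (hS : ∀ x ∈ D, σ x ∉ S) :
    ∀ (i j : ℕ) (s s' : α), s ∈ S → s' ∈ S → (∀ m < i, σ^[m] s ∈ D) → (∀ m < j, σ^[m] s' ∈ D) →
      σ^[i] s = σ^[j] s' → i = j ∧ s = s' := by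
  intro i
  induction i with
  | zero =>
    intro j s s' hs hs' _ hj h
    cases j with
    | zero => exact ⟨rfl, h⟩
    | succ j =>
      exfalso
      have h1 := hS _ (hj j (Nat.lt_succ_self j))
      rw [← Function.iterate_succ_apply' σ j s', ← h] at h1
      exact h1 hs
  | succ i ih =>
    intro j s s' hs hs' hi hj h
    cases j with
    | zero =>
      exfalso
      have h1 := hS _ (hi i (Nat.lt_succ_self i))
      rw [← Function.iterate_succ_apply' σ i s, h] at h1
      exact h1 hs'
    | succ j =>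
      rw [Function.iterate_succ_apply', Function.iterate_succ_apply'] at h
      have h1 := hinj (hi i (Nat.lt_succ_self i)) (hj j (Nat.lt_succ_self j)) h
      obtain ⟨h2, h3⟩ := ih j s s' hs hs' (fun m hm => hi m (hm.trans (Nat.lt_succ_self i)))
        (fun m hm => hj m (hm.trans (Nat.lt_succ_self j))) h1
      exact ⟨by rw [h2], h3⟩

theorem chain_of {α : Type} (R : α → α → Prop) (n : ℕ) : ∀ f : ℕ → α,
    (∀ m < n + 1, R (f m) (f (m + 1))) →
    (f 0 :: ((List.range n).map (fun m => f (m + 1)) ++ [f (n + 1)])).IsChain R := by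
  induction n with
  | zero => intro f h; simpa using h 0 (Nat.lt_succ_self 0)
  | succ n ih =>
    intro f h
    have h1 := ih (fun m => f (m + 1)) (fun m hm => h (m + 1) (by omega))
    have h2 : ((List.range (n + 1)).map (fun m => f (m + 1)) ++ [f (n + 1 + 1)]) =
        f (0 + 1) :: ((List.range n).map (fun m => f (m + 1 + 1)) ++ [f (n + 1 + 1)]) := by
      rw [List.range_succ_eq_map, List.map_cons, List.map_map, List.cons_append]
      rfl
    rw [h2, List.isChain_cons_cons]
    exact ⟨h 0 (by omega), h1⟩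

theorem main : S_A3 := by
  classical
  intro α _ G Λ S Z hSΛ hZ hfin huniq k hk
  have hkS : k ≤ S.card := by
    refine (hk S (Finset.Subset.refl _) hSΛ).trans ?_
    exact Finset.card_filter_le _ _
  -- neighbours
  let Big : Finset α := Λ ∪ Λ.attach.biUnion (fun x => (hfin x.1 x.2).toFinset)
  have hBig : ∀ x ∈ Λ, ∀ y, G.Adj x y → y ∈ Big := by
    intro x hx y hxy
    refine Finset.mem_union_right _ (Finset.mem_biUnion.2 ⟨⟨x, hx⟩, Finset.mem_attach _ _, ?_⟩)
    rw [Set.Finite.mem_toFinset]; exact hxy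
  let NE : α → Finset α := fun x =>
    Big.filter (fun y => G.Adj x y ∧ ((y ∈ Λ ∧ y ∉ S) ∨ (y ∉ Λ ∧ y ∉ Z)))
  have hNE : ∀ x ∈ Λ, ∀ y, y ∈ NE x ↔ (G.Adj x y ∧ ((y ∈ Λ ∧ y ∉ S) ∨ (y ∉ Λ ∧ y ∉ Z))) := by
    intro x hx y
    refine ⟨fun h => (Finset.mem_filter.1 h).2, fun h => Finset.mem_filter.2 ⟨hBig x hx y h.1, h⟩⟩
  let t : {x : α // x ∈ Λ} → Finset (α ⊕ Fin (S.card - k)) := fun x =>
    if (x : α) ∈ S then (NE x).disjSum Finset.univ else (insert (x : α) (NE x)).disjSum ∅
  -- Hall condition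
  have hall : ∀ R : Finset {x : α // x ∈ Λ}, R.card ≤ (R.biUnion t).card := by
    intro R
    by_cases hRS : ∃ s0 ∈ R, (s0 : α) ∈ S
    · obtain ⟨s0, hs0R, hs0S⟩ := hRS
      let R' : Finset α := R.map (Function.Embedding.subtype _)
      have hR'card : R'.card = R.card := Finset.card_map _
      have hR'Λ : ∀ x ∈ R', x ∈ Λ := by
        intro x hx
        obtain ⟨x', _, rfl⟩ := Finset.mem_map.1 hx
        exact x'.2
      let N1 : Finset α := Big.filter (fun y => ∃ x ∈ R', (y = x ∧ x ∉ S) ∨ y ∈ NE x)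
      have hN1 : ∀ y, y ∈ N1 ↔ ∃ x ∈ R', (y = x ∧ x ∉ S) ∨ y ∈ NE x := by
        intro y
        refine ⟨fun h => (Finset.mem_filter.1 h).2, fun h => Finset.mem_filter.2 ⟨?_, h⟩⟩
        obtain ⟨x, hx, h1 | h1⟩ := h
        · rw [h1.1]; exact Finset.mem_union_left _ (hR'Λ x hx)
        · exact (Finset.mem_filter.1 h1).1
      have hsub : N1.disjSum (Finset.univ : Finset (Fin (S.card - k))) ⊆ R.biUnion t := by
        intro z hz
        rw [Finset.mem_biUnion]
        rcases z with y | d
        · rw [Finset.inl_mem_disjSum, hN1] at hz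
          obtain ⟨x, hx, hy⟩ := hz
          obtain ⟨x', hx', rfl⟩ := Finset.mem_map.1 hx
          refine ⟨x', hx', ?_⟩
          by_cases hxS : (x' : α) ∈ S
          · rcases hy with hy | hy
            · exact absurd hxS hy.2
            · show _ ∈ (if (x' : α) ∈ S then _ else _)
              rw [if_pos hxS, Finset.inl_mem_disjSum]
              exact hy
          · show _ ∈ (if (x' : α) ∈ S then _ else _)
            rw [if_neg hxS, Finset.inl_mem_disjSum, Finset.mem_insert]
            rcases hy with hy | hy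
            · exact Or.inl hy.1
            · exact Or.inr hy
        · refine ⟨s0, hs0R, ?_⟩
          show _ ∈ (if (s0 : α) ∈ S then _ else _)
          rw [if_pos hs0S, Finset.inr_mem_disjSum]
          exact Finset.mem_univ _
      have hcard := Finset.card_le_card hsub
      rw [Finset.card_disjSum, Finset.card_univ, Fintype.card_fin] at hcard
      let N2 : Finset α := N1.filter (fun y => y ∈ Λ)
      let N3 : Finset α := N1.filter (fun y => ¬ y ∈ Λ)
      have hN23 : N2.card + N3.card = N1.card := Finset.card_filter_add_card_filter_not _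
      have hN2S : ∀ y ∈ N2, y ∉ S := by
        intro y hy
        obtain ⟨hy1, hyΛ⟩ := Finset.mem_filter.1 hy
        obtain ⟨x, hx, h1 | h1⟩ := (hN1 y).1 hy1
        · rw [h1.1]; exact h1.2
        · rcases ((hNE x (hR'Λ x hx) y).1 h1).2 with h2 | h2
          · exact h2.2
          · exact absurd hyΛ h2.1
      let W : Finset α := S ∪ N2
      have hWcard : W.card = S.card + N2.card := by
        apply Finset.card_union_of_disjoint
        rw [Finset.disjoint_left]
        intro y hy hy'
        exact hN2S y hy' hy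
      have hWΛ : W ⊆ Λ := by
        intro y hy
        rcases Finset.mem_union.1 hy with hy | hy
        · exact hSΛ hy
        · exact (Finset.mem_filter.1 hy).2
      have hR'W : R' ⊆ W := by
        intro x hx
        by_cases hxS : x ∈ S
        · exact Finset.mem_union_left _ hxS
        · exact Finset.mem_union_right _ (Finset.mem_filter.2
            ⟨(hN1 x).2 ⟨x, hx, Or.inl ⟨rfl, hxS⟩⟩, hR'Λ x hx⟩)
      have hkW := hk W Finset.subset_union_left hWΛ
      let BD : Finset α := W.filter (fun x => ∃ y, y ∈ Zᶜ ∧ G.Adj x y ∧ y ∉ W)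
      have hBD : cst G Zᶜ W = BD.card := rfl
      have h1 : (BD ∩ R').card ≤ N3.card := by
        have hch : ∀ x ∈ BD ∩ R', ∃ y, y ∈ N3 ∧ G.Adj x y := by
          intro x hx
          rw [Finset.mem_inter] at hx
          obtain ⟨hxW, y, hyZ, hxy, hyW⟩ := Finset.mem_filter.1 hx.1
          have hxΛ := hR'Λ x hx.2
          have hyΛ : y ∉ Λ := by
            intro hyΛ
            have hyS : y ∉ S := fun h => hyW (Finset.mem_union_left _ h)
            exact hyW (Finset.mem_union_right _ (Finset.mem_filter.2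
              ⟨(hN1 y).2 ⟨x, hx.2, Or.inr ((hNE x hxΛ y).2 ⟨hxy, Or.inl ⟨hyΛ, hyS⟩⟩)⟩, hyΛ⟩))
          exact ⟨y, Finset.mem_filter.2 ⟨(hN1 y).2 ⟨x, hx.2, Or.inr ((hNE x hxΛ y).2
            ⟨hxy, Or.inr ⟨hyΛ, hyZ⟩⟩)⟩, hyΛ⟩, hxy⟩
        let g : α → α := fun x => if h : x ∈ BD ∩ R' then Classical.choose (hch x h) else x
        have hg : ∀ x (h : x ∈ BD ∩ R'), g x ∈ N3 ∧ G.Adj x (g x) := by
          intro x h
          have h2 : g x = Classical.choose (hch x h) := dif_pos h
          rw [h2]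
          exact Classical.choose_spec (hch x h)
        apply Finset.card_le_card_of_injOn g (fun x hx => (hg x hx).1)
        intro x hx x' hx' hxx'
        have hx1 := hg x hx
        have hx2 := hg x' hx'
        rw [← hxx'] at hx2
        exact huniq (g x) (Finset.mem_filter.1 hx1.1).2 x
          (hR'Λ x (Finset.mem_inter.1 hx).2) x' (hR'Λ x' (Finset.mem_inter.1 hx').2) hx1.2 hx2.2
      have h2 : BD.card ≤ (W \ R').card + (BD ∩ R').card := by
        have : BD ⊆ (W \ R') ∪ (BD ∩ R') := by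
          intro x hx
          by_cases hxR : x ∈ R'
          · exact Finset.mem_union_right _ (Finset.mem_inter.2 ⟨hx, hxR⟩)
          · exact Finset.mem_union_left _ (Finset.mem_sdiff.2 ⟨(Finset.mem_filter.1 hx).1, hxR⟩)
        exact (Finset.card_le_card this).trans (Finset.card_union_le _ _)
      have h3 : (W \ R').card = W.card - R'.card := Finset.card_sdiff_of_subset hR'W
      have h4 : R'.card ≤ W.card := Finset.card_le_card hR'W
      omega
    · have hsub : R.map ⟨fun x : {x : α // x ∈ Λ} => (Sum.inl (x : α) : α ⊕ Fin (S.card - k)),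
          fun x x' h => Subtype.ext (Sum.inl_injective h)⟩ ⊆ R.biUnion t := by
        intro z hz
        obtain ⟨x, hx, rfl⟩ := Finset.mem_map.1 hz
        rw [Finset.mem_biUnion]
        refine ⟨x, hx, ?_⟩
        have hxS : (x : α) ∉ S := fun h => hRS ⟨x, hx, h⟩
        show _ ∈ (if (x : α) ∈ S then _ else _)
        rw [if_neg hxS]
        simp
      have := Finset.card_le_card hsub
      rwa [Finset.card_map] at this
  obtain ⟨f, hfinj, hf⟩ := (Finset.all_card_le_biUnion_card_iff_exists_injective t).1 hall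
  -- the rows of `S` that do not go to dummies
  let S2 : Finset α := S.filter (fun x => ∃ (h : x ∈ Λ) (y : α), f ⟨x, h⟩ = Sum.inl y)
  have hS2card : k ≤ S2.card := by
    have h1 : (S \ S2).card ≤ (Finset.univ : Finset (Fin (S.card - k))).card := by
      have hch : ∀ x ∈ S \ S2, ∃ (h : x ∈ Λ) (d : Fin (S.card - k)), f ⟨x, h⟩ = Sum.inr d := by
        intro x hx
        rw [Finset.mem_sdiff] at hx
        have hxΛ := hSΛ hx.1
        refine ⟨hxΛ, ?_⟩
        rcases hfx : f ⟨x, hxΛ⟩ with y | d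
        · exact absurd (Finset.mem_filter.2 ⟨hx.1, hxΛ, y, hfx⟩) hx.2
        · exact ⟨d, rfl⟩
      by_cases hD : (S \ S2) = ∅
      · rw [hD]; simp
      · obtain ⟨x0, hx0⟩ := Finset.nonempty_iff_ne_empty.2 hD
        obtain ⟨_, d0, _⟩ := hch x0 hx0
        let g : α → Fin (S.card - k) := fun x =>
          if h : x ∈ S \ S2 then Classical.choose (Classical.choose_spec (hch x h)) else d0
        have hg : ∀ x (h : x ∈ S \ S2), ∃ hΛ : x ∈ Λ, f ⟨x, hΛ⟩ = Sum.inr (g x) := by
          intro x h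
          have h2 : g x = Classical.choose (Classical.choose_spec (hch x h)) := dif_pos h
          rw [h2]
          exact ⟨_, Classical.choose_spec (Classical.choose_spec (hch x h))⟩
        apply Finset.card_le_card_of_injOn g (fun x _ => Finset.mem_univ _)
        intro x hx x' hx' hxx'
        obtain ⟨h1, h2⟩ := hg x hx
        obtain ⟨h3, h4⟩ := hg x' hx'
        rw [← hxx', ← h2] at h4
        have := hfinj h4
        exact (Subtype.ext_iff.1 this).symm
    rw [Finset.card_univ, Fintype.card_fin] at h1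
    have h2 : (S \ S2).card = S.card - S2.card :=
      Finset.card_sdiff_of_subset (Finset.filter_subset _ _)
    have h3 : S2.card ≤ S.card := Finset.card_le_card (Finset.filter_subset _ _)
    omega
  obtain ⟨S3, hS32, hS3card⟩ := Finset.exists_subset_card_eq hS2card
  -- the map σ
  let σ : α → α := fun x => if h : ∃ (h : x ∈ Λ) (y : α), f ⟨x, h⟩ = Sum.inl y then
    Classical.choose (Classical.choose_spec h) else x
  have hσ : ∀ x (hx : x ∈ Λ) (y : α), f ⟨x, hx⟩ = Sum.inl y → σ x = y := by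
    intro x hx y hxy
    have h : ∃ (h : x ∈ Λ) (y : α), f ⟨x, h⟩ = Sum.inl y := ⟨hx, y, hxy⟩
    have h1 : σ x = Classical.choose (Classical.choose_spec h) := dif_pos h
    have h2 := Classical.choose_spec (Classical.choose_spec h)
    rw [h1]
    exact (Sum.inl_injective (hxy.symm.trans h2)).symm
  let D : Set α := {x | x ∈ Λ ∧ (x ∉ S ∨ x ∈ S3)}
  have hD : ∀ x ∈ D, ∃ (hx : x ∈ Λ), f ⟨x, hx⟩ = Sum.inl (σ x) := by
    intro x hx
    refine ⟨hx.1, ?_⟩
    by_cases hxS : x ∈ S
    · have hx3 : x ∈ S3 := by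
        rcases hx.2 with h | h
        · exact absurd hxS h
        · exact h
      obtain ⟨_, hΛ, y, hy⟩ := Finset.mem_filter.1 (hS32 hx3)
      rw [hσ x hΛ y hy]; exact hy
    · have h1 := hf ⟨x, hx.1⟩
      have h2 : t ⟨x, hx.1⟩ = (insert x (NE x)).disjSum ∅ := if_neg hxS
      rw [h2] at h1
      rcases hfx : f ⟨x, hx.1⟩ with y | d
      · rw [hσ x hx.1 y hfx]
      · rw [hfx, Finset.inr_mem_disjSum] at h1
        simp at h1
  have hσinj : Set.InjOn σ D := by
    intro x hx x' hx' h
    obtain ⟨h1, h2⟩ := hD x hx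
    obtain ⟨h3, h4⟩ := hD x' hx'
    rw [← h, ← h2] at h4
    exact (Subtype.ext_iff.1 (hfinj h4)).symm
  -- values of σ
  have hσval : ∀ x ∈ D, (σ x = x ∧ x ∉ S) ∨
      (G.Adj x (σ x) ∧ ((σ x ∈ Λ ∧ σ x ∉ S) ∨ (σ x ∉ Λ ∧ σ x ∉ Z))) := by
    intro x hx
    obtain ⟨hxΛ, hfx⟩ := hD x hx
    have h1 := hf ⟨x, hxΛ⟩
    rw [hfx] at h1
    by_cases hxS : x ∈ S
    · have h2 : t ⟨x, hxΛ⟩ = (NE x).disjSum Finset.univ := if_pos hxS
      rw [h2, Finset.inl_mem_disjSum, hNE x hxΛ] at h1
      exact Or.inr h1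
    · have h2 : t ⟨x, hxΛ⟩ = (insert x (NE x)).disjSum ∅ := if_neg hxS
      rw [h2, Finset.inl_mem_disjSum, Finset.mem_insert, hNE x hxΛ] at h1
      rcases h1 with h1 | h1
      · exact Or.inl ⟨h1, hxS⟩
      · exact Or.inr h1
  have hσS : ∀ x ∈ D, σ x ∉ (S : Set α) := by
    intro x hx
    rcases hσval x hx with ⟨h1, h2⟩ | ⟨_, h2 | h2⟩
    · rw [h1]; exact h2
    · exact h2.2
    · exact fun h => h2.1 (hSΛ h)
  have hKey := key σ D (S : Set α) hσinj hσS
  have hS3S : ∀ s ∈ S3, s ∈ S := fun s hs => (Finset.mem_filter.1 (hS32 hs)).1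
  have hS3D : ∀ s ∈ S3, s ∈ D := fun s hs => ⟨hSΛ (hS3S s hs), Or.inr hs⟩
  have hJD : ∀ x, x ∈ Λ \ S → x ∈ D := fun x hx =>
    ⟨(Finset.mem_sdiff.1 hx).1, Or.inl (Finset.mem_sdiff.1 hx).2⟩
  -- the exit time
  have hexit : ∀ s ∈ S3, ∃ n : ℕ, σ^[n + 1] s ∉ Λ \ S := by
    intro s hs
    by_contra hcon
    push Not at hcon
    have hall2 : ∀ m, σ^[m] s ∈ D := by
      intro m
      cases m with
      | zero => exact hS3D s hs
      | succ m => exact hJD _ (hcon m)
    have hinj : Function.Injective (fun m : ℕ => σ^[m] s) := fun i j hij =>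
      (hKey i j s s (hS3S s hs) (hS3S s hs) (fun m _ => hall2 m) (fun m _ => hall2 m) hij).1
    have hinf := Set.infinite_range_of_injective hinj
    apply hinf
    apply (Finset.finite_toSet Λ).subset
    rintro _ ⟨m, rfl⟩
    exact (hall2 m).1
  let ex : α → ℕ := fun s => if h : ∃ n : ℕ, σ^[n + 1] s ∉ Λ \ S then Nat.find h else 0
  have hex : ∀ s ∈ S3, σ^[ex s + 1] s ∉ Λ \ S ∧ ∀ m < ex s, σ^[m + 1] s ∈ Λ \ S := by
    intro s hs
    have h := hexit s hs
    have h1 : ex s = Nat.find h := dif_pos h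
    rw [h1]
    refine ⟨Nat.find_spec h, fun m hm => ?_⟩
    have := Nat.find_min h hm
    push Not at this
    exact this
  have hexD : ∀ s ∈ S3, ∀ m < ex s + 1, σ^[m] s ∈ D := by
    intro s hs m hm
    cases m with
    | zero => exact hS3D s hs
    | succ m => exact hJD _ ((hex s hs).2 m (by omega))
  have hadj : ∀ s ∈ S3, ∀ m < ex s + 1, G.Adj (σ^[m] s) (σ^[m + 1] s) := by
    intro s hs m hm
    rw [Function.iterate_succ_apply']
    rcases hσval _ (hexD s hs m hm) with ⟨h1, _⟩ | h1
    · exfalso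
      rw [← Function.iterate_succ_apply' σ m s] at h1
      have := (hKey (m + 1) m s s (hS3S s hs) (hS3S s hs)
        (fun m' hm' => hexD s hs m' (by omega)) (fun m' hm' => hexD s hs m' (by omega)) h1).1
      omega
    · exact h1.1
  -- enumeration
  let e : Fin k ≃ S3 := (Finset.equivFinOfCardEq hS3card).symm
  let X : Fin k → α := fun i => (e i : α)
  have hX : ∀ i, X i ∈ S3 := fun i => (e i).2
  let T : Fin k → α := fun i => σ^[ex (X i) + 1] (X i)
  have hXinj : Function.Injective X := fun i j h => e.injective (Subtype.ext h)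
  refine ⟨X, T, hXinj, ?_, fun i => hS3S _ (hX i), ?_, ?_⟩
  · intro i j hij
    apply hXinj
    exact (hKey _ _ _ _ (hS3S _ (hX i)) (hS3S _ (hX j)) (hexD _ (hX i)) (hexD _ (hX j)) hij).2
  · intro i
    have h1 := (hex _ (hX i)).1
    have h2 := hexD _ (hX i) (ex (X i)) (Nat.lt_succ_self _)
    have h3 : T i = σ (σ^[ex (X i)] (X i)) := Function.iterate_succ_apply' _ _ _
    have h1' : σ (σ^[ex (X i)] (X i)) ∉ Λ \ S := by
      rw [← Function.iterate_succ_apply' σ]; exact h1
    rw [h3]
    rcases hσval _ h2 with ⟨h4, h5⟩ | ⟨_, h4 | h4⟩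
    · exfalso
      apply h1'
      rw [h4]
      exact Finset.mem_sdiff.2 ⟨h2.1, h5⟩
    · exact absurd (Finset.mem_sdiff.2 h4) h1'
    · exact h4
  · refine ⟨fun i => (List.range (ex (X i))).map (fun m => σ^[m + 1] (X i)), ?_, ?_, ?_⟩
    · intro i
      exact chain_of G.Adj (ex (X i)) (fun m => σ^[m] (X i)) (hadj _ (hX i))
    · intro i
      refine ⟨?_, ?_⟩
      · refine List.Nodup.map_on ?_ List.nodup_range
        intro a ha b hb hab
        rw [List.mem_range] at ha hb
        have := (hKey (a + 1) (b + 1) _ _ (hS3S _ (hX i)) (hS3S _ (hX i))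
          (fun m hm => hexD _ (hX i) m (by omega)) (fun m hm => hexD _ (hX i) m (by omega)) hab).1
        omega
      · intro v hv
        obtain ⟨m, hm, rfl⟩ := List.mem_map.1 hv
        rw [List.mem_range] at hm
        exact (hex _ (hX i)).2 m hm
    · intro i j hij v hv hv'
      obtain ⟨m, hm, h1⟩ := List.mem_map.1 hv
      obtain ⟨m', hm', h2⟩ := List.mem_map.1 hv'
      rw [List.mem_range] at hm hm'
      apply hij
      apply hXinj
      exact (hKey (m + 1) (m' + 1) _ _ (hS3S _ (hX i)) (hS3S _ (hX j))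
          (fun m hm => hexD _ (hX i) m (by omega)) (fun m hm => hexD _ (hX j) m (by omega))
          (h1.trans h2.symm)).2

end Pool.Agent.W565.UCA3
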