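import Pool.Agent.W829.UC.Stmts

/-! UC-B1: closure operator of minimal cuts (MP_566bac_pr). -/

set_option autoImplicit false
set_option linter.all false

open Set
open Pool.Agent.W829.UC

namespace Pool.Agent.W565.UCB1

variable {α : Type} [DecidableEq α] {G : SimpleGraph α}

open Classical in
/-- the set counted by `cst` -/
noncomputable def bd (G : SimpleGraph α) (U : Set α) (W : Finset α) : Finset α :=
  W.filter (fun x => ∃ y, y ∈ U ∧ G.Adj x y ∧ y ∉ W)

theorem cst_eq (U : Set α) (W : Finset α) : cst G U W = (bd G U W).card := rfl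

theorem mem_bd {U : Set α} {W : Finset α} {x : α} :
    x ∈ bd G U W ↔ x ∈ W ∧ ∃ y, y ∈ U ∧ G.Adj x y ∧ y ∉ W := by
  simp [bd]

theorem card4 {P1 P2 P3 P4 : Finset α} (h : P1 ∪ P2 ⊆ P3 ∪ P4) (h' : P1 ∩ P2 ⊆ P3 ∩ P4) :
    P1.card + P2.card ≤ P3.card + P4.card := by
  have h1 := Finset.card_union_add_card_inter P1 P2
  have h2 := Finset.card_union_add_card_inter P3 P4
  have h3 := Finset.card_le_card h
  have h4 := Finset.card_le_card h'
  omega

theorem submod (U : Set α) (W1 W2 : Finset α) :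
    cst G U (W1 ∪ W2) + cst G U (W1 ∩ W2) ≤ cst G U W1 + cst G U W2 := by
  rw [cst_eq, cst_eq, cst_eq, cst_eq]
  apply card4
  · intro x hx
    rw [Finset.mem_union, mem_bd, mem_bd] at hx
    rw [Finset.mem_union, mem_bd, mem_bd]
    rcases hx with ⟨hx, y, hy, hxy, hyn⟩ | ⟨hx, y, hy, hxy, hyn⟩
    · rw [Finset.mem_union] at hx
      rw [Finset.mem_union, not_or] at hyn
      rcases hx with hx | hx
      · exact Or.inl ⟨hx, y, hy, hxy, hyn.1⟩
      · exact Or.inr ⟨hx, y, hy, hxy, hyn.2⟩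
    · rw [Finset.mem_inter] at hx
      rw [Finset.mem_inter, not_and_or] at hyn
      rcases hyn with hyn | hyn
      · exact Or.inl ⟨hx.1, y, hy, hxy, hyn⟩
      · exact Or.inr ⟨hx.2, y, hy, hxy, hyn⟩
  · intro x hx
    rw [Finset.mem_inter, mem_bd, mem_bd] at hx
    rw [Finset.mem_inter, mem_bd, mem_bd]
    obtain ⟨⟨_, y, hy, hxy, hyn⟩, hx, _⟩ := hx
    rw [Finset.mem_inter] at hx
    rw [Finset.mem_union, not_or] at hyn
    exact ⟨⟨hx.1, y, hy, hxy, hyn.1⟩, ⟨hx.2, y, hy, hxy, hyn.2⟩⟩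

/-- adding a certificate does not increase the cost -/
theorem absorb {A : Set α} {W1 W' : Finset α} (h1 : Cert G A W1) (h : ∀ x ∈ W1, x ∈ A → x ∈ W') :
    cst G Aᶜ (W' ∪ W1) ≤ cst G Aᶜ W' := by
  have h2 := submod (G := G) Aᶜ W' W1
  have h3 := h1 (W' ∩ W1) Finset.inter_subset_right
    (fun x hx hA => Finset.mem_inter.2 ⟨h x hx hA, hx⟩)
  omega

theorem cert_union {A : Set α} {W1 W2 : Finset α} (h1 : Cert G A W1) (h2 : Cert G A W2) :
    Cert G A (W1 ∪ W2) := by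
  intro W' hW' hA
  have h3 : cst G Aᶜ (W' ∪ W1) ≤ cst G Aᶜ W' :=
    absorb h1 (fun x hx hxA => hA x (Finset.mem_union_left _ hx) hxA)
  have h4 : cst G Aᶜ (W' ∪ W1 ∪ W2) ≤ cst G Aᶜ (W' ∪ W1) :=
    absorb h2 (fun x hx hxA => Finset.mem_union_left _ (hA x (Finset.mem_union_right _ hx) hxA))
  have h5 : W' ∪ W1 ∪ W2 = W1 ∪ W2 := by
    rw [Finset.union_assoc]
    exact Finset.union_eq_right.2 hW'
  rw [h5] at h4
  exact h4.trans h3

theorem cert_single {A : Set α} {a : α} (ha : a ∈ A) : Cert G A {a} := by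
  intro W' hW' hA
  have h1 : W' = {a} := by
    apply Finset.Subset.antisymm hW'
    intro x hx
    rw [Finset.mem_singleton] at hx
    rw [hx]
    exact hA a (Finset.mem_singleton_self a) ha
  rw [h1]

theorem cert_empty {A : Set α} : Cert G A (∅ : Finset α) := by
  intro W' hW' _
  rw [Finset.subset_empty.1 hW']

theorem sub_Cl (A : Set α) : A ⊆ Cl G A :=
  fun a ha => ⟨{a}, Finset.mem_singleton_self a, cert_single ha⟩

theorem fin_comp (A : Set α) (v : α) (hf : {y | G.Reachable v y}.Finite) : v ∈ Cl G A := by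
  classical
  refine ⟨hf.toFinset, by simp, fun W' _ _ => ?_⟩
  have h0 : bd G Aᶜ hf.toFinset = ∅ := by
    rw [Finset.eq_empty_iff_forall_notMem]
    intro x hx
    rw [mem_bd] at hx
    obtain ⟨hx, y, _, hxy, hy⟩ := hx
    rw [Set.Finite.mem_toFinset] at hx hy
    exact hy (SimpleGraph.Reachable.trans hx hxy.reachable)
  rw [cst_eq, h0]
  simp

theorem fill (A : Set α) (W E : Finset α) (h : Cert G A W)
    (hE : ∀ x ∈ E, ∀ y, G.Adj x y → y ∈ E ∨ y ∈ W ∨ y ∈ A) : Cert G A (W ∪ E) := by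
  intro W' hW' hA
  have h1 : cst G Aᶜ (W' ∪ W) ≤ cst G Aᶜ W' :=
    absorb h (fun x hx hxA => hA x (Finset.mem_union_left _ hx) hxA)
  refine le_trans ?_ h1
  rw [cst_eq, cst_eq]
  apply Finset.card_le_card
  intro x hx
  rw [mem_bd] at hx ⊢
  obtain ⟨hx, y, hy, hxy, hyn⟩ := hx
  rw [Finset.mem_union, not_or] at hyn
  have hxW : x ∈ W := by
    rcases Finset.mem_union.1 hx with hx | hx
    · exact hx
    · exfalso
      rcases hE x hx y hxy with h2 | h2 | h2
      · exact hyn.2 h2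
      · exact hyn.1 h2
      · exact hy h2
  refine ⟨Finset.mem_union_right _ hxW, y, hy, hxy, ?_⟩
  rw [Finset.mem_union, not_or]
  refine ⟨fun h2 => ?_, hyn.1⟩
  rcases Finset.mem_union.1 (hW' h2) with h3 | h3
  · exact hyn.1 h3
  · exact hyn.2 h3

/-- finitely many points of the closure are covered by one certificate -/
theorem cover {B : Set α} (s : Finset α) (hs : ∀ a ∈ s, a ∈ Cl G B) :
    ∃ WB : Finset α, Cert G B WB ∧ s ⊆ WB := by
  induction s using Finset.induction_on with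
  | empty => exact ⟨∅, cert_empty, Finset.Subset.refl _⟩
  | insert a s _ ih =>
    obtain ⟨W, hW, hsW⟩ := ih (fun b hb => hs b (Finset.mem_insert_of_mem hb))
    obtain ⟨Wa, haW, hWa⟩ := hs a (Finset.mem_insert_self _ _)
    refine ⟨Wa ∪ W, cert_union hWa hW, ?_⟩
    intro b hb
    rcases Finset.mem_insert.1 hb with rfl | hb
    · exact Finset.mem_union_left _ haW
    · exact Finset.mem_union_right _ (hsW hb)

theorem mixed {A B : Set α} (hBA : B ⊆ A) {WA W : Finset α}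
    (h : ∀ x ∈ WA, ∀ y, G.Adj x y → y ∈ A → y ∈ W) :
    cst G Bᶜ (W ∪ WA) + cst G Aᶜ (W ∩ WA) ≤ cst G Bᶜ W + cst G Aᶜ WA := by
  rw [cst_eq, cst_eq, cst_eq, cst_eq]
  apply card4
  · intro x hx
    rw [Finset.mem_union, mem_bd, mem_bd] at hx
    rw [Finset.mem_union, mem_bd, mem_bd]
    rcases hx with ⟨hx, y, hy, hxy, hyn⟩ | ⟨hx, y, hy, hxy, hyn⟩
    · rw [Finset.mem_union] at hx
      rw [Finset.mem_union, not_or] at hyn
      rcases hx with hx | hx
      · exact Or.inl ⟨hx, y, hy, hxy, hyn.1⟩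
      · exact Or.inr ⟨hx, y, fun hyA => hyn.1 (h x hx y hxy hyA), hxy, hyn.2⟩
    · rw [Finset.mem_inter] at hx
      rw [Finset.mem_inter, not_and_or] at hyn
      rcases hyn with hyn | hyn
      · exact Or.inl ⟨hx.1, y, fun hyB => hy (hBA hyB), hxy, hyn⟩
      · exact Or.inr ⟨hx.2, y, hy, hxy, hyn⟩
  · intro x hx
    rw [Finset.mem_inter, mem_bd, mem_bd] at hx
    rw [Finset.mem_inter, mem_bd, mem_bd]
    obtain ⟨⟨_, y, hy, hxy, hyn⟩, hx, _⟩ := hx
    rw [Finset.mem_inter] at hx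
    rw [Finset.mem_union, not_or] at hyn
    exact ⟨⟨hx.1, y, hy, hxy, hyn.1⟩,
      ⟨hx.2, y, fun hyA => hyn.1 (h x hx.2 y hxy hyA), hxy, hyn.2⟩⟩

theorem Cl_Cl (hG : ∀ x, {y | G.Adj x y}.Finite) (A B : Set α) (hBA : B ⊆ A) (hAB : A ⊆ Cl G B) :
    Cl G A ⊆ Cl G B := by
  classical
  rintro v ⟨WA, hv, hWA⟩
  let N : Finset α := (WA ∪ WA.biUnion (fun x => (hG x).toFinset)).filter (fun x => x ∈ A)
  obtain ⟨WB, hWB, hN⟩ := cover (G := G) (B := B) N (fun a ha => hAB (Finset.mem_filter.1 ha).2)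
  have hN1 : ∀ x ∈ WA, x ∈ A → x ∈ WB := fun x hx hxA =>
    hN (Finset.mem_filter.2 ⟨Finset.mem_union_left _ hx, hxA⟩)
  have hN2 : ∀ x ∈ WA, ∀ y, G.Adj x y → y ∈ A → y ∈ WB := fun x hx y hxy hyA =>
    hN (Finset.mem_filter.2 ⟨Finset.mem_union_right _ (Finset.mem_biUnion.2 ⟨x, hx, by
      rw [Set.Finite.mem_toFinset]; exact hxy⟩), hyA⟩)
  refine ⟨WA ∪ WB, Finset.mem_union_left _ hv, ?_⟩
  intro W' hW' hB
  have h1 : cst G Bᶜ (W' ∪ WB) ≤ cst G Bᶜ W' :=
    absorb hWB (fun x hx hxB => hB x (Finset.mem_union_right _ hx) hxB)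
  have h2 := mixed (G := G) hBA (WA := WA) (W := W' ∪ WB)
    (fun x hx y hxy hyA => Finset.mem_union_right _ (hN2 x hx y hxy hyA))
  have h3 := hWA ((W' ∪ WB) ∩ WA) Finset.inter_subset_right (fun x hx hxA =>
    Finset.mem_inter.2 ⟨Finset.mem_union_right _ (hN1 x hx hxA), hx⟩)
  have h4 : W' ∪ WB ∪ WA = WA ∪ WB := by
    rw [Finset.union_assoc, Finset.union_comm WB WA]
    exact Finset.union_eq_right.2 hW'
  rw [h4] at h2
  omega

theorem conn_part (A : Set α) (W : Finset α) (h : Cert G A W) : ∃ W1 : Finset α, W1 ⊆ W ∧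
    Cert G A W1 ∧ (∀ x ∈ W, x ∈ A → x ∈ W1) ∧ (∀ x ∈ W1, Con G (↑W1) x A) ∧
    (∀ x, Con G (↑W) x A → x ∈ W1) := by
  classical
  let W1 : Finset α := W.filter (fun x => Con G (↑W) x A)
  have hsub : W1 ⊆ W := Finset.filter_subset _ _
  have hA1 : ∀ x ∈ W, x ∈ A → x ∈ W1 := fun x hx hxA =>
    Finset.mem_filter.2 ⟨hx, hx, x, hxA, hx, SimpleGraph.Reachable.refl x⟩
  have hedge : ∀ x ∈ W1, ∀ y ∈ W, G.Adj x y → y ∈ W1 := by
    intro x hx y hy hxy
    obtain ⟨hxW, _, a, haA, haW, hr⟩ := Finset.mem_filter.1 hx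
    refine Finset.mem_filter.2 ⟨hy, hy, a, haA, haW, ?_⟩
    have hyx : (res G (↑W : Set α)).Adj y x := ⟨hxy.symm, hy, hxW⟩
    exact hyx.reachable.trans hr
  have hcon : ∀ x, Con G (↑W) x A → x ∈ W1 := fun x hx =>
    Finset.mem_filter.2 ⟨hx.1, hx⟩
  refine ⟨W1, hsub, ?_, hA1, ?_, hcon⟩
  · intro W' hW' hA
    have h1 : cst G Aᶜ W1 + cst G Aᶜ (W \ W1) ≤ cst G Aᶜ W := by
      rw [cst_eq, cst_eq, cst_eq, ← Finset.card_union_of_disjoint]
      · apply Finset.card_le_card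
        intro x hx
        rw [Finset.mem_union, mem_bd, mem_bd] at hx
        rw [mem_bd]
        rcases hx with ⟨hx, y, hy, hxy, hyn⟩ | ⟨hx, y, hy, hxy, hyn⟩
        · exact ⟨hsub hx, y, hy, hxy, fun hyW => hyn (hedge x hx y hyW hxy)⟩
        · rw [Finset.mem_sdiff] at hx
          refine ⟨hx.1, y, hy, hxy, fun hyW => ?_⟩
          by_cases hy1 : y ∈ W1
          · exact hx.2 (hedge y hy1 x hx.1 hxy.symm)
          · exact hyn (Finset.mem_sdiff.2 ⟨hyW, hy1⟩)
      · rw [Finset.disjoint_left]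
        intro x hx hx'
        rw [mem_bd] at hx hx'
        exact (Finset.mem_sdiff.1 hx'.1).2 hx.1
    have h2 : cst G Aᶜ W ≤ cst G Aᶜ (W' ∪ (W \ W1)) := by
      apply h
      · intro x hx
        rcases Finset.mem_union.1 hx with hx | hx
        · exact hsub (hW' hx)
        · exact (Finset.mem_sdiff.1 hx).1
      · intro x hx hxA
        exact Finset.mem_union_left _ (hA x (hA1 x hx hxA) hxA)
    have h3 := submod (G := G) Aᶜ W' (W \ W1)
    omega
  · intro x hx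
    obtain ⟨hxW, _, a, haA, haW, hr⟩ := Finset.mem_filter.1 hx
    have key : ∀ u b : α, (res G (↑W : Set α)).Walk u b → u ∈ W1 →
        b ∈ W1 ∧ (res G (↑W1 : Set α)).Reachable u b := by
      intro u b p
      induction p with
      | nil => intro hu; exact ⟨hu, SimpleGraph.Reachable.refl _⟩
      | cons hadj p ih =>
        intro hu
        have hv := hedge _ hu _ hadj.2.2 hadj.1
        obtain ⟨hb, hr2⟩ := ih hv
        refine ⟨hb, SimpleGraph.Reachable.trans ?_ hr2⟩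
        apply SimpleGraph.Adj.reachable
        exact ⟨hadj.1, hu, hv⟩
    obtain ⟨p⟩ := hr
    obtain ⟨ha1, hr1⟩ := key x a p hx
    exact ⟨hx, a, haA, ha1, hr1⟩

theorem main : S_B1 := by
  intro α _ G
  refine ⟨fun U W1 W2 => submod U W1 W2, fun A W1 W2 h1 h2 => cert_union h1 h2,
    fun A a ha => cert_single ha, fun A => sub_Cl A, fun A v hf => fin_comp A v hf,
    fun A W E h hE => fill A W E h hE, fun hG A B hBA hAB => Cl_Cl hG A B hBA hAB,
    fun A W h => conn_part A W h⟩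

end Pool.Agent.W565.UCB1
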