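import Mathlib
import Pool.Agent.W526.LL.Stm

/-! Steinberg vectors: parts (1), (2) and (4) of `S_C` (MP_5ae62c_nt). -/

namespace Pool.Agent.W565.LLC12

open WithZero
open Pool.Agent.W526.LL

section Local

variable {F : Type} [Field F] [Valued F ℤᵐ⁰] {D : LD F}
  {V : Type} [AddCommGroup V] [Module ℂ V] {ρ : Representation ℂ (GL (Fin 2) F) V} {y : V}

/-- the stabiliser of a vector -/
def stab {G : Type} [Group G] (ρ : Representation ℂ G V) (v : V) : Subgroup G where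
  carrier := {g | ρ g v = v}
  mul_mem' := by
    intro a b ha hb
    show ρ (a * b) v = v
    rw [map_mul, Module.End.mul_apply]
    rw [show ρ b v = v from hb, show ρ a v = v from ha]
  one_mem' := by
    show ρ 1 v = v
    rw [map_one, Module.End.one_apply]
  inv_mem' := by
    intro a ha
    show ρ a⁻¹ v = v
    have h : ρ a v = v := ha
    calc ρ a⁻¹ v = ρ a⁻¹ (ρ a v) := by rw [h]
      _ = ρ (a⁻¹ * a) v := by rw [map_mul, Module.End.mul_apply]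
      _ = v := by rw [inv_mul_cancel, map_one, Module.End.one_apply]

theorem mem_stab {G : Type} [Group G] {ρ : Representation ℂ G V} {v : V} {g : G} :
    g ∈ stab ρ v ↔ ρ g v = v := Iff.rfl

theorem act_mul {G : Type} [Group G] (ρ : Representation ℂ G V) (a b : G) (v : V) :
    ρ (a * b) v = ρ a (ρ b v) := by
  rw [map_mul, Module.End.mul_apply]

theorem w_w (D : LD F) : D.w * D.w = D.z := by
  apply ext4 <;> simp [mul_ij, LD.w, LD.al, LD.z, dg, ws, sc]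

theorem z_fix (h : IsSt D ρ y) : ρ D.z y = y := by
  rw [← w_w, act_mul, h.w, map_neg, h.w, neg_neg]

theorem zpow_fix (h : IsSt D ρ y) (j : ℤ) : ρ (D.z ^ j) y = y :=
  Subgroup.zpow_mem (stab ρ y) (mem_stab.2 (z_fix h)) j

theorem z_comm (D : LD F) (g : GL (Fin 2) F) : Commute D.z g := sc_comm _ _ g

theorem act_dec (hdec : S_dec) (h : IsSt D ρ y) (g : GL (Fin 2) F) :
    ∃ k ∈ maxK F, ∃ m : ℕ, ρ g y = ρ k (ρ (D.al ^ m) y) ∨ ρ g y = -ρ k (ρ (D.al ^ m) y) := by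
  obtain ⟨j, k, m, i, hk, hi, hg | hg⟩ := hdec F D g
  · refine ⟨k, hk, m, Or.inl ?_⟩
    have e : g = k * (D.al ^ m * (D.z ^ j * i)) := by
      rw [hg]
      have h1 : Commute (D.z ^ j) (k * D.al ^ m) := (z_comm D _).zpow_left j
      calc D.z ^ j * k * D.al ^ m * i = (D.z ^ j * (k * D.al ^ m)) * i := by group
        _ = ((k * D.al ^ m) * D.z ^ j) * i := by rw [h1.eq]
        _ = _ := by group
    rw [e, act_mul, act_mul, act_mul, h.iw i hi, zpow_fix h]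
  · refine ⟨k, hk, m, Or.inr ?_⟩
    have e : g = k * (D.al ^ m * (D.w * (D.z ^ j * i))) := by
      rw [hg]
      have h1 : Commute (D.z ^ j) (k * D.al ^ m * D.w) := (z_comm D _).zpow_left j
      calc D.z ^ j * k * D.al ^ m * D.w * i = (D.z ^ j * (k * D.al ^ m * D.w)) * i := by group
        _ = ((k * D.al ^ m * D.w) * D.z ^ j) * i := by rw [h1.eq]
        _ = _ := by group
    rw [e, act_mul, act_mul, act_mul, act_mul, h.iw i hi, zpow_fix h, h.w, map_neg, map_neg]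

theorem al_pow (D : LD F) (m : ℕ) : D.al ^ m = dg (D.ϖ ^ m) (pow_ne_zero _ D.ne) := by
  induction m with
  | zero => rw [pow_zero]; apply ext4 <;> simp [dg]
  | succ m ih =>
    rw [pow_succ, ih, LD.al, dg_mul]
    apply ext4 <;> simp [dg, pow_succ]

theorem v_pow (D : LD F) (m : ℕ) : Valued.v (D.ϖ ^ m) = exp (-(m : ℤ)) := by
  rw [map_pow, D.hϖ, ← exp_nsmul]
  congr 1
  simp

theorem conj_mem (D : LD F) (m : ℕ) {u : GL (Fin 2) F} (hu : u ∈ maxK F)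
    (h : Valued.v (u 1 0) ≤ exp (-((m : ℤ) + 1))) :
    (D.al ^ m)⁻¹ * u * D.al ^ m ∈ Iw F := by
  have hp0 : D.ϖ ^ m ≠ 0 := pow_ne_zero _ D.ne
  rw [al_pow]
  have e00 : ((dg (D.ϖ ^ m) hp0)⁻¹ * u * dg (D.ϖ ^ m) hp0) 0 0 = u 0 0 := by
    simp [mul_ij, inv_00, inv_01, inv_10, inv_11, dg, dt_gl2]
    field_simp
  have e01 : ((dg (D.ϖ ^ m) hp0)⁻¹ * u * dg (D.ϖ ^ m) hp0) 0 1 = u 0 1 * D.ϖ ^ m := by
    simp [mul_ij, inv_00, inv_01, inv_10, inv_11, dg, dt_gl2]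
    field_simp
    simp
  have e10 : ((dg (D.ϖ ^ m) hp0)⁻¹ * u * dg (D.ϖ ^ m) hp0) 1 0 = u 1 0 * (D.ϖ ^ m)⁻¹ := by
    simp [mul_ij, inv_00, inv_01, inv_10, inv_11, dg, dt_gl2]
    field_simp
  have e11 : ((dg (D.ϖ ^ m) hp0)⁻¹ * u * dg (D.ϖ ^ m) hp0) 1 1 = u 1 1 := by
    simp [mul_ij, inv_00, inv_01, inv_10, inv_11, dg, dt_gl2]
    field_simp
  have hv : Valued.v (u 1 0 * (D.ϖ ^ m)⁻¹) < 1 := by
    rw [map_mul, map_inv₀, v_pow]
    have : Valued.v (u 1 0) * (exp (-(m : ℤ)))⁻¹ ≤ exp (-((m : ℤ) + 1)) * (exp (-(m : ℤ)))⁻¹ :=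
      mul_le_mul_left h _
    refine lt_of_le_of_lt this ?_
    rw [← exp_neg, ← exp_add, ← exp_zero, exp_lt_exp]
    omega
  refine ⟨⟨?_, ?_⟩, ?_⟩
  · intro i j
    fin_cases i <;> fin_cases j
    · show Valued.v (((dg (D.ϖ ^ m) hp0)⁻¹ * u * dg (D.ϖ ^ m) hp0) 0 0) ≤ 1
      rw [e00]; exact hu.1 _ _
    · show Valued.v (((dg (D.ϖ ^ m) hp0)⁻¹ * u * dg (D.ϖ ^ m) hp0) 0 1) ≤ 1
      rw [e01, map_mul]
      refine mul_le_one' (hu.1 _ _) ?_
      rw [v_pow, ← exp_zero, exp_le_exp]; omega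
    · show Valued.v (((dg (D.ϖ ^ m) hp0)⁻¹ * u * dg (D.ϖ ^ m) hp0) 1 0) ≤ 1
      rw [e10]; exact hv.le
    · show Valued.v (((dg (D.ϖ ^ m) hp0)⁻¹ * u * dg (D.ϖ ^ m) hp0) 1 1) ≤ 1
      rw [e11]; exact hu.1 _ _
  · rw [dt_mul, dt_mul, dt_inv, mul_comm, ← mul_assoc, mul_inv_cancel₀ (dt_ne_zero _), one_mul]
    exact hu.2
  · rw [e10]; exact hv

/-- `y_m` is fixed by the matrices of `K` with lower left entry in `ϖ^(m+1) O`. -/
theorem ym_fix (h : IsSt D ρ y) (m : ℕ) {u : GL (Fin 2) F} (hu : u ∈ maxK F)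
    (hu' : Valued.v (u 1 0) ≤ exp (-((m : ℤ) + 1))) :
    ρ u (ρ (D.al ^ m) y) = ρ (D.al ^ m) y := by
  have e : u * D.al ^ m = D.al ^ m * ((D.al ^ m)⁻¹ * u * D.al ^ m) := by group
  rw [← act_mul, e, act_mul, h.iw _ (conj_mem D m hu hu')]

theorem Kn_10 {n : ℕ} {u : GL (Fin 2) F} (hu : u ∈ Kn F n) : Valued.v (u 1 0) ≤ exp (-(n : ℤ)) := by
  have := hu.2 1 0
  simpa using this

theorem kym_fix (h : IsSt D ρ y) {m N : ℕ} (hN : m + 1 ≤ N) {k : GL (Fin 2) F} (hk : k ∈ maxK F) :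
    ∀ u ∈ Kn F N, ρ u (ρ k (ρ (D.al ^ m) y)) = ρ k (ρ (D.al ^ m) y) := by
  intro u hu
  have hu' : u ∈ Kn F (m + 1) := Kn_anti hN hu
  have hc : k⁻¹ * u * k ∈ Kn F (m + 1) := Kn_normal' hk hu'
  have e : u * k = k * (k⁻¹ * u * k) := by group
  rw [← act_mul, e, act_mul, ym_fix h m hc.1 (by simpa using Kn_10 hc)]

theorem ym_fix' (h : IsSt D ρ y) {m N : ℕ} (hN : m + 1 ≤ N) :
    ∀ u ∈ Kn F N, ρ u (ρ (D.al ^ m) y) = ρ (D.al ^ m) y := by
  intro u hu
  have := kym_fix h hN (one_mem (maxK F)) u hu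
  simpa using this

theorem rec_inv (h : IsSt D ρ y) : ρ (D.al⁻¹) y = ∑ t ∈ D.T, ρ (lo t) y := by
  have h1 : ρ ws y = -ρ (D.al⁻¹) y := by
    have h2 := h.w
    have h3 : ρ (D.al⁻¹) (ρ D.w y) = ρ ws y := by
      rw [← act_mul]
      congr 2
      rw [LD.w]; group
    rw [← h3, h2, map_neg]
  have h4 := h.har
  rw [h1] at h4
  exact (eq_of_sub_eq_zero (by rw [sub_eq_add_neg]; exact h4)).symm

theorem rec_ym (h : IsSt D ρ y) (m : ℕ) : ρ (D.al ^ m) y =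
    ∑ t ∈ D.T, ρ (lo (D.ϖ ^ (m + 1) * t)) (ρ (D.al ^ (m + 1)) y) := by
  have e : D.al ^ m = D.al ^ (m + 1) * D.al⁻¹ := by group
  conv_lhs => rw [e, act_mul, rec_inv h, map_sum]
  refine Finset.sum_congr rfl fun t _ => ?_
  rw [← act_mul, ← act_mul, al_pow, dg_lo]

/-- part (4) -/
theorem smooth (hdec : S_dec) (h : IsSt D ρ y) (S : Set (V →ₗ[ℂ] V))
    (hS : ∀ A ∈ S, ∀ g v, A (ρ g v) = ρ g (A v)) :
    ∀ x ∈ bigSpan ρ S y, ∃ n : ℕ, ∀ k ∈ Kn F n, ρ k x = x := by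
  intro x hx
  induction hx using Submodule.span_induction with
  | mem x hx =>
    obtain ⟨A, hA, g, rfl⟩ := hx
    obtain ⟨k, hk, m, hg | hg⟩ := act_dec hdec h g
    · refine ⟨m + 1, fun u hu => ?_⟩
      rw [hg, ← hS A hA, kym_fix h le_rfl hk u hu]
    · refine ⟨m + 1, fun u hu => ?_⟩
      rw [hg, map_neg, map_neg, ← hS A hA, kym_fix h le_rfl hk u hu]
  | zero => exact ⟨0, fun k _ => map_zero _⟩
  | add x x' _ _ ih ih' =>
    obtain ⟨n, hn⟩ := ih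
    obtain ⟨n', hn'⟩ := ih'
    refine ⟨max n n', fun k hk => ?_⟩
    rw [map_add, hn k (Kn_anti (le_max_left _ _) hk), hn' k (Kn_anti (le_max_right _ _) hk)]
  | smul c x _ ih =>
    obtain ⟨n, hn⟩ := ih
    exact ⟨n, fun k hk => by rw [map_smul, hn k hk]⟩

theorem add_one_smul' (c : ℂ) (v : V) : c • v + v = (c + 1) • v := by
  rw [add_smul, one_smul]

theorem card_ne (D : LD F) : (D.T.card : ℂ) ≠ 0 := by
  have : D.T.card ≠ 0 := Finset.card_ne_zero_of_mem D.hT0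
  exact_mod_cast this

/-- moving group elements through an average -/
theorem avg_right {H : Subgroup (GL (Fin 2) F)} (hH : H ≤ maxK F) {N : ℕ}
    [Finite (H ⧸ (Kn F N).subgroupOf H)] {v : V} (hv : ∀ n ∈ Kn F N, ρ n v = v)
    {g : GL (Fin 2) F} (hg : g ∈ H) : avg ρ H (Kn F N) (ρ g v) = avg ρ H (Kn F N) v :=
  avg_act_right hv (fun _ hh _ hn => Kn_normal (hH hh) hn) hg

theorem v_lo (D : LD F) (m : ℕ) {t : F} (ht : t ∈ D.T) :
    Valued.v (D.ϖ ^ (m + 1) * t) ≤ exp (-((m : ℤ) + 1)) := by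
  rw [map_mul, v_pow]
  calc exp (-((m + 1 : ℕ) : ℤ)) * Valued.v t ≤ exp (-((m + 1 : ℕ) : ℤ)) * 1 :=
        mul_le_mul_right (D.hT t ht) _
    _ = _ := by rw [mul_one]; push_cast; rfl

theorem v_lo_lt (D : LD F) (m : ℕ) {t : F} (ht : t ∈ D.T) :
    Valued.v (D.ϖ ^ (m + 1) * t) < 1 := by
  refine lt_of_le_of_lt (v_lo D m ht) ?_
  rw [← exp_zero, exp_lt_exp]; omega

/-- averages of `y_m` over a group containing the Iwahori subgroup -/
theorem avg_rec (h : IsSt D ρ y) {H : Subgroup (GL (Fin 2) F)} (hH : H ≤ maxK F) (hI : Iw F ≤ H)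
    {m N : ℕ} (hN : m + 2 ≤ N) [Finite (H ⧸ (Kn F N).subgroupOf H)] :
    avg ρ H (Kn F N) (ρ (D.al ^ m) y) =
      (D.T.card : ℂ) • avg ρ H (Kn F N) (ρ (D.al ^ (m + 1)) y) := by
  conv_lhs => rw [rec_ym h m, map_sum]
  rw [Finset.sum_congr rfl (fun t ht => avg_right hH (ym_fix' h (m := m + 1) (N := N) (by omega))
    (hI (lo_mem_Iw (v_lo_lt D m ht))))]
  rw [Finset.sum_const, ← Nat.cast_smul_eq_nsmul ℂ]

theorem avgK_ym (h : IsSt D ρ y) (hquo : S_quo) (m : ℕ) : ∀ N, m + 1 ≤ N →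
    avg ρ (maxK F) (Kn F N) (ρ (D.al ^ m) y) = 0 := by
  induction m with
  | zero =>
    intro N hN
    have hf := hquo F D N (maxK F) le_rfl
    have hfix : ∀ u ∈ Kn F N, ρ u y = y := by
      have := ym_fix' h (m := 0) hN
      simpa using this
    have h1 := congrArg (avg ρ (maxK F) (Kn F N)) h.har
    rw [map_add, map_sum, map_zero] at h1
    rw [Finset.sum_congr rfl (fun t ht => avg_right le_rfl hfix (lo_mem (D.hT t ht))),
      avg_right le_rfl hfix ws_mem, Finset.sum_const, ← Nat.cast_smul_eq_nsmul ℂ,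
      add_one_smul'] at h1
    rcases smul_eq_zero.1 h1 with h2 | h2
    · exfalso
      have : ((D.T.card + 1 : ℕ) : ℂ) = 0 := by push_cast; exact h2
      rw [Nat.cast_eq_zero] at this
      omega
    · simpa using h2
  | succ m ih =>
    intro N hN
    have hf := hquo F D N (maxK F) le_rfl
    have h1 := avg_rec h le_rfl Iw_le (m := m) (N := N) (by omega)
    rw [ih N (by omega)] at h1
    rcases smul_eq_zero.1 h1.symm with h2 | h2
    · exact absurd h2 (card_ne D)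
    · exact h2

theorem part1 (hdec : S_dec) (hquo : S_quo) (h : IsSt D ρ y) (S : Set (V →ₗ[ℂ] V))
    (hS : ∀ A ∈ S, ∀ g v, A (ρ g v) = ρ g (A v)) :
    ∀ x ∈ bigSpan ρ S y, (∀ k ∈ maxK F, ρ k x = x) → x = 0 := by
  intro x hx hfix
  have key : ∃ N0 : ℕ, ∀ N, N0 ≤ N → avg ρ (maxK F) (Kn F N) x = 0 := by
    clear hfix
    induction hx using Submodule.span_induction with
    | mem x hx =>
      obtain ⟨A, hA, g, rfl⟩ := hx
      obtain ⟨k, hk, m, hg⟩ := act_dec hdec h g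
      refine ⟨m + 1, fun N hN => ?_⟩
      have hf := hquo F D N (maxK F) le_rfl
      rw [avg_comm (hS A hA)]
      have h1 : avg ρ (maxK F) (Kn F N) (ρ k (ρ (D.al ^ m) y)) = 0 := by
        rw [avg_right le_rfl (ym_fix' h hN) hk, avgK_ym h hquo m N hN]
      rcases hg with hg | hg
      · rw [hg, h1, map_zero]
      · rw [hg, map_neg, h1, neg_zero, map_zero]
    | zero => exact ⟨0, fun N _ => map_zero _⟩
    | add x x' _ _ ih ih' =>
      obtain ⟨n, hn⟩ := ih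
      obtain ⟨n', hn'⟩ := ih'
      refine ⟨max n n', fun N hN => ?_⟩
      rw [map_add, hn N ((le_max_left _ _).trans hN), hn' N ((le_max_right _ _).trans hN), add_zero]
    | smul c x _ ih =>
      obtain ⟨n, hn⟩ := ih
      exact ⟨n, fun N hN => by rw [map_smul, hn N hN, smul_zero]⟩
  obtain ⟨N0, hN0⟩ := key
  have hf := hquo F D N0 (maxK F) le_rfl
  rw [← hN0 N0 le_rfl, avg_fix hfix]

/-- decomposition of the elements of `K` outside the Iwahori subgroup -/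
theorem dec_notIw {k : GL (Fin 2) F} (hk : k ∈ maxK F) (hk' : k ∉ Iw F) :
    ∃ i ∈ Iw F, ∃ r : F, Valued.v r ≤ 1 ∧ k = i * ws * up r := by
  have hc : Valued.v (k 1 0) = 1 := by
    refine le_antisymm (hk.1 _ _) (not_lt.1 fun hlt => hk' ⟨hk, hlt⟩)
  have hc0 : k 1 0 ≠ 0 := by
    intro h0
    rw [h0, map_zero] at hc
    exact zero_ne_one hc
  have hd := dt_ne_zero k
  have hdet : (k 0 1 - k 0 0 * (k 1 1 / k 1 0)) * k 1 0 - k 0 0 * 0 = -dt k := by
    simp only [dt]; field_simp; ring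
  have hr : Valued.v (k 1 1 / k 1 0) ≤ 1 := by
    rw [map_div₀, hc, div_one]; exact hk.1 _ _
  refine ⟨gl2 (k 0 1 - k 0 0 * (k 1 1 / k 1 0)) (k 0 0) 0 (k 1 0)
    (by rw [hdet]; exact neg_ne_zero.2 hd), ⟨⟨?_, ?_⟩, ?_⟩, k 1 1 / k 1 0, hr, ?_⟩
  · intro i j
    fin_cases i <;> fin_cases j
    · show Valued.v (k 0 1 - k 0 0 * (k 1 1 / k 1 0)) ≤ 1
      refine Valued.v.map_sub_le (hk.1 _ _) ?_
      rw [map_mul]
      exact mul_le_one' (hk.1 _ _) hr
    · exact hk.1 _ _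
    · show Valued.v (0 : F) ≤ 1
      rw [map_zero]; exact zero_le_one
    · exact hk.1 _ _
  · rw [dt_gl2, hdet, Valuation.map_neg]; exact hk.2
  · show Valued.v (0 : F) < 1
    rw [map_zero]; exact zero_lt_one
  · apply ext4 <;> simp [mul_ij, ws, up]
    field_simp

theorem up_fix (h : IsSt D ρ y) (m : ℕ) {r : F} (hr : Valued.v r ≤ 1) :
    ρ (up r) (ρ (D.al ^ m) y) = ρ (D.al ^ m) y := by
  refine ym_fix h m (up_mem hr) ?_
  simp [up]

theorem avgI_notIw (h : IsSt D ρ y) {m N : ℕ} (hN : m + 1 ≤ N)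
    [Finite (Iw F ⧸ (Kn F N).subgroupOf (Iw F))] {k : GL (Fin 2) F}
    (hk : k ∈ maxK F) (hk' : k ∉ Iw F) :
    avg ρ (Iw F) (Kn F N) (ρ k (ρ (D.al ^ m) y)) =
      avg ρ (Iw F) (Kn F N) (ρ ws (ρ (D.al ^ m) y)) := by
  obtain ⟨i, hi, r, hr, rfl⟩ := dec_notIw hk hk'
  rw [act_mul, act_mul, up_fix h m hr, avg_right Iw_le (kym_fix h hN ws_mem) hi]

theorem avgI (h : IsSt D ρ y) (hquo : S_quo) (m : ℕ) : ∀ N, m + 1 ≤ N →
    (∃ c : ℂ, avg ρ (Iw F) (Kn F N) (ρ (D.al ^ m) y) = c • y) ∧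
    (∃ c : ℂ, avg ρ (Iw F) (Kn F N) (ρ ws (ρ (D.al ^ m) y)) = c • y) := by
  classical
  induction m with
  | zero =>
    intro N hN
    have hf := hquo F D N (Iw F) Iw_le
    have e0 : avg ρ (Iw F) (Kn F N) y = y := avg_fix h.iw
    have ey : ρ (D.al ^ 0) y = y := by simp
    refine ⟨⟨1, by rw [ey, e0, one_smul]⟩, ⟨-(D.T.card : ℂ)⁻¹, ?_⟩⟩
    have h1 := congrArg (avg ρ (Iw F) (Kn F N)) h.har
    rw [map_add, map_sum, map_zero] at h1
    have h2 : ∀ t ∈ D.T.erase 0, avg ρ (Iw F) (Kn F N) (ρ (lo t) y) =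
        avg ρ (Iw F) (Kn F N) (ρ ws y) := by
      intro t ht
      have ht' := Finset.mem_of_mem_erase ht
      have hne := Finset.ne_of_mem_erase ht
      have := avgI_notIw h (m := 0) hN (k := lo t) (lo_mem (D.hT t ht')) (by
        intro hI
        have h3 : Valued.v t < 1 := by
          have := hI.2
          simpa [lo] using this
        exact hne (D.huniq t ht' 0 D.hT0 (by simpa using h3)))
      rwa [ey] at this
    rw [← Finset.add_sum_erase _ _ D.hT0, Finset.sum_congr rfl h2, lo_zero, map_one,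
      Module.End.one_apply, e0, Finset.sum_const, Finset.card_erase_of_mem D.hT0,
      ← Nat.cast_smul_eq_nsmul ℂ, add_assoc, add_one_smul'] at h1
    have h3 : (((D.T.card - 1 : ℕ) : ℂ) + 1) = D.T.card := by
      have : 1 ≤ D.T.card := Finset.card_pos.2 ⟨0, D.hT0⟩
      push_cast [Nat.cast_sub this]
      ring
    rw [h3] at h1
    rw [ey]
    have h4 : (D.T.card : ℂ) • avg ρ (Iw F) (Kn F N) (ρ ws y) = -y := by
      exact (neg_eq_of_add_eq_zero_right h1).symm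
    calc avg ρ (Iw F) (Kn F N) (ρ ws y)
        = (D.T.card : ℂ)⁻¹ • ((D.T.card : ℂ) • avg ρ (Iw F) (Kn F N) (ρ ws y)) := by
          rw [smul_smul, inv_mul_cancel₀ (card_ne D), one_smul]
      _ = -(D.T.card : ℂ)⁻¹ • y := by rw [h4, smul_neg, neg_smul]
  | succ m ih =>
    intro N hN
    have hf := hquo F D N (Iw F) Iw_le
    obtain ⟨⟨c, hc⟩, ⟨d, hd⟩⟩ := ih N (by omega)
    constructor
    · refine ⟨(D.T.card : ℂ)⁻¹ * c, ?_⟩
      rw [avg_rec h Iw_le le_rfl (m := m) (N := N) (by omega)] at hc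
      calc avg ρ (Iw F) (Kn F N) (ρ (D.al ^ (m + 1)) y)
          = (D.T.card : ℂ)⁻¹ •
            ((D.T.card : ℂ) • avg ρ (Iw F) (Kn F N) (ρ (D.al ^ (m + 1)) y)) := by
            rw [smul_smul, inv_mul_cancel₀ (card_ne D), one_smul]
        _ = _ := by rw [hc, smul_smul]
    · refine ⟨(D.T.card : ℂ)⁻¹ * d, ?_⟩
      have h1 : ρ ws (ρ (D.al ^ m) y) =
          ∑ t ∈ D.T, ρ (up (D.ϖ ^ (m + 1) * t)) (ρ ws (ρ (D.al ^ (m + 1)) y)) := by
        conv_lhs => rw [rec_ym h m, map_sum]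
        refine Finset.sum_congr rfl fun t _ => ?_
        rw [← act_mul, ws_lo, act_mul]
      rw [h1, map_sum, Finset.sum_congr rfl (fun t ht => avg_right Iw_le
        (kym_fix h (m := m + 1) (N := N) hN ws_mem)
        (up_mem_Iw (v_lo_lt D m ht).le)), Finset.sum_const, ← Nat.cast_smul_eq_nsmul ℂ] at hd
      calc avg ρ (Iw F) (Kn F N) (ρ ws (ρ (D.al ^ (m + 1)) y))
          = (D.T.card : ℂ)⁻¹ •
            ((D.T.card : ℂ) • avg ρ (Iw F) (Kn F N) (ρ ws (ρ (D.al ^ (m + 1)) y))) := by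
            rw [smul_smul, inv_mul_cancel₀ (card_ne D), one_smul]
        _ = _ := by rw [hd, smul_smul]

theorem avgI_all (h : IsSt D ρ y) (hquo : S_quo) {m N : ℕ} (hN : m + 1 ≤ N)
    {k : GL (Fin 2) F} (hk : k ∈ maxK F) :
    ∃ c : ℂ, avg ρ (Iw F) (Kn F N) (ρ k (ρ (D.al ^ m) y)) = c • y := by
  have hf := hquo F D N (Iw F) Iw_le
  by_cases hI : k ∈ Iw F
  · rw [avg_right Iw_le (ym_fix' h hN) hI]
    exact (avgI h hquo m N hN).1
  · rw [avgI_notIw h hN hk hI]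
    exact (avgI h hquo m N hN).2

theorem part2 (hdec : S_dec) (hquo : S_quo) (h : IsSt D ρ y) (S : Set (V →ₗ[ℂ] V))
    (hS : ∀ A ∈ S, ∀ g v, A (ρ g v) = ρ g (A v)) :
    ∀ x ∈ bigSpan ρ S y, (∀ k ∈ Iw F, ρ k x = x) →
      x ∈ Submodule.span ℂ {v | ∃ A ∈ S, v = A y} := by
  intro x hx hfix
  have key : ∃ N0 : ℕ, ∀ N, N0 ≤ N →
      avg ρ (Iw F) (Kn F N) x ∈ Submodule.span ℂ {v | ∃ A ∈ S, v = A y} := by
    clear hfix
    induction hx using Submodule.span_induction with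
    | mem x hx =>
      obtain ⟨A, hA, g, rfl⟩ := hx
      obtain ⟨k, hk, m, hg⟩ := act_dec hdec h g
      refine ⟨m + 1, fun N hN => ?_⟩
      have hf := hquo F D N (Iw F) Iw_le
      rw [avg_comm (hS A hA)]
      obtain ⟨c, hc⟩ := avgI_all h hquo hN hk
      have hAy : A y ∈ Submodule.span ℂ {v | ∃ A ∈ S, v = A y} :=
        Submodule.subset_span ⟨A, hA, rfl⟩
      rcases hg with hg | hg
      · rw [hg, hc, map_smul]
        exact Submodule.smul_mem _ _ hAy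
      · rw [hg, map_neg, hc, map_neg, map_smul]
        exact Submodule.neg_mem _ (Submodule.smul_mem _ _ hAy)
    | zero => exact ⟨0, fun N _ => by rw [map_zero]; exact Submodule.zero_mem _⟩
    | add x x' _ _ ih ih' =>
      obtain ⟨n, hn⟩ := ih
      obtain ⟨n', hn'⟩ := ih'
      refine ⟨max n n', fun N hN => ?_⟩
      rw [map_add]
      exact Submodule.add_mem _ (hn N ((le_max_left _ _).trans hN))
        (hn' N ((le_max_right _ _).trans hN))
    | smul c x _ ih =>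
      obtain ⟨n, hn⟩ := ih
      exact ⟨n, fun N hN => by rw [map_smul]; exact Submodule.smul_mem _ _ (hn N hN)⟩
  obtain ⟨N0, hN0⟩ := key
  have hf := hquo F D N0 (Iw F) Iw_le
  have := hN0 N0 le_rfl
  rwa [avg_fix hfix] at this

end Local

/-- Parts (1), (2) and (4) of `S_C`. -/
theorem main (hdec : S_dec) (hquo : S_quo) : ∀ (F : Type) [Field F] [Valued F ℤᵐ⁰] (D : LD F)
    (V : Type) [AddCommGroup V] [Module ℂ V] (ρ : Representation ℂ (GL (Fin 2) F) V) (y : V),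
    IsSt D ρ y → ∀ S : Set (V →ₗ[ℂ] V), (∀ A ∈ S, ∀ g v, A (ρ g v) = ρ g (A v)) →
      (∀ x ∈ bigSpan ρ S y, (∀ k ∈ maxK F, ρ k x = x) → x = 0) ∧
      (∀ x ∈ bigSpan ρ S y, (∀ k ∈ Iw F, ρ k x = x) →
        x ∈ Submodule.span ℂ {v | ∃ A ∈ S, v = A y}) ∧
      (∀ x ∈ bigSpan ρ S y, ∃ n : ℕ, ∀ k ∈ Kn F n, ρ k x = x) := by
  intro F _ _ D V _ _ ρ y h S hS
  exact ⟨part1 hdec hquo h S hS, part2 hdec hquo h S hS, smooth hdec h S hS⟩

end Pool.Agent.W565.LLC12
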