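import Pool.Agent.W823.CT.Stm

/-! Part CT-RET of the project CT (owner helper823). -/

set_option autoImplicit false

open scoped BigOperators

namespace Pool.Agent.W565.CTRET

open Pool.Agent.W823.CT

variable {V Ω : Type} [Fintype V] [Fintype Ω] [DecidableEq V]

/-- step for functions of the state and of the number of visits of `o` -/
noncomputable def step (C : BC V Ω) (o : V) (F : V × Ω → ℕ → ℝ) : V × Ω → ℕ → ℝ :=
  fun s n => ∑ s', C.K s s' * F s' (n + if s.1 = o then 1 else 0)

theorem lstep_eq (C : BC V Ω) (o : V) (F : V × Ω → ℕ → ℝ) :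
    C.lstep (fun s l => F s (l o)) = fun s l => step C o F s (l o) := by
  funext s l
  simp only [BC.lstep, step]
  refine Finset.sum_congr rfl fun s' _ => ?_
  congr 2
  simp only [Pi.add_apply, Pi.single_apply]
  congr 1
  by_cases h : s.1 = o
  · simp [h]
  · have h' : ¬ o = s.1 := fun e => h e.symm
    simp [h, h']

theorem lstep_iter (C : BC V Ω) (o : V) (F : V × Ω → ℕ → ℝ) (T : ℕ) :
    C.lstep^[T] (fun s l => F s (l o)) = fun s l => ((step C o)^[T] F) s (l o) := by
  induction T with
  | zero => rfl
  | succ T ih =>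
    rw [Function.iterate_succ_apply', ih, lstep_eq C o ((step C o)^[T] F),
      Function.iterate_succ_apply']

theorem step_shift (C : BC V Ω) (o : V) (F : V × Ω → ℕ → ℝ) (n T : ℕ) :
    (step C o)^[T] (fun s m => F s (n + m)) = fun s m => ((step C o)^[T] F) s (n + m) := by
  induction T with
  | zero => rfl
  | succ T ih =>
    rw [Function.iterate_succ_apply', ih, Function.iterate_succ_apply']
    funext s m
    simp only [step]
    refine Finset.sum_congr rfl fun s' _ => ?_
    rw [add_assoc]

theorem step_add (C : BC V Ω) (o : V) (F G : V × Ω → ℕ → ℝ) (T : ℕ) :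
    (step C o)^[T] (fun s m => F s m + G s m) =
      fun s m => ((step C o)^[T] F) s m + ((step C o)^[T] G) s m := by
  induction T with
  | zero => rfl
  | succ T ih =>
    rw [Function.iterate_succ_apply', ih, Function.iterate_succ_apply',
      Function.iterate_succ_apply']
    funext s m
    simp only [step, mul_add, Finset.sum_add_distrib]

theorem step_mono (C : BC V Ω) (o : V) {F G : V × Ω → ℕ → ℝ} (h : ∀ s m, F s m ≤ G s m) (T : ℕ) :
    ∀ s m, ((step C o)^[T] F) s m ≤ ((step C o)^[T] G) s m := by
  induction T with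
  | zero => exact h
  | succ T ih =>
    rw [Function.iterate_succ_apply', Function.iterate_succ_apply']
    intro s m
    exact Finset.sum_le_sum fun s' _ => mul_le_mul_of_nonneg_left (ih _ _) (C.K_nonneg _ _)

theorem step_const (C : BC V Ω) (o : V) (c : ℝ) (T : ℕ) :
    (step C o)^[T] (fun _ _ => c) = fun _ _ => c := by
  induction T with
  | zero => rfl
  | succ T ih =>
    rw [Function.iterate_succ_apply', ih]
    funext s m
    simp only [step, ← Finset.sum_mul, C.K_sum, one_mul]

theorem main : S_RET := by
  intro V Ω _ _ _ C o i T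
  let Ind : V × Ω → ℕ → ℝ := fun _ n => if n ≤ i then 1 else 0
  let G : V × Ω → ℕ → ℝ := fun _ n => ((min n i : ℕ) : ℝ)
  let a : ℕ → V × Ω → ℝ := fun T s => ((step C o)^[T] Ind) s 0
  let c : ℕ → V × Ω → ℝ := fun T s => ((step C o)^[T] G) s 0
  have hgoal : ∀ T, C.blk (fun s => (C.lstep^[T] (fun _ l => if l o ≤ i then 1 else 0)) s 0) o =
      C.blk (a T) o := by
    intro T
    have := lstep_iter C o Ind T
    simp only [Ind] at this
    rw [this]
    rfl
  rw [hgoal]
  have hP : ∀ f : V × Ω → ℝ, ∑ s, C.ν s.2 * C.P f s = ∑ s, C.ν s.2 * f s := by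
    intro f
    simp only [BC.P, Finset.mul_sum]
    rw [Finset.sum_comm]
    refine Finset.sum_congr rfl fun s' _ => ?_
    have : ∀ s : V × Ω, C.ν s.2 * (C.K s s' * f s') = C.ν s'.2 * f s' * C.K s' s := by
      intro s
      rw [← mul_assoc, C.K_symm]
      ring
    simp only [this]
    rw [← Finset.mul_sum, C.K_sum, mul_one]
  have hrec : ∀ T s, c (T + 1) s = C.P (c T) s + if s.1 = o then a (T + 1) s else 0 := by
    intro T s
    simp only [c, a]
    rw [Function.iterate_succ_apply', Function.iterate_succ_apply']
    by_cases h : s.1 = o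
    · simp only [step, h, if_true, BC.P, zero_add]
      rw [← Finset.sum_add_distrib]
      refine Finset.sum_congr rfl fun s' _ => ?_
      rw [← mul_add]
      congr 1
      have e1 := congrFun (congrFun (step_shift C o G 1 T) s') 0
      have e2 := congrFun (congrFun (step_shift C o Ind 1 T) s') 0
      have e1' : ((step C o)^[T] G) s' 1 = ((step C o)^[T] fun s m => G s (1 + m)) s' 0 := by
        rw [e1]
      have e2' : ((step C o)^[T] Ind) s' 1 = ((step C o)^[T] fun s m => Ind s (1 + m)) s' 0 := by
        rw [e2]
      rw [e1', e2']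
      have e3 := congrFun (congrFun (step_add C o G (fun s m => Ind s (1 + m)) T) s') 0
      rw [← e3]
      refine congrArg (fun H => ((step C o)^[T] H) s' 0) ?_
      funext _ m
      simp only [G, Ind]
      by_cases hm : 1 + m ≤ i
      · rw [if_pos hm, min_eq_left hm, min_eq_left (by omega : m ≤ i)]
        push_cast; ring
      · rw [if_neg hm, add_zero, min_eq_right (by omega : i ≤ 1 + m),
          min_eq_right (by omega : i ≤ m)]
    · simp only [step, h, if_false, BC.P, add_zero]
  have hsum : ∀ T, ∑ s, C.ν s.2 * c (T + 1) s = ∑ s, C.ν s.2 * c T s + C.blk (a (T + 1)) o := by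
    intro T
    simp only [hrec, mul_add, Finset.sum_add_distrib, hP]
    congr 1
    rw [Fintype.sum_prod_type]
    simp only [BC.blk]
    rw [Finset.sum_eq_single o]
    · simp
    · intro x _ hx
      simp [hx]
    · intro h; exact absurd (Finset.mem_univ _) h
  have hdec : ∀ T s, a (T + 1) s ≤ a T s := by
    intro T s
    simp only [a]
    rw [Function.iterate_succ_apply]
    refine step_mono C o (fun s m => ?_) T s 0
    simp only [step, Ind, ← Finset.sum_mul, C.K_sum, one_mul]
    by_cases h : s.1 = o
    · simp only [h, if_true]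
      by_cases h1 : m + 1 ≤ i
      · rw [if_pos h1, if_pos (by omega)]
      · rw [if_neg h1]
        split_ifs <;> norm_num
    · simp only [h, if_false, add_zero, le_refl]
  have hblk : ∀ T, C.blk (a (T + 1)) o ≤ C.blk (a T) o := fun T =>
    Finset.sum_le_sum fun ω _ => mul_le_mul_of_nonneg_left (hdec T _) (C.ν_pos _).le
  have hmain : ∀ T : ℕ, (T : ℝ) * C.blk (a T) o ≤ ∑ s, C.ν s.2 * c T s := by
    intro T
    induction T with
    | zero =>
      simp [c, G]
    | succ T ih =>
      rw [hsum]
      push_cast
      have := mul_le_mul_of_nonneg_left (hblk T) (Nat.cast_nonneg (α := ℝ) T)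
      linarith
  refine (hmain T).trans ?_
  have hc : ∀ s, c T s ≤ i := by
    intro s
    have h1 := step_mono C o (F := G) (G := fun _ _ => (i : ℝ)) (fun s m => by
      simp only [G]
      exact_mod_cast min_le_right m i) T s 0
    rw [step_const] at h1
    exact h1
  calc ∑ s, C.ν s.2 * c T s ≤ ∑ s : V × Ω, C.ν s.2 * i :=
        Finset.sum_le_sum fun s _ => mul_le_mul_of_nonneg_left (hc s) (C.ν_pos _).le
    _ = (i : ℝ) * Fintype.card V := by
        rw [← Finset.sum_mul, Fintype.sum_prod_type]
        simp [C.ν_sum, mul_comm]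

end Pool.Agent.W565.CTRET
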