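import Pool.Agent.W823.CT.Stm

/-! Part CT-UNION of the project CT (owner helper823). -/

set_option autoImplicit false

open scoped BigOperators

namespace Pool.Agent.W565.CTUNION

open Pool.Agent.W823.CT

theorem sum_inv_sq (M : ℕ) : ∑ i ∈ Finset.Icc 1 (M + 1), ((i : ℝ) ^ 2)⁻¹ ≤ 2 - ((M : ℝ) + 1)⁻¹ := by
  induction M with
  | zero => norm_num
  | succ M ih =>
    rw [Finset.sum_Icc_succ_top (by omega)]
    have hp : (0 : ℝ) < (M : ℝ) + 1 := by positivity
    have h2 : (((M : ℝ) + 1 + 1) ^ 2)⁻¹ ≤ ((M : ℝ) + 1)⁻¹ - ((M : ℝ) + 1 + 1)⁻¹ := by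
      rw [inv_eq_one_div, inv_eq_one_div, inv_eq_one_div, div_sub_div _ _ (by positivity)
        (by positivity), div_le_div_iff₀ (by positivity) (by positivity)]
      nlinarith
    push_cast at *
    linarith

theorem sum_sq (M : ℕ) : ∑ i ∈ Finset.Icc 1 M, Real.exp (-(9 * (Real.log i + 1))) ≤
    2 * Real.exp (-9) := by
  have h1 : ∑ i ∈ Finset.Icc 1 M, ((i : ℝ) ^ 2)⁻¹ ≤ 2 := by
    rcases Nat.eq_zero_or_pos M with h0 | h0
    · subst h0; norm_num
    · obtain ⟨N, rfl⟩ : ∃ N, M = N + 1 := ⟨M - 1, by omega⟩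
      have := sum_inv_sq N
      have hp : (0 : ℝ) < ((N : ℝ) + 1)⁻¹ := by positivity
      linarith
  calc ∑ i ∈ Finset.Icc 1 M, Real.exp (-(9 * (Real.log i + 1)))
      ≤ ∑ i ∈ Finset.Icc 1 M, ((i : ℝ) ^ 2)⁻¹ * Real.exp (-9) := by
        refine Finset.sum_le_sum fun i hi => ?_
        rw [Finset.mem_Icc] at hi
        have hi1 : (1 : ℝ) ≤ i := by exact_mod_cast hi.1
        have hi0 : (0 : ℝ) < i := by linarith
        have hl : 0 ≤ Real.log i := Real.log_nonneg hi1
        have e1 : ((i : ℝ) ^ 2)⁻¹ = Real.exp (-(2 * Real.log i)) := by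
          rw [Real.exp_neg, two_mul, Real.exp_add, Real.exp_log hi0]
          ring
        rw [e1, ← Real.exp_add]
        apply Real.exp_le_exp.mpr
        linarith
    _ = (∑ i ∈ Finset.Icc 1 M, ((i : ℝ) ^ 2)⁻¹) * Real.exp (-9) := by rw [Finset.sum_mul]
    _ ≤ 2 * Real.exp (-9) := mul_le_mul_of_nonneg_right h1 (Real.exp_pos _).le

theorem exp_neg_nine : Real.exp (-9) ≤ 1 / 8000 := by
  rw [Real.exp_neg, inv_eq_one_div]
  apply one_div_le_one_div_of_le (by norm_num)
  have h1 : Real.exp 9 = Real.exp 1 ^ 9 := by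
    rw [← Real.exp_nat_mul]; norm_num
  rw [h1]
  have h2 : (2.718 : ℝ) ≤ Real.exp 1 := by
    have := Real.exp_one_gt_d9
    linarith
  calc (8000 : ℝ) ≤ 2.718 ^ 9 := by norm_num
    _ ≤ Real.exp 1 ^ 9 := pow_le_pow_left₀ (by norm_num) h2 9

theorem main : S_UNION := by
  classical
  intro V _ _ d S t o hd0 hd1 hT ht hS
  obtain ⟨m, lab, D, hlab, hD, hcell, hsep, hcost⟩ := hT
  have : Nonempty V := ⟨o⟩
  -- cells and representatives
  let c : (k : ℕ) → V → (Fin k → ℕ) := fun k x j => lab j x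
  let rep : ℕ → V → V := fun k x => if k = 0 then o else Function.invFun (c k) (c k x)
  have hR1 : ∀ k x, ∀ j < k, lab j (rep k x) = lab j x := by
    intro k x j hj
    have hk : k ≠ 0 := by omega
    have h1 : c k (Function.invFun (c k) (c k x)) = c k x := Function.invFun_eq ⟨x, rfl⟩
    have h2 := congrFun h1 ⟨j, hj⟩
    simp only [rep, hk, if_false]
    exact h2
  have hR2 : ∀ k x y, (∀ j < k, lab j x = lab j y) → rep k x = rep k y := by
    intro k x y h
    simp only [rep]
    have : c k x = c k y := by funext j; exact h j j.2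
    rw [this]
  let w : ℕ → V → ℝ := fun k x => ∑ j ∈ Finset.range (k + 1), (Real.log (lab j x) + 1)
  have hlog : ∀ j x, 0 ≤ Real.log (lab j x) := fun j x =>
    Real.log_nonneg (by exact_mod_cast hlab j x)
  have hw : ∀ k x, 1 ≤ w k x := by
    intro k x
    calc (1 : ℝ) ≤ Real.log (lab 0 x) + 1 := by linarith [hlog 0 x]
      _ ≤ w k x := Finset.single_le_sum (f := fun j => Real.log (lab j x) + 1)
          (fun j _ => by linarith [hlog j x]) (Finset.mem_range.mpr (Nat.succ_pos k))
  let δ : ℕ → V → ℝ := fun k x => 3 * D k * √(w k x)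
  have hδ : ∀ k x, 0 < δ k x := by
    intro k x
    have := hD k
    have h2 : 0 < √(w k x) := Real.sqrt_pos.mpr (by linarith [hw k x])
    positivity
  let β : ℕ → V → ℝ := fun k x => √t - ∑ j ∈ Finset.range k, δ j x
  have hδsum : ∀ k ≤ m, ∀ x, ∑ j ∈ Finset.range k, δ j x ≤ √t / 2 := by
    intro k hk x
    calc ∑ j ∈ Finset.range k, δ j x ≤ ∑ j ∈ Finset.range m, δ j x :=
          Finset.sum_le_sum_of_subset_of_nonneg (Finset.range_mono hk) fun j _ _ => (hδ j x).le
      _ = 3 * ∑ j ∈ Finset.range m, D j * √(w j x) := by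
          rw [Finset.mul_sum]
          refine Finset.sum_congr rfl fun j _ => ?_
          simp only [δ]; ring
      _ ≤ 3 * S := by
          have := hcost x
          have h3 : (3 : ℝ) * ∑ j ∈ Finset.range m, D j * √(w j x) ≤ 3 * S := by
            linarith
          exact h3
      _ ≤ √t / 2 := by linarith
  have hst : 0 < √t := Real.sqrt_pos.mpr ht
  have hβpos : ∀ k ≤ m, ∀ x, 0 < β k x := by
    intro k hk x
    have := hδsum k hk x
    simp only [β]
    linarith
  have hβsucc : ∀ k x, β (k + 1) x = β k x - δ k x := by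
    intro k x
    simp only [β, Finset.sum_range_succ]
    ring
  have hβcell : ∀ k x y, (∀ j < k, lab j x = lab j y) → β k x = β k y := by
    intro k x y h
    simp only [β, δ, w]
    congr 1
    refine Finset.sum_congr rfl fun j hj => ?_
    rw [Finset.mem_range] at hj
    congr 2
    refine Finset.sum_congr rfl fun i hi => ?_
    rw [Finset.mem_range] at hi
    rw [h i (by omega)]
  have hβle : ∀ k ≤ m, ∀ x, β k x ≤ √t := by
    intro k _ x
    have : 0 ≤ ∑ j ∈ Finset.range k, δ j x := Finset.sum_nonneg fun j _ => (hδ j x).le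
    simp only [β]; linarith
  -- the links
  let I : Finset (ℕ × V) := (Finset.range m ×ˢ Finset.univ).filter fun q =>
    rep (q.1 + 1) q.2 = q.2 ∧ rep q.1 q.2 ≠ q.2 ∧ q.2 ≠ o
  have hI : ∀ q ∈ I, q.1 < m ∧ rep (q.1 + 1) q.2 = q.2 ∧ rep q.1 q.2 ≠ q.2 ∧ q.2 ≠ o := by
    intro q hq
    rw [Finset.mem_filter, Finset.mem_product, Finset.mem_range] at hq
    exact ⟨hq.1.1, hq.2⟩
  -- the bound of the sum
  have hbound : ∑ q ∈ I, Real.exp (-((β q.1 q.2 - β (q.1 + 1) q.2) ^ 2 /
      d (rep q.1 q.2) q.2 ^ 2)) ≤ 1 / 1000 := by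
    have h1 : ∀ q ∈ I, Real.exp (-((β q.1 q.2 - β (q.1 + 1) q.2) ^ 2 /
        d (rep q.1 q.2) q.2 ^ 2)) ≤
        ∏ j : Fin (q.1 + 1), Real.exp (-(9 * (Real.log (lab j q.2) + 1))) := by
      intro q hq
      obtain ⟨hq1, hq2, hq3, hq4⟩ := hI q hq
      rw [← Real.exp_sum]
      apply Real.exp_le_exp.mpr
      rw [Finset.sum_neg_distrib, ← Finset.mul_sum, neg_le_neg_iff]
      have e1 : ∑ j : Fin (q.1 + 1), (Real.log (lab j q.2) + 1) = w q.1 q.2 :=
        Fin.sum_univ_eq_sum_range (fun j => Real.log (lab j q.2) + 1) (q.1 + 1)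
      rw [e1]
      have e2 : β q.1 q.2 - β (q.1 + 1) q.2 = δ q.1 q.2 := by rw [hβsucc]; ring
      rw [e2]
      have hdp : 0 < d (rep q.1 q.2) q.2 := hd1 _ _ hq3
      have hdD : d (rep q.1 q.2) q.2 ≤ D q.1 := hcell _ _ _ (hR1 q.1 q.2)
      rw [le_div_iff₀ (by positivity)]
      have hw0 : 0 ≤ w q.1 q.2 := by linarith [hw q.1 q.2]
      have e3 : δ q.1 q.2 ^ 2 = 9 * w q.1 q.2 * D q.1 ^ 2 := by
        simp only [δ]
        rw [mul_pow, Real.sq_sqrt hw0]; ring
      rw [e3]
      exact mul_le_mul_of_nonneg_left (pow_le_pow_left₀ hdp.le hdD 2) (by positivity)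
    have h2 : ∀ k, ∑ y ∈ Finset.univ.filter (fun y => rep (k + 1) y = y),
        ∏ j : Fin (k + 1), Real.exp (-(9 * (Real.log (lab j y) + 1))) ≤
        (2 * Real.exp (-9)) ^ (k + 1) := by
      intro k
      let M : ℕ := Finset.univ.sup fun y : V => (Finset.univ : Finset (Fin (k + 1))).sup fun j => lab j y
      have hM : ∀ (y : V) (j : Fin (k + 1)), lab j y ≤ M := by
        intro y j
        calc lab j y ≤ (Finset.univ : Finset (Fin (k + 1))).sup fun j => lab j y :=
              Finset.le_sup (f := fun j : Fin (k + 1) => lab j y) (Finset.mem_univ j)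
          _ ≤ M := Finset.le_sup (f := fun y : V =>
              (Finset.univ : Finset (Fin (k + 1))).sup fun j => lab j y) (Finset.mem_univ y)
      calc ∑ y ∈ Finset.univ.filter (fun y => rep (k + 1) y = y),
            ∏ j : Fin (k + 1), Real.exp (-(9 * (Real.log (lab j y) + 1)))
          = ∑ p ∈ (Finset.univ.filter (fun y => rep (k + 1) y = y)).image (c (k + 1)),
            ∏ j : Fin (k + 1), Real.exp (-(9 * (Real.log (p j) + 1))) := by
            rw [Finset.sum_image]
            intro y hy y' hy' hyy'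
            have a1 : rep (k + 1) y = y := (Finset.mem_filter.mp hy).2
            have a2 : rep (k + 1) y' = y' := (Finset.mem_filter.mp hy').2
            rw [← a1, ← a2]
            apply hR2
            intro j hj
            exact congrFun hyy' ⟨j, hj⟩
        _ ≤ ∑ p ∈ Fintype.piFinset (fun _ : Fin (k + 1) => Finset.Icc 1 M),
            ∏ j : Fin (k + 1), Real.exp (-(9 * (Real.log (p j) + 1))) := by
            refine Finset.sum_le_sum_of_subset_of_nonneg ?_ fun p _ _ =>
              Finset.prod_nonneg fun j _ => (Real.exp_pos _).le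
            intro p hp
            obtain ⟨y, _, rfl⟩ := Finset.mem_image.mp hp
            rw [Fintype.mem_piFinset]
            intro j
            rw [Finset.mem_Icc]
            exact ⟨hlab _ _, hM y j⟩
        _ = ∏ _j : Fin (k + 1), ∑ i ∈ Finset.Icc 1 M, Real.exp (-(9 * (Real.log i + 1))) := by
            rw [Finset.prod_univ_sum]
        _ ≤ ∏ _j : Fin (k + 1), (2 * Real.exp (-9)) :=
            Finset.prod_le_prod (fun _ _ => Finset.sum_nonneg fun _ _ => (Real.exp_pos _).le)
              fun _ _ => sum_sq M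
        _ = (2 * Real.exp (-9)) ^ (k + 1) := by simp
    have hr0 : 0 ≤ 2 * Real.exp (-9) := by positivity
    have hr1 : 2 * Real.exp (-9) ≤ 1 / 4000 := by linarith [exp_neg_nine]
    calc ∑ q ∈ I, Real.exp (-((β q.1 q.2 - β (q.1 + 1) q.2) ^ 2 / d (rep q.1 q.2) q.2 ^ 2))
        ≤ ∑ q ∈ I, ∏ j : Fin (q.1 + 1), Real.exp (-(9 * (Real.log (lab j q.2) + 1))) :=
          Finset.sum_le_sum h1
      _ ≤ ∑ q ∈ (Finset.range m ×ˢ Finset.univ).filter (fun q : ℕ × V => rep (q.1 + 1) q.2 = q.2),
            ∏ j : Fin (q.1 + 1), Real.exp (-(9 * (Real.log (lab j q.2) + 1))) := by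
          refine Finset.sum_le_sum_of_subset_of_nonneg ?_ fun p _ _ =>
              Finset.prod_nonneg fun j _ => (Real.exp_pos _).le
          intro q hq
          rw [Finset.mem_filter] at hq ⊢
          exact ⟨hq.1, hq.2.1⟩
      _ = ∑ k ∈ Finset.range m, ∑ y ∈ Finset.univ.filter (fun y => rep (k + 1) y = y),
            ∏ j : Fin (k + 1), Real.exp (-(9 * (Real.log (lab j y) + 1))) := by
          rw [Finset.sum_filter, Finset.sum_product]
          refine Finset.sum_congr rfl fun k _ => ?_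
          rw [Finset.sum_filter]
      _ ≤ ∑ k ∈ Finset.range m, (2 * Real.exp (-9)) ^ (k + 1) := Finset.sum_le_sum fun k _ => h2 k
      _ ≤ ∑ k ∈ Finset.range m, (1 / 4000 : ℝ) * (1 / 2) ^ k := by
          refine Finset.sum_le_sum fun k _ => ?_
          rw [pow_succ, mul_comm]
          refine mul_le_mul hr1 (pow_le_pow_left₀ hr0 (by linarith) k) (by positivity) (by norm_num)
      _ ≤ (1 / 4000 : ℝ) * 2 := by
          rw [← Finset.mul_sum]
          apply mul_le_mul_of_nonneg_left _ (by norm_num)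
          rw [geom_sum_eq (by norm_num)]
          have : (0 : ℝ) ≤ (1 / 2) ^ m := by positivity
          have h3 : ((1 / 2 : ℝ) ^ m - 1) / (1 / 2 - 1) = 2 - 2 * (1 / 2) ^ m := by
            field_simp; ring
          rw [h3]; linarith
      _ ≤ 1 / 1000 := by norm_num
  -- enumeration
  let e : Fin I.card ≃ I := I.equivFin.symm
  refine ⟨I.card, fun i => rep (e i).1.1 (e i).1.2, fun i => (e i).1.2,
    fun i => β (e i).1.1 (e i).1.2, fun i => β ((e i).1.1 + 1) (e i).1.2,
    fun i => (hI _ (e i).2).2.2.1, fun i => (hI _ (e i).2).2.2.2, fun i => ?_, ?_, ?_⟩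
  · obtain ⟨hq1, _⟩ := hI _ (e i).2
    refine ⟨hβpos _ (by omega) _, ?_⟩
    have h1 := hβsucc (e i).1.1 (e i).1.2
    have h2 := hδ (e i).1.1 (e i).1.2
    show β ((e i).1.1 + 1) (e i).1.2 < β (e i).1.1 (e i).1.2
    linarith
  · rw [e.sum_comp (fun q : I => Real.exp (-((β q.1.1 q.1.2 - β (q.1.1 + 1) q.1.2) ^ 2 /
      d (rep q.1.1 q.1.2) q.1.2 ^ 2)))]
    rw [Finset.sum_coe_sort I (fun q => Real.exp (-((β q.1 q.2 - β (q.1 + 1) q.2) ^ 2 /
      d (rep q.1 q.2) q.2 ^ 2)))]
    exact hbound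
  · intro l hlo ⟨z, hz⟩
    -- least level where the property fails
    have hex : ∃ k < m, β k z ^ 2 ≤ (l (rep k z) : ℝ) ∧
        (l (rep (k + 1) z) : ℝ) < β (k + 1) z ^ 2 := by
      by_contra hcon
      push Not at hcon
      have hall : ∀ k ≤ m, β k z ^ 2 ≤ (l (rep k z) : ℝ) := by
        intro k
        induction k with
        | zero =>
          intro _
          have e1 : β 0 z = √t := by simp [β]
          have e2 : rep 0 z = o := by simp [rep]
          rw [e1, e2, Real.sq_sqrt ht.le]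
          exact hlo
        | succ k ih =>
          intro hk
          exact hcon k (by omega) (ih (by omega))
      have h1 := hall m le_rfl
      have h2 : rep m z = z := hsep _ _ (hR1 m z)
      rw [h2, hz] at h1
      have h3 := hβpos m le_rfl z
      have h4 : 0 < β m z ^ 2 := by positivity
      simp at h1
      linarith
    obtain ⟨k, hk, hk1, hk2⟩ := hex
    have hsim : ∀ j < k + 1, lab j (rep (k + 1) z) = lab j z := hR1 (k + 1) z
    have hrep : rep k (rep (k + 1) z) = rep k z := hR2 _ _ _ fun j hj => hsim j (by omega)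
    have hrep' : rep (k + 1) (rep (k + 1) z) = rep (k + 1) z := hR2 _ _ _ hsim
    have hb1 : β k (rep (k + 1) z) = β k z := hβcell _ _ _ fun j hj => hsim j (by omega)
    have hb2 : β (k + 1) (rep (k + 1) z) = β (k + 1) z := hβcell _ _ _ hsim
    have hlt : β (k + 1) z < β k z := by rw [hβsucc]; linarith [hδ k z]
    have hp := hβpos (k + 1) (by omega) z
    have hne : rep k (rep (k + 1) z) ≠ rep (k + 1) z := by
      intro heq
      rw [hrep] at heq
      rw [heq] at hk1
      have : β (k + 1) z ^ 2 < β k z ^ 2 := pow_lt_pow_left₀ hlt hp.le (by norm_num)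
      linarith
    have hno : rep (k + 1) z ≠ o := by
      intro heq
      rw [heq] at hk2
      have h1 : β (k + 1) z ^ 2 ≤ t := by
        calc β (k + 1) z ^ 2 ≤ √t ^ 2 := pow_le_pow_left₀ hp.le (hβle (k + 1) (by omega) z) 2
          _ = t := Real.sq_sqrt ht.le
      linarith
    have hmem : (k, rep (k + 1) z) ∈ I := by
      rw [Finset.mem_filter, Finset.mem_product, Finset.mem_range]
      exact ⟨⟨hk, Finset.mem_univ _⟩, hrep', hne, hno⟩
    refine ⟨e.symm ⟨(k, rep (k + 1) z), hmem⟩, ?_⟩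
    simp only [Equiv.apply_symm_apply]
    rw [hrep, hb1, hb2]
    exact ⟨hk1, hk2.le⟩

end Pool.Agent.W565.CTUNION
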