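import Pool.Agent.W823.CT.Stm

/-! Part CT-WORST of the project CT (owner helper823). -/

set_option autoImplicit false

open scoped BigOperators ENNReal

namespace Pool.Agent.W565.CTWORST

open Pool.Agent.W823.CT

variable {V Ω : Type} [Fintype V] [Fintype Ω] [DecidableEq V]

theorem cstep_mono_on (C : BC V Ω) {F G : V × Ω → Finset V → ℝ}
    (h : ∀ s A, s.1 ∈ A → F s A ≤ G s A) (N : ℕ) :
    ∀ s A, s.1 ∈ A → (C.cstep^[N] F) s A ≤ (C.cstep^[N] G) s A := by
  induction N with
  | zero => exact h
  | succ N ih =>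
    rw [Function.iterate_succ_apply', Function.iterate_succ_apply']
    intro s A _
    exact Finset.sum_le_sum fun s' _ =>
      mul_le_mul_of_nonneg_left (ih _ _ (Finset.mem_insert_self _ _)) (C.K_nonneg _ _)

theorem cstep_mono (C : BC V Ω) {F G : V × Ω → Finset V → ℝ}
    (h : ∀ s A, F s A ≤ G s A) (N : ℕ) :
    ∀ s A, (C.cstep^[N] F) s A ≤ (C.cstep^[N] G) s A := by
  induction N with
  | zero => exact h
  | succ N ih =>
    rw [Function.iterate_succ_apply', Function.iterate_succ_apply']
    intro s A
    exact Finset.sum_le_sum fun s' _ => mul_le_mul_of_nonneg_left (ih _ _) (C.K_nonneg _ _)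

theorem cstep_const (C : BC V Ω) (c : ℝ) (N : ℕ) :
    C.cstep^[N] (fun _ _ => c) = fun _ _ => c := by
  induction N with
  | zero => rfl
  | succ N ih =>
    rw [Function.iterate_succ_apply', ih]
    funext s A
    simp only [BC.cstep, ← Finset.sum_mul, C.K_sum, one_mul]

theorem cstep_smul (C : BC V Ω) (c : ℝ) (F : V × Ω → Finset V → ℝ) (N : ℕ) :
    C.cstep^[N] (fun s A => c * F s A) = fun s A => c * (C.cstep^[N] F) s A := by
  induction N with
  | zero => rfl
  | succ N ih =>
    rw [Function.iterate_succ_apply', ih, Function.iterate_succ_apply']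
    funext s A
    simp only [BC.cstep, Finset.mul_sum]
    refine Finset.sum_congr rfl fun s' _ => ?_
    ring

theorem nc_nonneg (A : Finset V) : 0 ≤ nc A := by
  unfold nc; split_ifs <;> norm_num

theorem nc_le_one (A : Finset V) : nc A ≤ 1 := by
  unfold nc; split_ifs <;> norm_num

theorem nc_anti {A B : Finset V} (h : A ⊆ B) : nc B ≤ nc A := by
  unfold nc
  by_cases hA : A = Finset.univ
  · have hB : B = Finset.univ := Finset.univ_subset_iff.mp (hA ▸ h)
    simp [hA, hB]
  · rw [if_neg hA]
    split_ifs <;> norm_num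

/-- the probability of not having covered -/
noncomputable def u (C : BC V Ω) (k : ℕ) (s : V × Ω) (A : Finset V) : ℝ :=
  (C.cstep^[k] (fun _ A => nc A)) s A

theorem u_succ (C : BC V Ω) (k : ℕ) (s : V × Ω) (A : Finset V) :
    u C (k + 1) s A = ∑ s', C.K s s' * u C k s' (insert s'.1 A) := by
  unfold u
  rw [Function.iterate_succ_apply']
  rfl

theorem u_nonneg (C : BC V Ω) (k : ℕ) (s : V × Ω) (A : Finset V) : 0 ≤ u C k s A := by
  have := cstep_mono C (F := fun _ _ => (0 : ℝ)) (G := fun _ A => nc A)
    (fun _ A => nc_nonneg A) k s A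
  rw [cstep_const] at this
  exact this

theorem u_le_one (C : BC V Ω) (k : ℕ) (s : V × Ω) (A : Finset V) : u C k s A ≤ 1 := by
  have := cstep_mono C (G := fun _ _ => (1 : ℝ)) (F := fun _ A => nc A)
    (fun _ A => nc_le_one A) k s A
  rw [cstep_const] at this
  exact this

theorem u_anti (C : BC V Ω) (k : ℕ) : ∀ (s : V × Ω) {A B : Finset V}, A ⊆ B →
    u C k s B ≤ u C k s A := by
  induction k with
  | zero => intro s A B h; exact nc_anti h
  | succ k ih =>
    intro s A B h
    rw [u_succ, u_succ]
    exact Finset.sum_le_sum fun s' _ =>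
      mul_le_mul_of_nonneg_left (ih _ (Finset.insert_subset_insert _ h)) (C.K_nonneg _ _)

theorem u_dec (C : BC V Ω) (k : ℕ) (s : V × Ω) (A : Finset V) : u C (k + 1) s A ≤ u C k s A := by
  unfold u
  rw [Function.iterate_succ_apply]
  refine cstep_mono C (fun s A => ?_) k s A
  simp only [BC.cstep]
  calc ∑ s', C.K s s' * nc (insert s'.1 A) ≤ ∑ s', C.K s s' * nc A :=
        Finset.sum_le_sum fun s' _ =>
          mul_le_mul_of_nonneg_left (nc_anti (Finset.subset_insert _ _)) (C.K_nonneg _ _)
    _ = nc A := by rw [← Finset.sum_mul, C.K_sum, one_mul]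

theorem u_dec' (C : BC V Ω) (k l : ℕ) (s : V × Ω) (A : Finset V) :
    u C (k + l) s A ≤ u C k s A := by
  induction l with
  | zero => exact le_rfl
  | succ l ih => exact (u_dec C (k + l) s A).trans ih

theorem u_univ (C : BC V Ω) (k : ℕ) (s : V × Ω) : u C k s Finset.univ = 0 := by
  induction k generalizing s with
  | zero => simp [u, nc]
  | succ k ih =>
    rw [u_succ]
    refine Finset.sum_eq_zero fun s' _ => ?_
    rw [Finset.insert_eq_of_mem (Finset.mem_univ _), ih, mul_zero]

theorem main (h1 : S_HITN) : S_WORST := by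
  classical
  intro V Ω _ _ _ C γ m T s₁ j hγ0 hγ1 hm hpos hgap hmix hstat hms hj
  -- the bad set
  let B : V × Ω → Prop := fun s => 1 / 2 < u C T s {s.1}
  let g : ℕ → V × Ω → ℝ := fun i =>
    (fun (f : V × Ω → ℝ) (s : V × Ω) => if B s then C.P f s else 0)^[i]
      (fun s => if B s then 1 else 0)
  have hg_succ : ∀ i s, g (i + 1) s = if B s then C.P (g i) s else 0 := by
    intro i s
    simp only [g]
    rw [Function.iterate_succ_apply']
  have hB : ∀ x, C.blk (fun s => if B s then 1 else 0) x ≤ 1 / 4 := by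
    intro x
    have h2 : C.blk (fun s => if B s then 1 else 0) x ≤
        2 * C.blk (fun s => (C.cstep^[T] (fun _ A => nc A)) s {s.1}) x := by
      simp only [BC.blk]
      rw [Finset.mul_sum]
      refine Finset.sum_le_sum fun ω _ => ?_
      have h3 : (if B (x, ω) then (1 : ℝ) else 0) ≤ 2 * u C T (x, ω) {x} := by
        split_ifs with hb
        · have : 1 / 2 < u C T (x, ω) {x} := hb
          linarith
        · have := u_nonneg C T (x, ω) {x}
          linarith
      have h4 := mul_le_mul_of_nonneg_left h3 (C.ν_pos ω).le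
      calc C.ν ω * (if B (x, ω) then (1 : ℝ) else 0) ≤ C.ν ω * (2 * u C T (x, ω) {x}) := h4
        _ = 2 * (C.ν ω * u C T (x, ω) {x}) := by ring
    have := hstat x
    linarith
  have hgj : ∑ x, C.blk (g j) x ≤ 1 / 8 := (h1 V Ω C γ B hγ0 hγ1 hpos hgap hB j).trans hj
  have hg01 : ∀ i s, 0 ≤ g i s ∧ g i s ≤ 1 := by
    intro i
    induction i with
    | zero =>
      intro s
      simp only [g, Function.iterate_zero, id]
      split_ifs <;> norm_num
    | succ i ih =>
      intro s
      rw [hg_succ]
      split_ifs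
      · constructor
        · exact Finset.sum_nonneg fun s' _ => mul_nonneg (C.K_nonneg _ _) (ih s').1
        · calc C.P (g i) s ≤ ∑ s', C.K s s' * 1 :=
                Finset.sum_le_sum fun s' _ => mul_le_mul_of_nonneg_left (ih s').2 (C.K_nonneg _ _)
            _ = 1 := by simp [C.K_sum]
      · norm_num
  -- (1)
  have hone : ∀ i s A, s.1 ∈ A → u C (i + T) s A ≤ g i s + 1 / 2 := by
    intro i
    induction i with
    | zero =>
      intro s A hA
      rw [zero_add]
      have h2 : u C T s A ≤ u C T s {s.1} := u_anti C T s (Finset.singleton_subset_iff.mpr hA)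
      by_cases hb : B s
      · have : g 0 s = 1 := by simp [g, hb]
        rw [this]
        linarith [u_le_one C T s A]
      · have h3 : u C T s {s.1} ≤ 1 / 2 := not_lt.mp hb
        linarith [(hg01 0 s).1]
    | succ i ih =>
      intro s A hA
      by_cases hb : B s
      · rw [show i + 1 + T = (i + T) + 1 by ring, u_succ, hg_succ, if_pos hb]
        calc ∑ s', C.K s s' * u C (i + T) s' (insert s'.1 A)
            ≤ ∑ s', C.K s s' * (g i s' + 1 / 2) :=
              Finset.sum_le_sum fun s' _ => mul_le_mul_of_nonneg_left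
                (ih _ _ (Finset.mem_insert_self _ _)) (C.K_nonneg _ _)
          _ = C.P (g i) s + 1 / 2 := by
              simp only [mul_add, Finset.sum_add_distrib, ← Finset.sum_mul, C.K_sum, one_mul, BC.P]
      · have h2 : u C T s A ≤ u C T s {s.1} := u_anti C T s (Finset.singleton_subset_iff.mpr hA)
        have h3 : u C T s {s.1} ≤ 1 / 2 := not_lt.mp hb
        have h4 : u C (i + 1 + T) s A ≤ u C T s A := by
          rw [add_comm (i + 1) T]; exact u_dec' C T (i + 1) s A
        linarith [(hg01 (i + 1) s).1]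
  -- (2)
  let H : Ω → ℝ := fun ω => min 1 (∑ x, g j (x, ω))
  have hH : ∀ ω, 0 ≤ H ω ∧ H ω ≤ 1 := fun ω =>
    ⟨le_min zero_le_one (Finset.sum_nonneg fun x _ => (hg01 j _).1), min_le_left _ _⟩
  have hgH : ∀ s, g j s ≤ H s.2 := by
    intro s
    refine le_min (hg01 j s).2 ?_
    exact Finset.single_le_sum (f := fun x => g j (x, s.2)) (fun x _ => (hg01 j _).1)
      (Finset.mem_univ s.1)
  have htwo : ∀ k s A, s.1 ∈ A → u C (k + (j + T)) s A ≤ (C.P^[k] (fun s => H s.2)) s + 1 / 2 := by
    intro k
    induction k with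
    | zero =>
      intro s A hA
      rw [zero_add]
      have := hone j s A hA
      have := hgH s
      simp only [Function.iterate_zero, id]
      linarith
    | succ k ih =>
      intro s A hA
      rw [show k + 1 + (j + T) = (k + (j + T)) + 1 by ring, u_succ, Function.iterate_succ_apply']
      calc ∑ s', C.K s s' * u C (k + (j + T)) s' (insert s'.1 A)
          ≤ ∑ s', C.K s s' * ((C.P^[k] (fun s => H s.2)) s' + 1 / 2) :=
            Finset.sum_le_sum fun s' _ => mul_le_mul_of_nonneg_left
              (ih _ _ (Finset.mem_insert_self _ _)) (C.K_nonneg _ _)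
        _ = C.P (C.P^[k] (fun s => H s.2)) s + 1 / 2 := by
            conv_rhs => rw [BC.P]
            simp only [mul_add, Finset.sum_add_distrib, ← Finset.sum_mul, C.K_sum, one_mul]
  have hνH : ∑ ω, C.ν ω * H ω ≤ 1 / 8 := by
    calc ∑ ω, C.ν ω * H ω ≤ ∑ ω, C.ν ω * ∑ x, g j (x, ω) :=
          Finset.sum_le_sum fun ω _ => mul_le_mul_of_nonneg_left (min_le_right _ _) (C.ν_pos ω).le
      _ = ∑ x, C.blk (g j) x := by
          simp only [Finset.mul_sum, BC.blk]
          rw [Finset.sum_comm]
      _ ≤ 1 / 8 := hgj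
  let N : ℕ := s₁ + (j + T)
  have hN : ∀ s A, s.1 ∈ A → u C N s A ≤ 3 / 4 := by
    intro s A hA
    have h2 := htwo s₁ s A hA
    have h3 := hmix H hH s₁ s
    linarith
  -- (3)
  have hthree : ∀ i s A, s.1 ∈ A → u C (i * N) s A ≤ (3 / 4) ^ i := by
    intro i
    induction i with
    | zero => intro s A _; simpa using u_le_one C (0 * N) s A
    | succ i ih =>
      intro s A hA
      have h2 : u C ((i + 1) * N) s A = (C.cstep^[N] (fun s A => u C (i * N) s A)) s A := by
        unfold u
        rw [show (i + 1) * N = N + i * N by ring, Function.iterate_add_apply]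
      rw [h2]
      have h3 := cstep_mono_on C (F := fun s A => u C (i * N) s A)
        (G := fun _ A => (3 / 4 : ℝ) ^ i * nc A) (fun s A hA => by
          by_cases hu : A = Finset.univ
          · subst hu
            simp only [u_univ, nc, if_true, mul_zero, le_refl]
          · have : nc A = 1 := by simp [nc, hu]
            simp only [this, mul_one]
            exact ih s A hA) N s A hA
      refine h3.trans ?_
      rw [cstep_smul]
      have h4 := hN s A hA
      have h5 : (0 : ℝ) ≤ (3 / 4) ^ i := by positivity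
      calc (3 / 4 : ℝ) ^ i * (C.cstep^[N] (fun _ A => nc A)) s A ≤ (3 / 4) ^ i * (3 / 4) :=
            mul_le_mul_of_nonneg_left h4 h5
        _ = (3 / 4) ^ (i + 1) := by rw [pow_succ]
  -- (4)
  intro s A hA hN1
  have hN1' : 1 ≤ N := by simp only [N]; omega
  have hpart : ∀ M : ℕ, ∑ k ∈ Finset.range (M * N), u C k s A ≤ 4 * N * (1 - (3 / 4) ^ M) := by
    intro M
    induction M with
    | zero => simp
    | succ M ih =>
      rw [show (M + 1) * N = M * N + N by ring, Finset.sum_range_add]
      have h2 : ∑ x ∈ Finset.range N, u C (M * N + x) s A ≤ ∑ _x ∈ Finset.range N, (3 / 4 : ℝ) ^ M :=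
        Finset.sum_le_sum fun x _ => (u_dec' C (M * N) x s A).trans (hthree M s A hA)
      rw [Finset.sum_const, Finset.card_range, nsmul_eq_mul] at h2
      rw [pow_succ]
      linarith
  refine ENNReal.tsum_le_of_sum_range_le fun K => ?_
  change ∑ i ∈ Finset.range K, ENNReal.ofReal (u C i s A) ≤ _
  rw [← ENNReal.ofReal_sum_of_nonneg (fun k _ => u_nonneg C k s A)]
  apply ENNReal.ofReal_le_ofReal
  calc ∑ k ∈ Finset.range K, u C k s A ≤ ∑ k ∈ Finset.range (K * N), u C k s A :=
        Finset.sum_le_sum_of_subset_of_nonneg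
          (Finset.range_mono (Nat.le_mul_of_pos_right K hN1')) fun k _ _ => u_nonneg C k s A
    _ ≤ 4 * N * (1 - (3 / 4) ^ K) := hpart K
    _ ≤ 4 * N := by
        have h2 : (0 : ℝ) ≤ (3 / 4) ^ K := by positivity
        have h3 : (0 : ℝ) ≤ (N : ℝ) := Nat.cast_nonneg _
        nlinarith [mul_nonneg h3 h2]
    _ = 4 * ((s₁ : ℝ) + j + T) := by
        simp only [N]; push_cast; ring

end Pool.Agent.W565.CTWORST
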