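import Pool.Agent.W510.CG.Stm

/-! Project CG (helper510): rules 1 and 2. -/

set_option autoImplicit false
set_option linter.unusedVariables false

namespace Pool.Agent.W565.CGR

open Pool.Agent.W510.CG

theorem key {M B : Type} {L : M → B} {X : Set M} {y a : M} (hi : Set.InjOn L (X \ {y}))
    (ha : a ∈ X) (hay : a ≠ y) (e : L a = L y) : Set.InjOn L (X \ {a}) := by
  intro p hp q hq hpq
  by_cases hpy : p = y
  · by_cases hqy : q = y
    · rw [hpy, hqy]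
    · exfalso
      have h1 : L q = L a := by rw [e, ← hpy, hpq]
      exact hq.2 (hi ⟨hq.1, hqy⟩ ⟨ha, hay⟩ h1)
  · by_cases hqy : q = y
    · exfalso
      have h1 : L p = L a := by rw [e, ← hqy, hpq]
      exact hp.2 (hi ⟨hp.1, hpy⟩ ⟨ha, hay⟩ h1)
    · exact hi ⟨hp.1, hpy⟩ ⟨hq.1, hqy⟩ hpq

theorem coll {M B : Type} {L : M → B} {X : Set M} {y : M} (hi : Set.InjOn L (X \ {y}))
    (hn : ¬ Set.InjOn L X) : ∃ a ∈ X, a ≠ y ∧ L a = L y := by
  unfold Set.InjOn at hn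
  push Not at hn
  obtain ⟨p, hp, q, hq, h1, h2⟩ := hn
  by_cases hpy : p = y
  · exact ⟨q, hq, fun h => h2 (by rw [hpy, h]), by rw [← hpy, h1]⟩
  · by_cases hqy : q = y
    · exact ⟨p, hp, hpy, by rw [← hqy, h1]⟩
    · exact absurd (hi ⟨hp, hpy⟩ ⟨hq, hqy⟩ h1) h2

theorem main : S_R2 := by
  intro M V B br H X y z hy hz hyz hZ
  obtain ⟨h, hh, γ, hi⟩ := hZ
  by_cases hX : Set.InjOn (fun x => br γ (h x)) X
  · exact ⟨z, hz, hyz.symm, h, hh, γ, hX.mono Set.sdiff_subset⟩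
  · obtain ⟨a, ha, hay, e⟩ := coll hi hX
    exact ⟨a, ha, hay, h, hh, γ, key hi ha hay e⟩

theorem main1 (hHTF : S_HTF) : S_R1 := by
  classical
  intro M V B br G H hT hGH X y0 y1 y2 hXf h0 h1 h2 h01 h02 h12 hZ0 hZ1 hZ2 y hy
  obtain ⟨h, hh, γ, hi⟩ := id hZ0
  by_cases hX : Set.InjOn (fun x => br γ (h x)) X
  · exact ⟨h, hh, γ, hX.mono Set.sdiff_subset⟩
  obtain ⟨a, ha, hay, e⟩ := coll hi hX
  obtain ⟨t, ht, hta, ht0, hZt⟩ : ∃ t ∈ X, t ≠ a ∧ t ≠ y0 ∧ Z br H (X \ {t}) := by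
    by_cases h1a : y1 = a
    · exact ⟨y2, h2, fun h => h12 (by rw [h1a, h]), h02.symm, hZ2⟩
    · exact ⟨y1, h1, h1a, h01.symm, hZ1⟩
  by_cases hyy0 : y = y0
  · rw [hyy0]; exact hZ0
  by_cases hyt : y = t
  · rw [hyt]; exact hZt
  by_cases hya : y = a
  · rw [hya]; exact ⟨h, hh, γ, key hi ha hay e⟩
  -- the swap
  have hL : ∀ p ∈ X, p ≠ a → p ≠ y0 → br γ (h p) ≠ br γ (h a) := by
    intro p hp hpa hp0 he
    exact hpa (hi ⟨hp, hp0⟩ ⟨ha, hay⟩ he)
  set S : Set M := h '' (X \ {a, y0, y}) with hS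
  obtain ⟨g, hg, hg1, hg2⟩ := hHTF M V B br G hT γ (br γ (h a)) S
    (Function.update id (h t) (h y)) ((hXf.subset Set.sdiff_subset).image _)
    (by
      rintro _ ⟨p, ⟨hp, hp'⟩, rfl⟩
      simp only [Set.mem_insert_iff, Set.mem_singleton_iff, not_or] at hp'
      exact hL p hp hp'.1 hp'.2.1)
    (by
      rintro _ ⟨p, ⟨hp, hp'⟩, rfl⟩ _ ⟨q, ⟨hq, hq'⟩, rfl⟩ hpq
      simp only [Set.mem_insert_iff, Set.mem_singleton_iff, not_or] at hp' hq'
      rw [hi ⟨hp, hp'.2.1⟩ ⟨hq, hq'.2.1⟩ hpq])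
    (by
      rintro _ ⟨p, ⟨hp, hp'⟩, rfl⟩
      simp only [Set.mem_insert_iff, Set.mem_singleton_iff, not_or] at hp'
      by_cases hpt : p = t
      · rw [hpt, Function.update_self]
        exact hL y hy hya hyy0
      · rw [Function.update_of_ne (h.injective.ne hpt)]
        exact hL p hp hp'.1 hp'.2.1)
    (by
      rintro _ ⟨p, ⟨hp, hp'⟩, rfl⟩ _ ⟨q, ⟨hq, hq'⟩, rfl⟩ hpq
      simp only [Set.mem_insert_iff, Set.mem_singleton_iff, not_or] at hp' hq'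
      by_cases hpt : p = t
      · by_cases hqt : q = t
        · rw [hpt, hqt]
        · exfalso
          simp only [hpt, Function.update_self, Function.update_of_ne (h.injective.ne hqt), id]
            at hpq
          exact hq'.2.2 (hi ⟨hy, hyy0⟩ ⟨hq, hq'.2.1⟩ hpq).symm
      · by_cases hqt : q = t
        · exfalso
          simp only [hqt, Function.update_self, Function.update_of_ne (h.injective.ne hpt), id]
            at hpq
          exact hp'.2.2 (hi ⟨hp, hp'.2.1⟩ ⟨hy, hyy0⟩ hpq)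
        · simp only [Function.update_of_ne (h.injective.ne hqt),
            Function.update_of_ne (h.injective.ne hpt), id] at hpq
          rw [hi ⟨hp, hp'.2.1⟩ ⟨hq, hq'.2.1⟩ hpq])
  have hk : h⁻¹ * g * h ∈ H := H.mul_mem (H.mul_mem (H.inv_mem hh) (hGH hg)) hh
  have hka : ∀ p, (h⁻¹ * g * h) p = h⁻¹ (g (h p)) := fun p => rfl
  have hk1 : (h⁻¹ * g * h) a = a := by
    rw [hka, hg1 _ rfl]; simp
  have hk2 : (h⁻¹ * g * h) y0 = y0 := by
    rw [hka, hg1 _ e.symm]; simp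
  have hk3 : (h⁻¹ * g * h) t = y := by
    rw [hka, hg2 (h t) ⟨t, ⟨ht, by
      simp only [Set.mem_insert_iff, Set.mem_singleton_iff, not_or]
      exact ⟨hta, ht0, fun h => hyt h.symm⟩⟩, rfl⟩, Function.update_self]
    simp
  have hk4 : ∀ p ∈ X, p ≠ a → p ≠ y0 → p ≠ y → p ≠ t → (h⁻¹ * g * h) p = p := by
    intro p hp hpa hp0 hpy hpt
    rw [hka, hg2 (h p) ⟨p, ⟨hp, by
      simp only [Set.mem_insert_iff, Set.mem_singleton_iff, not_or]
      exact ⟨hpa, hp0, hpy⟩⟩, rfl⟩, Function.update_of_ne (h.injective.ne hpt)]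
    simp
  have himg : (h⁻¹ * g * h : Equiv.Perm M) '' (X \ {y}) = X \ {t} := by
    ext r
    constructor
    · rintro ⟨p, ⟨hp, hpy⟩, rfl⟩
      have hpy' : p ≠ y := hpy
      by_cases hpa : p = a
      · rw [hpa, hk1]; exact ⟨ha, fun h => hta h.symm⟩
      by_cases hp0 : p = y0
      · rw [hp0, hk2]; exact ⟨h0, fun h => ht0 h.symm⟩
      by_cases hpt : p = t
      · rw [hpt, hk3]; exact ⟨hy, hyt⟩
      rw [hk4 p hp hpa hp0 hpy' hpt]
      exact ⟨hp, hpt⟩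
    · rintro ⟨hr, hrt⟩
      have hrt' : r ≠ t := hrt
      by_cases hry : r = y
      · exact ⟨t, ⟨ht, fun h => hyt h.symm⟩, by rw [hk3, hry]⟩
      refine ⟨r, ⟨hr, hry⟩, ?_⟩
      by_cases hra : r = a
      · rw [hra, hk1]
      by_cases hr0 : r = y0
      · rw [hr0, hk2]
      exact hk4 r hr hra hr0 hry hrt'
  rw [← himg] at hZt
  exact (Z_image_iff hk).1 hZt

end Pool.Agent.W565.CGR
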