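import Pool.Agent.W565.T3E

/-! Part FT-CONV (project FT of helper847). -/

set_option autoImplicit false

namespace Pool.Agent.W565.T3CONV

open Pool.Agent.W847.T3 Pool.Agent.W565.T3E

theorem sum_lin (l : List (ℕ × List ℕ)) (f g : ℕ × List ℕ → ℝ) (c d : ℝ) :
    (l.map fun p => c * f p + d * g p).sum = c * (l.map f).sum + d * (l.map g).sum := by
  induction l with
  | nil => simp
  | cons p l ih => simp only [List.map_cons, List.sum_cons, ih]; ring

theorem tot_cast (l : List (ℕ × List ℕ)) :
    ((tot l : ℕ) : ℝ) = (l.map fun p => (p.1 : ℝ)).sum := by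
  unfold tot
  induction l with
  | nil => simp
  | cons p l ih => simp only [List.map_cons, List.sum_cons, Nat.cast_add, ih]

theorem main : S_CONV := by
  intro w hw l h v htot hdom hlen hq x hx0 hx1
  have hSpos : (0 : ℝ) < (Ker.S : ℝ) := by
    have : 0 < Ker.S := by unfold Ker.S; exact Nat.pos_of_ne_zero (by simp [Nat.pow_eq])
    exact_mod_cast this
  have hS : (l.map fun p => (p.1 : ℝ)).sum = Ker.S := by rw [← tot_cast, htot]
  -- the functional
  let φ : List ℕ → ℝ := fun L => 1 - x ^ (L.take 1).sum
  have hmono : Mono φ := by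
    intro A B hAB
    have h1 := hAB 1
    have h2 : x ^ (B.take 1).sum ≤ x ^ (A.take 1).sum := pow_le_pow_of_le_one hx0 hx1 h1
    simp only [φ]; linarith
  have hnn : ∀ A, 0 ≤ φ A := by
    intro A
    have : x ^ (A.take 1).sum ≤ 1 := pow_le_one₀ hx0 hx1
    simp only [φ]; linarith
  have h1 := hdom φ hmono hnn
  have h2 : (tape h v).E w φ = 1 - pgf w h v x := by
    have := E_lin w (tape h v) 1 (-1) (fun _ => 1) (fun L => x ^ (L.take 1).sum)
    rw [E_const hw] at this
    have e : φ = fun r => 1 * (1 : ℝ) + -1 * x ^ (r.take 1).sum := by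
      funext L; simp only [φ]; ring
    rw [e, this]
    unfold pgf; ring
  have h3 : av l φ = (Ker.S : ℝ) - (l.map fun p => (p.1 : ℝ) * x ^ p.2.sum).sum := by
    unfold av
    have e : (l.map fun p => (p.1 : ℝ) * φ p.2) =
        l.map fun p => 1 * (p.1 : ℝ) + -1 * ((p.1 : ℝ) * x ^ p.2.sum) := by
      refine List.map_congr_left fun p hp => ?_
      simp only [φ]
      rw [List.take_of_length_le (hlen p hp)]
      ring
    rw [e, sum_lin l (fun p => (p.1 : ℝ)) (fun p => (p.1 : ℝ) * x ^ p.2.sum), hS]
    ring
  rw [h2, h3] at h1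
  have h4 : Ker.S * pgf w h v x ≤ (l.map fun p => (p.1 : ℝ) * x ^ p.2.sum).sum := by
    linarith
  -- the bound of the sum
  have h5 : (l.map fun p => (p.1 : ℝ) * x ^ p.2.sum).sum ≤ Ker.S * Real.exp (-(11 * (1 - x))) := by
    rcases le_or_gt x (3 / 8) with hx | hx
    · calc (l.map fun p => (p.1 : ℝ) * x ^ p.2.sum).sum
          ≤ (l.map fun p => (p.1 : ℝ) * (3 / 8) ^ p.2.sum).sum := by
            refine List.sum_le_sum fun p _ => ?_
            exact mul_le_mul_of_nonneg_left (pow_le_pow_left₀ hx0 hx _) (Nat.cast_nonneg _)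
        _ ≤ Ker.S * Real.exp (-11) := hq
        _ ≤ Ker.S * Real.exp (-(11 * (1 - x))) :=
            mul_le_mul_of_nonneg_left (Real.exp_le_exp.mpr (by linarith)) hSpos.le
    · have hxp : 0 < x := by linarith
      set Λ : ℝ := Real.log (8 / 3) with hΛ
      have hΛ0 : 0 < Λ := Real.log_pos (by norm_num)
      have hΛ1 : Λ ≤ 1 := by
        rw [hΛ, Real.log_le_iff_le_exp (by norm_num)]
        have := Real.exp_one_gt_d9
        linarith
      have hlx : Real.log x ≤ x - 1 := Real.log_le_sub_one_of_pos hxp
      have hlx0 : Real.log x ≤ 0 := Real.log_nonpos hx0 hx1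
      have hlx1 : -Λ ≤ Real.log x := by
        have : Real.log (3 / 8) ≤ Real.log x := Real.log_le_log (by norm_num) hx.le
        have h6 : Real.log (3 / 8) = -Λ := by
          rw [hΛ, ← Real.log_inv]; norm_num
        linarith
      set s : ℝ := -Real.log x / Λ with hs
      have hs0 : 0 ≤ s := div_nonneg (by linarith) hΛ0.le
      have hs1 : s ≤ 1 := by rw [hs, div_le_one hΛ0]; linarith
      have hsL : s * Λ = -Real.log x := by rw [hs]; field_simp
      have hsx : 1 - x ≤ s := by
        have : -Real.log x ≤ s := by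
          rw [← hsL]
          have := mul_le_mul_of_nonneg_left hΛ1 hs0
          linarith
        linarith
      have hterm : ∀ k : ℕ, x ^ k ≤ Real.exp (11 * (1 - s)) * (s * (3 / 8) ^ k +
          (1 - s) * Real.exp (-11)) := by
        intro k
        have hc := convexOn_exp.2 (Set.mem_univ (-(k * Λ))) (Set.mem_univ (-11 : ℝ)) hs0
          (by linarith : (0 : ℝ) ≤ 1 - s) (by ring)
        simp only [smul_eq_mul] at hc
        have e1 : Real.exp (-(k * Λ)) = (3 / 8) ^ k := by
          have : -(k * Λ) = k * Real.log (3 / 8) := by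
            have h6 : Real.log (3 / 8) = -Λ := by
              rw [hΛ, ← Real.log_inv]; norm_num
            rw [h6]; ring
          rw [this, Real.exp_nat_mul, Real.exp_log (by norm_num)]
        have e2 : x ^ k = Real.exp (11 * (1 - s)) *
            Real.exp (s * -(k * Λ) + (1 - s) * -11) := by
          rw [← Real.exp_add]
          have : 11 * (1 - s) + (s * -(k * Λ) + (1 - s) * -11) = k * Real.log x := by
            have : s * -(k * Λ) = -(k * (s * Λ)) := by ring
            rw [this, hsL]; ring
          rw [this, Real.exp_nat_mul, Real.exp_log hxp]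
        rw [e2, ← e1]
        exact mul_le_mul_of_nonneg_left hc (Real.exp_pos _).le
      calc (l.map fun p => (p.1 : ℝ) * x ^ p.2.sum).sum
          ≤ (l.map fun p => (Real.exp (11 * (1 - s)) * s) * ((p.1 : ℝ) * (3 / 8) ^ p.2.sum) +
              (Real.exp (11 * (1 - s)) * (1 - s) * Real.exp (-11)) * (p.1 : ℝ)).sum := by
            refine List.sum_le_sum fun p _ => ?_
            have := mul_le_mul_of_nonneg_left (hterm p.2.sum) (Nat.cast_nonneg (α := ℝ) p.1)
            refine this.trans (le_of_eq ?_)
            ring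
        _ = (Real.exp (11 * (1 - s)) * s) * (l.map fun p => (p.1 : ℝ) * (3 / 8) ^ p.2.sum).sum +
              (Real.exp (11 * (1 - s)) * (1 - s) * Real.exp (-11)) * Ker.S := by
            rw [sum_lin l (fun p => (p.1 : ℝ) * (3 / 8) ^ p.2.sum) (fun p => (p.1 : ℝ)), hS]
        _ ≤ (Real.exp (11 * (1 - s)) * s) * (Ker.S * Real.exp (-11)) +
              (Real.exp (11 * (1 - s)) * (1 - s) * Real.exp (-11)) * Ker.S := by
            have := mul_le_mul_of_nonneg_left hq
              (mul_nonneg (Real.exp_pos (11 * (1 - s))).le hs0)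
            linarith
        _ = Ker.S * (Real.exp (11 * (1 - s)) * Real.exp (-11)) := by ring
        _ = Ker.S * Real.exp (-(11 * s)) := by
            rw [← Real.exp_add]; congr 2; ring
        _ ≤ Ker.S * Real.exp (-(11 * (1 - x))) :=
            mul_le_mul_of_nonneg_left (Real.exp_le_exp.mpr (by linarith)) hSpos.le
  have h6 := h4.trans h5
  exact le_of_mul_le_mul_left h6 hSpos

end Pool.Agent.W565.T3CONV
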