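import Pool.Agent.W565.T3E

/-! Part FT-FORM (project FT of helper847). -/

set_option autoImplicit false

namespace Pool.Agent.W565.T3FORM

open Pool.Agent.W847.T3 Pool.Agent.W565.T3E

theorem pot_enter (j : Fin 3) (t : SS) : pot (enter j t) = pot t := by
  unfold enter
  split
  · rfl
  · rename_i h l heq
    unfold pot
    fin_cases j <;> simp_all [Function.update] <;> omega

theorem pot_take1 (i : Fin 3) (t : SS) (h : 0 < t.f i) : pot (take1 i t) + 1 = pot t := by
  unfold take1 pot
  fin_cases i <;> simp_all [Function.update] <;> omega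

theorem route_zero (v : List (Fin 3)) (n : ℕ) (t : SS) (h : ∀ i, t.f i = 0) :
    route v n t = .ret t := by
  cases n with
  | zero => rfl
  | succ n => simp [route, h]

theorem route_succ (v : List (Fin 3)) (n : ℕ) (t : SS) (i : Fin 3) (hi : 0 < t.f i)
    (hlt : ∀ j < i, t.f j = 0) :
    route v (n + 1) t = .ask [] v (.ch i) (fun a => route v n (move a (take1 i t))) := by
  fin_cases i
  · have : 0 < t.f 0 := hi
    simp [route, this]
  · have h0 := hlt 0 (by decide)
    have : 0 < t.f 1 := hi
    simp [route, this, h0]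
  · have h0 := hlt 0 (by decide)
    have h1 := hlt 1 (by decide)
    have : 0 < t.f 2 := hi
    simp [route, this, h0, h1]

theorem exists_low (t : SS) : (∀ i, t.f i = 0) ∨ ∃ i, 0 < t.f i ∧ ∀ j < i, t.f j = 0 := by
  by_cases h0 : 0 < t.f 0
  · exact Or.inr ⟨0, h0, fun j hj => absurd hj (by simp)⟩
  by_cases h1 : 0 < t.f 1
  · refine Or.inr ⟨1, h1, fun j hj => ?_⟩
    have : j = 0 := by fin_cases j <;> simp_all
    subst this; omega
  by_cases h2 : 0 < t.f 2
  · refine Or.inr ⟨2, h2, fun j hj => ?_⟩
    have : j = 0 ∨ j = 1 := by fin_cases j <;> simp_all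
    rcases this with rfl | rfl <;> omega
  · left
    intro i
    fin_cases i <;> simp_all

/-- total number of waiting frogs -/
def Fs (t : SS) : ℕ := t.f 0 + t.f 1 + t.f 2

section

variable {w : List (Fin 3) → Side → Fin 4 → ℝ} {v : List (Fin 3)} {a b : ℝ}
  (hc0 : ∀ i : Fin 3, w v (.ch i) 0 = a)
  (hc1 : ∀ i j : Fin 3, w v (.ch i) j.succ = if i = j then 0 else b)

include hc0 hc1 in
theorem E_step (n : ℕ) (t : SS) (i : Fin 3) (hi : 0 < t.f i) (hlt : ∀ j < i, t.f j = 0)
    (g : SS → ℝ) : (route v (n + 1) t).E w g =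
      a * (route v n { take1 i t with u := (take1 i t).u + 1 }).E w g +
      ∑ j : Fin 3, (if i = j then 0 else b) * (route v n (enter j (take1 i t))).E w g := by
  rw [route_succ v n t i hi hlt]
  simp only [Prog.E]
  rw [Fin.sum_univ_succ, hc0]
  congr 1
  refine Finset.sum_congr rfl fun j _ => ?_
  rw [hc1]
  rfl

include hc0 hc1 in
/-- all the children entered -/
theorem val_all (x : ℝ) : ∀ (n : ℕ) (t : SS), (∀ i, t.L i = []) → Fs t ≤ n →
    (route v n t).E w (fun t => x ^ t.u) = x ^ t.u * (a * x + 2 * b) ^ Fs t := by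
  intro n
  induction n with
  | zero =>
    intro t _ hn
    have hf : ∀ i, t.f i = 0 := by
      unfold Fs at hn
      intro i; fin_cases i <;> simp <;> omega
    rw [route_zero v 0 t hf]
    simp [Prog.E, Fs, hf]
  | succ n ih =>
    intro t hL hn
    rcases exists_low t with hf | ⟨i, hi, hlt⟩
    · rw [route_zero v _ t hf]
      simp [Prog.E, Fs, hf]
    · rw [E_step hc0 hc1 n t i hi hlt]
      have hFs : Fs (take1 i t) + 1 = Fs t := by
        unfold Fs take1
        fin_cases i <;> simp_all [Function.update] <;> omega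
      have hen : ∀ j, enter j (take1 i t) = take1 i t := by
        intro j
        have : (take1 i t).L j = [] := hL j
        unfold enter
        simp [this]
      have e1 := ih { take1 i t with u := (take1 i t).u + 1 } hL
        (by show Fs (take1 i t) ≤ n; omega)
      have e2 := ih (take1 i t) hL (by omega)
      have hF1 : Fs { take1 i t with u := (take1 i t).u + 1 } = Fs (take1 i t) := rfl
      have hu : (take1 i t).u = t.u := rfl
      have e1' : (route v n { take1 i t with u := t.u + 1 }).E w (fun t => x ^ t.u) =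
          x ^ (t.u + 1) * (a * x + 2 * b) ^ Fs (take1 i t) := e1
      have e2' : (route v n (take1 i t)).E w (fun t => x ^ t.u) =
          x ^ t.u * (a * x + 2 * b) ^ Fs (take1 i t) := e2
      simp only [hen]
      have e1'' : (route v n { take1 i t with u := (take1 i t).u + 1 }).E w (fun t => x ^ t.u) =
          x ^ (t.u + 1) * (a * x + 2 * b) ^ Fs (take1 i t) := e1
      rw [e2']
      try rw [e1'']
      try rw [e1']
      rw [← Finset.sum_mul]
      have hs : ∑ j : Fin 3, (if i = j then 0 else b) = 2 * b := by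
        fin_cases i <;> simp [Fin.sum_univ_three] <;> ring
      rw [hs, ← hFs, pow_succ, pow_succ]
      ring

include hc0 hc1 in
/-- all but `k` entered -/
theorem val_but (x : ℝ) (k : Fin 3) (r : ℕ) : ∀ (n : ℕ) (t : SS), (∀ i, i ≠ k → t.L i = []) →
    t.L k = [r] → t.f k = 0 → Fs t + r ≤ n →
    (route v n t).E w (fun t => x ^ t.u) =
      x ^ t.u * ((a * x + b) ^ Fs t * (1 - (a * x + 2 * b) ^ r) +
        (a * x + 2 * b) ^ Fs t * (a * x + 2 * b) ^ r) := by
  intro n
  induction n with
  | zero =>
    intro t _ _ _ hn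
    have hf : ∀ i, t.f i = 0 := by
      unfold Fs at hn
      intro i; fin_cases i <;> simp <;> omega
    rw [route_zero v 0 t hf]
    simp [Prog.E, Fs, hf]
  | succ n ih =>
    intro t hL hk hfk hn
    rcases exists_low t with hf | ⟨i, hi, hlt⟩
    · rw [route_zero v _ t hf]
      simp [Prog.E, Fs, hf]
    · rw [E_step hc0 hc1 n t i hi hlt]
      have hik : i ≠ k := by rintro rfl; omega
      have hFs : Fs (take1 i t) + 1 = Fs t := by
        unfold Fs take1
        fin_cases i <;> simp_all [Function.update] <;> omega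
      have hfk' : (take1 i t).f k = 0 := by
        simp [take1, Function.update_of_ne (Ne.symm hik), hfk]
      have hen : ∀ j, j ≠ k → enter j (take1 i t) = take1 i t := by
        intro j hj
        have : (take1 i t).L j = [] := hL j hj
        unfold enter
        simp [this]
      have henk : enter k (take1 i t) =
          { L := Function.update (take1 i t).L k [],
            f := Function.update (take1 i t).f k r, u := t.u } := by
        have : (take1 i t).L k = [r] := hk
        unfold enter
        simp only [this, hfk', zero_add]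
        rfl
      have hFk : Fs (enter k (take1 i t)) = Fs (take1 i t) + r := by
        rw [henk]
        unfold Fs
        fin_cases k <;> simp_all [Function.update] <;> omega
      have e1 := ih { take1 i t with u := (take1 i t).u + 1 } hL hk hfk'
        (by show Fs (take1 i t) + r ≤ n; omega)
      have e2 := ih (take1 i t) hL hk hfk' (by omega)
      have e3 := val_all hc0 hc1 x n (enter k (take1 i t)) (by
        intro j
        rw [henk]
        by_cases hj : j = k
        · subst hj; simp
        · simp only [Function.update_of_ne hj]; exact hL j hj) (by rw [hFk]; omega)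
      have hF1 : Fs { take1 i t with u := (take1 i t).u + 1 } = Fs (take1 i t) := rfl
      have hu : (take1 i t).u = t.u := rfl
      have huk : (enter k (take1 i t)).u = t.u := by rw [henk]
      have hsum : ∑ j : Fin 3, (if i = j then 0 else b) *
          (route v n (enter j (take1 i t))).E w (fun t => x ^ t.u) =
          b * (route v n (take1 i t)).E w (fun t => x ^ t.u) +
          b * (route v n (enter k (take1 i t))).E w (fun t => x ^ t.u) := by
        obtain ⟨j, hji, hjk, hsum⟩ : ∃ j, j ≠ i ∧ j ≠ k ∧ ∀ G : Fin 3 → ℝ,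
            ∑ j, G j = G i + G j + G k := by
          fin_cases i <;> fin_cases k
          · exact absurd rfl hik
          · exact ⟨2, by decide, by decide, fun G => by simp [Fin.sum_univ_three]; ring⟩
          · exact ⟨1, by decide, by decide, fun G => by simp [Fin.sum_univ_three]⟩
          · exact ⟨2, by decide, by decide, fun G => by simp [Fin.sum_univ_three]; ring⟩
          · exact absurd rfl hik
          · exact ⟨0, by decide, by decide, fun G => by simp [Fin.sum_univ_three]; ring⟩
          · exact ⟨1, by decide, by decide, fun G => by simp [Fin.sum_univ_three]; ring⟩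
          · exact ⟨0, by decide, by decide, fun G => by simp [Fin.sum_univ_three]; ring⟩
          · exact absurd rfl hik
        rw [hsum, hen j hjk, if_pos rfl, if_neg (Ne.symm hji), if_neg hik]
        ring
      rw [hsum, e1, e2, e3, hF1, hu, huk, hFk, ← hFs, pow_succ, pow_succ, pow_succ, pow_add]
      show a * (x ^ (t.u + 1) * _) + _ = _
      rw [pow_succ]
      ring

include hc0 hc1 in
/-- only `i` entered -/
theorem val_one (x : ℝ) (i j k : Fin 3) (hij : i ≠ j) (hik : i ≠ k) (hjk : j ≠ k) (r : Fin 3 → ℕ) :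
    ∀ (n : ℕ) (t : SS), t.L i = [] → t.L j = [r j] → t.L k = [r k] → t.f j = 0 → t.f k = 0 →
      t.f i + r j + r k ≤ n →
    (route v n t).E w (fun t => x ^ t.u) =
      x ^ t.u * ((a * x + 2 * b) ^ t.f i * ((a * x + 2 * b) ^ r j * (a * x + 2 * b) ^ r k) +
        (a * x + b) ^ t.f i * ((a * x + b) ^ r j * (1 - (a * x + 2 * b) ^ r k) +
          (a * x + b) ^ r k * (1 - (a * x + 2 * b) ^ r j)) +
        (a * x) ^ t.f i * (1 - (a * x + 2 * b) ^ r j * (a * x + 2 * b) ^ r k -
          (a * x + b) ^ r j * (1 - (a * x + 2 * b) ^ r k) -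
          (a * x + b) ^ r k * (1 - (a * x + 2 * b) ^ r j))) := by
  have hcase : ∀ m : Fin 3, m = i ∨ m = j ∨ m = k := by
    intro m
    fin_cases i <;> fin_cases j <;> fin_cases k <;> fin_cases m <;> simp_all
  have hsum : ∀ G : Fin 3 → ℝ, ∑ m, G m = G i + G j + G k := by
    intro G
    have : (Finset.univ : Finset (Fin 3)) = {i, j, k} := by
      ext m
      simp only [Finset.mem_univ, Finset.mem_insert, Finset.mem_singleton, true_iff]
      exact hcase m
    rw [this, Finset.sum_insert (by simp [hij, hik]), Finset.sum_insert (by simp [hjk]),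
      Finset.sum_singleton]
    ring
  have hsumN : ∀ G : Fin 3 → ℕ, G 0 + G 1 + G 2 = G i + G j + G k := by
    intro G
    have h1 := hsum (fun m => (G m : ℝ))
    rw [Fin.sum_univ_three] at h1
    exact_mod_cast h1
  intro n
  induction n with
  | zero =>
    intro t hLi hLj hLk hfj hfk hn
    have hfi : t.f i = 0 := by omega
    have hf : ∀ m, t.f m = 0 := by
      intro m
      rcases hcase m with rfl | rfl | rfl
      · exact hfi
      · exact hfj
      · exact hfk
    rw [route_zero v 0 t hf]
    simp only [Prog.E, hfi, pow_zero]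
    ring
  | succ n ih =>
    intro t hLi hLj hLk hfj hfk hn
    by_cases hfi : t.f i = 0
    · have hf : ∀ m, t.f m = 0 := by
        intro m
        rcases hcase m with rfl | rfl | rfl
        · exact hfi
        · exact hfj
        · exact hfk
      rw [route_zero v _ t hf]
      simp only [Prog.E, hfi, pow_zero]
      ring
    · have hi : 0 < t.f i := Nat.pos_of_ne_zero hfi
      have hlt : ∀ m < i, t.f m = 0 := by
        intro m hm
        rcases hcase m with rfl | rfl | rfl
        · exact absurd hm (lt_irrefl _)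
        · exact hfj
        · exact hfk
      rw [E_step hc0 hc1 n t i hi hlt]
      have hfi' : (take1 i t).f i + 1 = t.f i := by
        simp only [take1, Function.update_self]; omega
      have hfj' : (take1 i t).f j = 0 := by
        simp [take1, Function.update_of_ne (Ne.symm hij), hfj]
      have hfk' : (take1 i t).f k = 0 := by
        simp [take1, Function.update_of_ne (Ne.symm hik), hfk]
      have henj : enter j (take1 i t) =
          { L := Function.update (take1 i t).L j [],
            f := Function.update (take1 i t).f j (r j), u := t.u } := by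
        have : (take1 i t).L j = [r j] := hLj
        unfold enter
        simp only [this, hfj', zero_add]
        rfl
      have henk : enter k (take1 i t) =
          { L := Function.update (take1 i t).L k [],
            f := Function.update (take1 i t).f k (r k), u := t.u } := by
        have : (take1 i t).L k = [r k] := hLk
        unfold enter
        simp only [this, hfk', zero_add]
        rfl
      have hFj : Fs (enter j (take1 i t)) = (take1 i t).f i + r j := by
        unfold Fs
        rw [hsumN, henj]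
        simp [Function.update_of_ne hij, Function.update_of_ne (Ne.symm hjk), hfk']
      have hFk : Fs (enter k (take1 i t)) = (take1 i t).f i + r k := by
        unfold Fs
        rw [hsumN, henk]
        simp [Function.update_of_ne hik, Function.update_of_ne hjk, hfj']
      have e1 := ih { take1 i t with u := (take1 i t).u + 1 } hLi hLj hLk hfj' hfk'
        (by show (take1 i t).f i + r j + r k ≤ n; omega)
      have e2 := val_but hc0 hc1 x k (r k) n (enter j (take1 i t)) (by
        intro m hm
        rw [henj]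
        rcases hcase m with rfl | rfl | rfl
        · simp only [Function.update_of_ne hij]; exact hLi
        · simp
        · exact absurd rfl hm) (by
        rw [henj]
        simp only [Function.update_of_ne (Ne.symm hjk)]; exact hLk) (by
        rw [henj]
        simp only [Function.update_of_ne (Ne.symm hjk)]; exact hfk') (by rw [hFj]; omega)
      have e3 := val_but hc0 hc1 x j (r j) n (enter k (take1 i t)) (by
        intro m hm
        rw [henk]
        rcases hcase m with rfl | rfl | rfl
        · simp only [Function.update_of_ne hik]; exact hLi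
        · exact absurd rfl hm
        · simp) (by
        rw [henk]
        simp only [Function.update_of_ne hjk]; exact hLj) (by
        rw [henk]
        simp only [Function.update_of_ne hjk]; exact hfj') (by rw [hFk]; omega)
      have huj : (enter j (take1 i t)).u = t.u := by rw [henj]
      have huk : (enter k (take1 i t)).u = t.u := by rw [henk]
      rw [hsum, if_pos rfl, if_neg hij, if_neg hik, e1, e2, e3, huj, huk, hFj, hFk, ← hfi']
      show a * (x ^ (t.u + 1) * _) + _ = _
      simp only [pow_succ, pow_add]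
      ring

end

/-- the routing does not depend on fuel: value of the first phase -/
theorem ph1_val {w : List (Fin 3) → Side → Fin 4 → ℝ} {v : List (Fin 3)} {a b A θ : ℝ}
    (hA : w v .own 0 = A) (hθ : ∀ j : Fin 3, w v .own j.succ = θ)
    (hp0 : w v .par 0 = 0) (hp1 : ∀ j : Fin 3, w v .par j.succ = 1 / 3)
    (hc0 : ∀ i : Fin 3, w v (.ch i) 0 = a)
    (hc1 : ∀ i j : Fin 3, w v (.ch i) j.succ = if i = j then 0 else b) (x : ℝ) (r : Fin 3 → ℕ) :
    (ph1 v ⟨fun i => [r i], fun _ => 0, 0⟩).E w (fun t => x ^ t.u) =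
      FF A θ x (fun i => (a * x) ^ r i) (fun i => (a * x + b) ^ r i)
        (fun i => (a * x + 2 * b) ^ r i) := by
  set t0 : SS := ⟨fun i => [r i], fun _ => 0, 0⟩ with ht0
  -- after the first entry
  have key : ∀ i j k : Fin 3, i ≠ j → i ≠ k → j ≠ k →
      (∑ c : Fin 4, w v .own c * (routeAll v (move c (enter i t0))).E w (fun t => x ^ t.u)) =
      (A * x + θ) * GG (fun i => (a * x) ^ r i) (fun i => (a * x + b) ^ r i)
        (fun i => (a * x + 2 * b) ^ r i) i j k +
      θ * (GG2 (fun i => (a * x + b) ^ r i) (fun i => (a * x + 2 * b) ^ r i) i j k +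
        GG2 (fun i => (a * x + b) ^ r i) (fun i => (a * x + 2 * b) ^ r i) i k j) := by
    intro i j k hij hik hjk
    have hcase : ∀ m : Fin 3, m = i ∨ m = j ∨ m = k := by
      intro m
      fin_cases i <;> fin_cases j <;> fin_cases k <;> fin_cases m <;> simp_all
    have hsum : ∀ G : Fin 3 → ℝ, ∑ m, G m = G i + G j + G k := by
      intro G
      have : (Finset.univ : Finset (Fin 3)) = {i, j, k} := by
        ext m
        simp only [Finset.mem_univ, Finset.mem_insert, Finset.mem_singleton, true_iff]
        exact hcase m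
      rw [this, Finset.sum_insert (by simp [hij, hik]), Finset.sum_insert (by simp [hjk]),
        Finset.sum_singleton]
      ring
    have hsumN : ∀ G : Fin 3 → ℕ, G 0 + G 1 + G 2 = G i + G j + G k := by
      intro G
      have h1 := hsum (fun m => (G m : ℝ))
      rw [Fin.sum_univ_three] at h1
      exact_mod_cast h1
    set t1 : SS := enter i t0 with ht1
    have ht1' : t1 = { L := Function.update t0.L i [], f := Function.update t0.f i (r i), u := 0 } := by
      rw [ht1]
      unfold enter
      simp [ht0]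
    have hL1 : t1.L i = [] := by rw [ht1']; simp
    have hL2 : t1.L j = [r j] := by rw [ht1']; simp [Function.update_of_ne (Ne.symm hij), ht0]
    have hL3 : t1.L k = [r k] := by rw [ht1']; simp [Function.update_of_ne (Ne.symm hik), ht0]
    have hf1 : t1.f i = r i := by rw [ht1']; simp
    have hf2 : t1.f j = 0 := by rw [ht1']; simp [Function.update_of_ne (Ne.symm hij), ht0]
    have hf3 : t1.f k = 0 := by rw [ht1']; simp [Function.update_of_ne (Ne.symm hik), ht0]
    have hu1 : t1.u = 0 := by rw [ht1']
    have hpot : pot t1 = r i + r j + r k := by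
      have e1 : (t1.L 0).sum + (t1.L 1).sum + (t1.L 2).sum = (t1.L i).sum + (t1.L j).sum + (t1.L k).sum :=
        hsumN (fun m => (t1.L m).sum)
      have e2 := hsumN (fun m => t1.f m)
      unfold pot
      rw [e1, e2, hL1, hL2, hL3, hf1, hf2, hf3]
      simp; omega
    have heni : enter i t1 = t1 := by
      unfold enter
      simp [hL1]
    have henj : enter j t1 = { L := Function.update t1.L j [], f := Function.update t1.f j (r j), u := 0 } := by
      unfold enter
      simp only [hL2, hf2, zero_add, hu1]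
    have henk : enter k t1 = { L := Function.update t1.L k [], f := Function.update t1.f k (r k), u := 0 } := by
      unfold enter
      simp only [hL3, hf3, zero_add, hu1]
    have hFj : Fs (enter j t1) = r i + r j := by
      unfold Fs
      rw [hsumN, henj]
      simp [Function.update_of_ne hij, Function.update_of_ne (Ne.symm hjk), hf1, hf3]
    have hFk : Fs (enter k t1) = r i + r k := by
      unfold Fs
      rw [hsumN, henk]
      simp [Function.update_of_ne hik, Function.update_of_ne hjk, hf1, hf2]
    have e0 := val_one hc0 hc1 x i j k hij hik hjk r (pot t1) t1 hL1 hL2 hL3 hf2 hf3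
      (by rw [hpot, hf1])
    have e0' := val_one hc0 hc1 x i j k hij hik hjk r (pot t1) { t1 with u := t1.u + 1 }
      hL1 hL2 hL3 hf2 hf3 (by rw [hpot]; show t1.f i + r j + r k ≤ _; rw [hf1])
    have e2 := val_but hc0 hc1 x k (r k) (pot (enter j t1)) (enter j t1) (by
        intro m hm
        rw [henj]
        rcases hcase m with rfl | rfl | rfl
        · simp only [Function.update_of_ne hij]; exact hL1
        · simp
        · exact absurd rfl hm) (by
        rw [henj]
        simp only [Function.update_of_ne (Ne.symm hjk)]; exact hL3) (by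
        rw [henj]
        simp only [Function.update_of_ne (Ne.symm hjk)]; exact hf3)
        (by rw [hFj, pot_enter, hpot])
    have e3 := val_but hc0 hc1 x j (r j) (pot (enter k t1)) (enter k t1) (by
        intro m hm
        rw [henk]
        rcases hcase m with rfl | rfl | rfl
        · simp only [Function.update_of_ne hik]; exact hL1
        · exact absurd rfl hm
        · simp) (by
        rw [henk]
        simp only [Function.update_of_ne hjk]; exact hL2) (by
        rw [henk]
        simp only [Function.update_of_ne hjk]; exact hf2)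
        (by rw [hFk, pot_enter, hpot]; omega)
    rw [Fin.sum_univ_succ, hA]
    simp only [hθ]
    rw [hsum]
    have m0 : routeAll v (move 0 t1) = route v (pot t1) { t1 with u := t1.u + 1 } := rfl
    have m1 : ∀ m : Fin 3, routeAll v (move m.succ t1) = route v (pot (enter m t1)) (enter m t1) := by
      intro m; rfl
    rw [m0, m1, m1, m1, heni, e0, e0', e2, e3, hFj, hFk]
    have hu2 : (enter j t1).u = 0 := by rw [henj]
    have hu3 : (enter k t1).u = 0 := by rw [henk]
    rw [hu2, hu3]
    show A * (x ^ (t1.u + 1) * _) + _ = _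
    rw [hu1]
    show A * (x ^ (0 + 1) * ((a * x + 2 * b) ^ t1.f i * _ + (a * x + b) ^ t1.f i * _ +
      (a * x) ^ t1.f i * _)) + _ = _
    rw [hf1]
    unfold GG GG2
    simp only [zero_add, pow_one, pow_zero, one_mul, pow_add]
    ring
  have hph : (ph1 v t0).E w (fun t => x ^ t.u) =
      ∑ i : Fin 3, (1 / 3 : ℝ) *
        ∑ c : Fin 4, w v .own c * (routeAll v (move c (enter i t0))).E w (fun t => x ^ t.u) := by
    unfold ph1
    simp only [Prog.E]
    rw [Fin.sum_univ_succ, hp0, zero_mul, zero_add]
    refine Finset.sum_congr rfl fun i _ => ?_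
    rw [hp1]
    rfl
  rw [hph, Fin.sum_univ_three, key 0 1 2 (by decide) (by decide) (by decide),
    key 1 0 2 (by decide) (by decide) (by decide), key 2 0 1 (by decide) (by decide) (by decide)]
  unfold FF GG2
  ring

theorem sum_take_one_le (l : List ℕ) (m : ℕ) (hm : 1 ≤ m) : (l.take 1).sum ≤ (l.take m).sum := by
  cases l with
  | nil => simp
  | cons a l =>
    obtain ⟨m, rfl⟩ : ∃ m', m = m' + 1 := ⟨m - 1, by omega⟩
    simp

theorem E_aff {β : Type} {w : List (Fin 3) → Side → Fin 4 → ℝ} (hw : Wt w) (P : Prog β)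
    (c0 c1 c2 c3 : ℝ) (f1 f2 f3 : β → ℝ) :
    P.E w (fun r => c0 + c1 * f1 r + c2 * f2 r + c3 * f3 r) =
      c0 + c1 * P.E w f1 + c2 * P.E w f2 + c3 * P.E w f3 := by
  have h1 := E_lin w P 1 1 (fun r => c0 + c1 * f1 r + c2 * f2 r) (fun r => c3 * f3 r)
  have h2 := E_lin w P 1 1 (fun r => c0 + c1 * f1 r) (fun r => c2 * f2 r)
  have h3 := E_lin w P 1 c1 (fun _ => c0) f1
  have h4 := E_lin w P c2 0 f2 (fun _ => 0)
  have h5 := E_lin w P c3 0 f3 (fun _ => 0)
  simp only [one_mul, zero_mul, add_zero] at h1 h2 h3 h4 h5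
  rw [h1, h2, h3, h4, h5, E_const hw]

theorem main (h1 : S_COMP) (h2 : S_STARMONO) : S_FORM := by
  intro w hw h v a b A θ hA hθ hp0 hp1 hc0 hc1 x hx0 hx1
  -- one star
  have hstar : ∀ L : Fin 3 → List ℕ, (Pool.Agent.W847.T3.star v L).E w (fun o => x ^ (o.take 1).sum) ≤
      FF A θ x (fun i => (a * x) ^ ((L i).take 1).sum) (fun i => (a * x + b) ^ ((L i).take 1).sum)
        (fun i => (a * x + 2 * b) ^ ((L i).take 1).sum) := by
    intro L
    let L' : Fin 3 → List ℕ := fun i => [((L i).take 1).sum]
    have hle : (Pool.Agent.W847.T3.star v L).E w (fun o => x ^ (o.take 1).sum) ≤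
        (Pool.Agent.W847.T3.star v L').E w (fun o => x ^ (o.take 1).sum) := by
      refine h1 w hw _ _ (Pool.Agent.W847.T3.star v L) (Pool.Agent.W847.T3.star v L') _ _ fun ω _ => ?_
      have hL : ∀ i, Le (L' i) (L i) := by
        intro i m
        rcases Nat.eq_zero_or_pos m with rfl | hm
        · simp
        · obtain ⟨m, rfl⟩ : ∃ m', m = m' + 1 := ⟨m - 1, by omega⟩
          have := sum_take_one_le (L i) (m + 1) (by omega)
          simpa [L'] using this
      have h3 := h2 ω v L' L hL 1
      exact pow_le_pow_of_le_one hx0 hx1 h3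
    refine hle.trans (le_of_eq ?_)
    have h3 : (Pool.Agent.W847.T3.star v L').E w (fun o => x ^ (o.take 1).sum) =
        (ph1 v ⟨L', fun _ => 0, 0⟩).E w (fun t => x ^ t.u) := by
      unfold Pool.Agent.W847.T3.star
      rw [E_bind]
      congr 1
      funext t1
      rw [E_bind]
      have : ∀ t2 : SS, ((ph v t2).bind fun t3 =>
          (Prog.ret [t1.u, t2.u - t1.u, t3.u - t2.u] : Prog (List ℕ))).E w
            (fun o => x ^ (o.take 1).sum) = x ^ t1.u := by
        intro t2
        rw [E_bind]
        simp only [Prog.E, List.take_succ_cons, List.take_zero, List.sum_cons, List.sum_nil,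
          add_zero]
        rw [E_const hw]
      simp only [this]
      rw [E_const hw]
    rw [h3]
    exact ph1_val hA hθ hp0 hp1 hc0 hc1 x (fun i => ((L i).take 1).sum)
  -- average
  have hav : pgf w (h + 1) v x ≤ (tape h (0 :: v)).E w (fun la => (tape h (1 :: v)).E w (fun lb =>
      (tape h (2 :: v)).E w (fun lc => FF A θ x
        ![(a * x) ^ (la.take 1).sum, (a * x) ^ (lb.take 1).sum, (a * x) ^ (lc.take 1).sum]
        ![(a * x + b) ^ (la.take 1).sum, (a * x + b) ^ (lb.take 1).sum, (a * x + b) ^ (lc.take 1).sum]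
        ![(a * x + 2 * b) ^ (la.take 1).sum, (a * x + 2 * b) ^ (lb.take 1).sum,
          (a * x + 2 * b) ^ (lc.take 1).sum]))) := by
    unfold pgf
    show ((tape h (0 :: v)).bind fun a => (tape h (1 :: v)).bind fun b =>
      (tape h (2 :: v)).bind fun c => Pool.Agent.W847.T3.star v ![a, b, c]).E w _ ≤ _
    rw [E_bind]
    refine E_mono hw _ fun la => ?_
    rw [E_bind]
    refine E_mono hw _ fun lb => ?_
    rw [E_bind]
    refine E_mono hw _ fun lc => ?_
    refine (hstar ![la, lb, lc]).trans (le_of_eq ?_)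
    congr 1 <;> funext i <;> fin_cases i <;> rfl
  refine hav.trans (le_of_eq ?_)
  have hFFc : ∀ α0 α1 β0 β1 γ0 γ1 : ℝ, ∃ c0 c1 c2 c3 : ℝ, ∀ α2 β2 γ2 : ℝ,
      FF A θ x ![α0, α1, α2] ![β0, β1, β2] ![γ0, γ1, γ2] = c0 + c1 * α2 + c2 * β2 + c3 * γ2 := by
    intro α0 α1 β0 β1 γ0 γ1
    refine ⟨FF A θ x ![α0, α1, 0] ![β0, β1, 0] ![γ0, γ1, 0],
      FF A θ x ![α0, α1, 1] ![β0, β1, 0] ![γ0, γ1, 0] - FF A θ x ![α0, α1, 0] ![β0, β1, 0] ![γ0, γ1, 0],
      FF A θ x ![α0, α1, 0] ![β0, β1, 1] ![γ0, γ1, 0] - FF A θ x ![α0, α1, 0] ![β0, β1, 0] ![γ0, γ1, 0],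
      FF A θ x ![α0, α1, 0] ![β0, β1, 0] ![γ0, γ1, 1] - FF A θ x ![α0, α1, 0] ![β0, β1, 0] ![γ0, γ1, 0],
      fun α2 β2 γ2 => ?_⟩
    simp only [FF, GG, GG2, Matrix.cons_val_zero, Matrix.cons_val_one, Matrix.cons_val]
    ring
  have hFFb : ∀ α0 α2 β0 β2 γ0 γ2 : ℝ, ∃ c0 c1 c2 c3 : ℝ, ∀ α1 β1 γ1 : ℝ,
      FF A θ x ![α0, α1, α2] ![β0, β1, β2] ![γ0, γ1, γ2] = c0 + c1 * α1 + c2 * β1 + c3 * γ1 := by
    intro α0 α2 β0 β2 γ0 γ2
    refine ⟨FF A θ x ![α0, 0, α2] ![β0, 0, β2] ![γ0, 0, γ2],
      FF A θ x ![α0, 1, α2] ![β0, 0, β2] ![γ0, 0, γ2] - FF A θ x ![α0, 0, α2] ![β0, 0, β2] ![γ0, 0, γ2],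
      FF A θ x ![α0, 0, α2] ![β0, 1, β2] ![γ0, 0, γ2] - FF A θ x ![α0, 0, α2] ![β0, 0, β2] ![γ0, 0, γ2],
      FF A θ x ![α0, 0, α2] ![β0, 0, β2] ![γ0, 1, γ2] - FF A θ x ![α0, 0, α2] ![β0, 0, β2] ![γ0, 0, γ2],
      fun α1 β1 γ1 => ?_⟩
    simp only [FF, GG, GG2, Matrix.cons_val_zero, Matrix.cons_val_one, Matrix.cons_val]
    ring
  have hFFa : ∀ α1 α2 β1 β2 γ1 γ2 : ℝ, ∃ c0 c1 c2 c3 : ℝ, ∀ α0 β0 γ0 : ℝ,
      FF A θ x ![α0, α1, α2] ![β0, β1, β2] ![γ0, γ1, γ2] = c0 + c1 * α0 + c2 * β0 + c3 * γ0 := by
    intro α1 α2 β1 β2 γ1 γ2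
    refine ⟨FF A θ x ![0, α1, α2] ![0, β1, β2] ![0, γ1, γ2],
      FF A θ x ![1, α1, α2] ![0, β1, β2] ![0, γ1, γ2] - FF A θ x ![0, α1, α2] ![0, β1, β2] ![0, γ1, γ2],
      FF A θ x ![0, α1, α2] ![1, β1, β2] ![0, γ1, γ2] - FF A θ x ![0, α1, α2] ![0, β1, β2] ![0, γ1, γ2],
      FF A θ x ![0, α1, α2] ![0, β1, β2] ![1, γ1, γ2] - FF A θ x ![0, α1, α2] ![0, β1, β2] ![0, γ1, γ2],
      fun α0 β0 γ0 => ?_⟩
    simp only [FF, GG, GG2, Matrix.cons_val_zero, Matrix.cons_val_one, Matrix.cons_val]
    ring
  -- successive expectations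
  have hc : ∀ α0 α1 β0 β1 γ0 γ1 : ℝ, (tape h (2 :: v)).E w (fun lc => FF A θ x
        ![α0, α1, (a * x) ^ (lc.take 1).sum] ![β0, β1, (a * x + b) ^ (lc.take 1).sum]
        ![γ0, γ1, (a * x + 2 * b) ^ (lc.take 1).sum]) =
      FF A θ x ![α0, α1, pgf w h (2 :: v) (a * x)] ![β0, β1, pgf w h (2 :: v) (a * x + b)]
        ![γ0, γ1, pgf w h (2 :: v) (a * x + 2 * b)] := by
    intro α0 α1 β0 β1 γ0 γ1
    obtain ⟨c0, c1, c2, c3, hc⟩ := hFFc α0 α1 β0 β1 γ0 γ1
    simp only [hc]
    rw [E_aff hw]
    rfl
  have hb : ∀ α0 α2 β0 β2 γ0 γ2 : ℝ, (tape h (1 :: v)).E w (fun lb => FF A θ x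
        ![α0, (a * x) ^ (lb.take 1).sum, α2] ![β0, (a * x + b) ^ (lb.take 1).sum, β2]
        ![γ0, (a * x + 2 * b) ^ (lb.take 1).sum, γ2]) =
      FF A θ x ![α0, pgf w h (1 :: v) (a * x), α2] ![β0, pgf w h (1 :: v) (a * x + b), β2]
        ![γ0, pgf w h (1 :: v) (a * x + 2 * b), γ2] := by
    intro α0 α2 β0 β2 γ0 γ2
    obtain ⟨c0, c1, c2, c3, hc⟩ := hFFb α0 α2 β0 β2 γ0 γ2
    simp only [hc]
    rw [E_aff hw]
    rfl
  have ha : ∀ α1 α2 β1 β2 γ1 γ2 : ℝ, (tape h (0 :: v)).E w (fun la => FF A θ x
        ![(a * x) ^ (la.take 1).sum, α1, α2] ![(a * x + b) ^ (la.take 1).sum, β1, β2]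
        ![(a * x + 2 * b) ^ (la.take 1).sum, γ1, γ2]) =
      FF A θ x ![pgf w h (0 :: v) (a * x), α1, α2] ![pgf w h (0 :: v) (a * x + b), β1, β2]
        ![pgf w h (0 :: v) (a * x + 2 * b), γ1, γ2] := by
    intro α1 α2 β1 β2 γ1 γ2
    obtain ⟨c0, c1, c2, c3, hc⟩ := hFFa α1 α2 β1 β2 γ1 γ2
    simp only [hc]
    rw [E_aff hw]
    rfl
  simp only [hc, hb, ha]
  congr 1 <;> funext i <;> fin_cases i <;> rfl

end Pool.Agent.W565.T3FORM
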