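import Pool.Agent.W847.T3.Stm

/-! Part FT-INEQ (project FT of helper847). -/

set_option autoImplicit false

namespace Pool.Agent.W565.T3INEQ

open Pool.Agent.W847.T3

theorem G_le {B r a0 a1 a2 b1 b2 c1 c2 : ℝ} (hB0 : 0 ≤ B) (hB1 : B ≤ 1) (hr0 : 0 ≤ r) (hr1 : r ≤ 1)
    (ha0 : 0 ≤ a0) (ha1 : a0 ≤ a1) (ha2 : a1 ≤ a2) (haB : a2 ≤ B) (har : a1 ≤ B * r)
    (har2 : a0 ≤ 5 / 4 * B * r ^ 2)
    (hb1 : 0 ≤ b1) (hb2 : b1 ≤ b2) (hbB : b2 ≤ B) (hbr : b1 ≤ B * r)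
    (hc1 : 0 ≤ c1) (hc2 : c1 ≤ c2) (hcB : c2 ≤ B) (hcr : c1 ≤ B * r) :
    a2 * b2 * c2 + a1 * (b1 * (1 - c2) + c1 * (1 - b2)) +
      a0 * (1 - b2 * c2 - b1 * (1 - c2) - c1 * (1 - b2)) ≤
    B ^ 3 + 2 * B ^ 2 * r ^ 2 * (1 - B) + 5 / 4 * B * r ^ 2 * (1 - B ^ 2) := by
  have hb20 : 0 ≤ b2 := hb1.trans hb2
  have hc20 : 0 ≤ c2 := hc1.trans hc2
  have ha10 : 0 ≤ a1 := ha0.trans ha1
  -- a2
  have s1 : 0 ≤ (B - a2) * (b2 * c2) := mul_nonneg (by linarith) (mul_nonneg hb20 hc20)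
  -- b2
  have s2 : 0 ≤ (B - b2) * (c2 * (B - a0) - c1 * (a1 - a0)) := by
    refine mul_nonneg (by linarith) ?_
    have : c1 * (a1 - a0) ≤ c2 * (B - a0) :=
      mul_le_mul hc2 (by linarith) (by linarith) hc20
    linarith
  -- c2
  have s3 : 0 ≤ (B - c2) * (B * (B - a0) - b1 * (a1 - a0)) := by
    refine mul_nonneg (by linarith) ?_
    have : b1 * (a1 - a0) ≤ B * (B - a0) :=
      mul_le_mul (by linarith) (by linarith) (by linarith) hB0
    linarith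
  -- b1
  have s4 : 0 ≤ (B * r - b1) * ((a1 - a0) * (1 - B)) :=
    mul_nonneg (by linarith) (mul_nonneg (by linarith) (by linarith))
  -- c1
  have s5 : 0 ≤ (B * r - c1) * ((a1 - a0) * (1 - B)) :=
    mul_nonneg (by linarith) (mul_nonneg (by linarith) (by linarith))
  -- a1
  have hBr : 0 ≤ B * r := mul_nonneg hB0 hr0
  have s6 : 0 ≤ (B * r - a1) * (2 * (B * r) * (1 - B)) :=
    mul_nonneg (by linarith) (mul_nonneg (by linarith) (by linarith))
  -- a0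
  have hBr1 : B * r ≤ B := mul_le_of_le_one_right hB0 hr1
  have s7 : 0 ≤ (5 / 4 * B * r ^ 2 - a0) * (1 - B * B - 2 * (B * r) * (1 - B)) := by
    refine mul_nonneg (by linarith) ?_
    have h1 : 2 * (B * r) * (1 - B) ≤ 2 * B * (1 - B) :=
      mul_le_mul_of_nonneg_right (by linarith) (by linarith)
    nlinarith [mul_nonneg (sub_nonneg.mpr hB1) (sub_nonneg.mpr hB1)]
  -- the dropped term
  have s8 : 0 ≤ 5 / 4 * B * r ^ 2 * (2 * (B * r) * (1 - B)) :=
    mul_nonneg (by positivity) (mul_nonneg (by linarith) (by linarith))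
  nlinarith [s1, s2, s3, s4, s5, s6, s7, s8]

theorem G2_le {B r a1 a2 b1 b2 c2 : ℝ} (hB0 : 0 ≤ B) (hB1 : B ≤ 1) (hr0 : 0 ≤ r)
    (_ha1 : 0 ≤ a1) (ha2 : a1 ≤ a2) (haB : a2 ≤ B) (har : a1 ≤ B * r)
    (hb1 : 0 ≤ b1) (hb2 : b1 ≤ b2) (hbB : b2 ≤ B) (hbr : b1 ≤ B * r)
    (hc2 : 0 ≤ c2) (hcB : c2 ≤ B) :
    a2 * b2 * c2 + a1 * b1 * (1 - c2) ≤ B ^ 3 + B ^ 2 * r ^ 2 * (1 - B) := by
  have hb20 : 0 ≤ b2 := hb1.trans hb2
  have s1 : 0 ≤ (B - a2) * (b2 * c2) := mul_nonneg (by linarith) (mul_nonneg hb20 hc2)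
  have s2 : 0 ≤ (B - b2) * (B * c2) := mul_nonneg (by linarith) (mul_nonneg hB0 hc2)
  have s3 : 0 ≤ (B - c2) * (B * B - a1 * b1) := by
    refine mul_nonneg (by linarith) ?_
    have : a1 * b1 ≤ B * B := mul_le_mul (by linarith) (by linarith) hb1 hB0
    linarith
  have hBr : 0 ≤ B * r := mul_nonneg hB0 hr0
  have s4 : 0 ≤ (B * r - a1) * (b1 * (1 - B)) :=
    mul_nonneg (by linarith) (mul_nonneg hb1 (by linarith))
  have s5 : 0 ≤ (B * r - b1) * (B * r * (1 - B)) :=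
    mul_nonneg (by linarith) (mul_nonneg hBr (by linarith))
  nlinarith [s1, s2, s3, s4, s5]

theorem e1 : Real.exp (-1) ≤ 0.36788 := by
  have := Real.exp_neg_one_lt_d9
  linarith

theorem e2 : Real.exp (-2) ≤ 0.1354 := by
  have h : Real.exp (-2) = Real.exp (-1) ^ 2 := by rw [← Real.exp_nat_mul]; norm_num
  rw [h]
  calc Real.exp (-1) ^ 2 ≤ 0.36788 ^ 2 := pow_le_pow_left₀ (Real.exp_pos _).le e1 2
    _ ≤ 0.1354 := by norm_num

theorem e3 : Real.exp (-3) ≤ 0.0498 := by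
  have h : Real.exp (-3) = Real.exp (-1) ^ 3 := by rw [← Real.exp_nat_mul]; norm_num
  rw [h]
  calc Real.exp (-1) ^ 3 ≤ 0.36788 ^ 3 := pow_le_pow_left₀ (Real.exp_pos _).le e1 3
    _ ≤ 0.0498 := by norm_num

theorem e4 : Real.exp (-4) ≤ 0.0184 := by
  have h : Real.exp (-4) = Real.exp (-2) ^ 2 := by rw [← Real.exp_nat_mul]; norm_num
  rw [h]
  calc Real.exp (-2) ^ 2 ≤ 0.1354 ^ 2 := pow_le_pow_left₀ (Real.exp_pos _).le e2 2
    _ ≤ 0.0184 := by norm_num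

theorem chord {l u : ℝ} (h0 : 0 ≤ l) (h1 : l ≤ 1) : Real.exp (l * u) - 1 ≤ l * (Real.exp u - 1) := by
  have hc := convexOn_exp.2 (Set.mem_univ u) (Set.mem_univ (0 : ℝ)) h0
    (by linarith : (0 : ℝ) ≤ 1 - l) (by ring)
  simp only [smul_eq_mul, mul_zero, add_zero, Real.exp_zero] at hc
  linarith

theorem core {M x A θ : ℝ} (hM : 9 ≤ M) (hx0 : 0 ≤ x) (hx1 : x ≤ 1) (hA0 : 11 / 50 ≤ A)
    (hA1 : A ≤ 1 / 4) (hAθ : A + 3 * θ = 1) :
    (1 - A * (1 - x)) + 5 / 4 * (A * x + θ) * (Real.exp (-(2 * M * x / 3)) - Real.exp (-(2 * M / 3))) +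
      (2 * A * x + 4 * θ) * (Real.exp (-(M * (1 + x) / 3)) - Real.exp (-(2 * M / 3))) ≤
      Cx x * Real.exp (-((1 - x) / 100)) := by
  have hθ : θ = (1 - A) / 3 := by linarith
  have hexp : 1 - (1 - x) / 100 ≤ Real.exp (-((1 - x) / 100)) := by
    have := Real.add_one_le_exp (-((1 - x) / 100))
    linarith
  unfold Cx
  have hAx : 0 ≤ A * x := by positivity
  have hAx1 : A * x ≤ A := by nlinarith
  split_ifs with hx
  · -- x < 1/3
    have h1 : (A * x + θ) * (Real.exp (-(2 * M * x / 3)) - Real.exp (-(2 * M / 3))) ≤ θ := by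
      have hp : 0 ≤ A * x + θ := by rw [hθ]; linarith
      have h2 : Real.exp (-(2 * M * x / 3)) ≤ Real.exp (-(6 * x)) :=
        Real.exp_le_exp.mpr (by nlinarith)
      have h3 : Real.exp (-(6 * x)) ≤ 1 / (1 + 6 * x) := by
        rw [Real.exp_neg, inv_eq_one_div]
        apply one_div_le_one_div_of_le (by linarith)
        have := Real.add_one_le_exp (6 * x)
        linarith
      have h4 : Real.exp (-(2 * M * x / 3)) - Real.exp (-(2 * M / 3)) ≤ 1 / (1 + 6 * x) := by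
        have := Real.exp_pos (-(2 * M / 3))
        linarith
      calc (A * x + θ) * (Real.exp (-(2 * M * x / 3)) - Real.exp (-(2 * M / 3)))
          ≤ (A * x + θ) * (1 / (1 + 6 * x)) := mul_le_mul_of_nonneg_left h4 hp
        _ ≤ θ := by
            rw [mul_one_div, div_le_iff₀ (by linarith)]
            rw [hθ]; nlinarith
    have h2 : (2 * A * x + 4 * θ) * (Real.exp (-(M * (1 + x) / 3)) - Real.exp (-(2 * M / 3))) ≤
        4 * θ * 0.0498 := by
      have hp : 0 ≤ 2 * A * x + 4 * θ := by rw [hθ]; nlinarith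
      have h3 : Real.exp (-(M * (1 + x) / 3)) ≤ Real.exp (-3) * Real.exp (-(3 * x)) := by
        rw [← Real.exp_add]
        exact Real.exp_le_exp.mpr (by nlinarith)
      have h4 : Real.exp (-(3 * x)) ≤ 1 / (1 + 3 * x) := by
        rw [Real.exp_neg, inv_eq_one_div]
        apply one_div_le_one_div_of_le (by linarith)
        have := Real.add_one_le_exp (3 * x)
        linarith
      have h5 : Real.exp (-(M * (1 + x) / 3)) - Real.exp (-(2 * M / 3)) ≤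
          0.0498 * (1 / (1 + 3 * x)) := by
        have h6 := Real.exp_pos (-(2 * M / 3))
        have h7 : Real.exp (-3) * Real.exp (-(3 * x)) ≤ 0.0498 * (1 / (1 + 3 * x)) :=
          mul_le_mul e3 h4 (Real.exp_pos _).le (by norm_num)
        linarith
      calc (2 * A * x + 4 * θ) * (Real.exp (-(M * (1 + x) / 3)) - Real.exp (-(2 * M / 3)))
          ≤ (2 * A * x + 4 * θ) * (0.0498 * (1 / (1 + 3 * x))) := mul_le_mul_of_nonneg_left h5 hp
        _ = 0.0498 * ((2 * A * x + 4 * θ) / (1 + 3 * x)) := by ring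
        _ ≤ 0.0498 * (4 * θ) := by
            apply mul_le_mul_of_nonneg_left _ (by norm_num)
            rw [div_le_iff₀ (by linarith), hθ]
            nlinarith
        _ = 4 * θ * 0.0498 := by ring
    have h3 : A * (2 / 3) ≤ A * (1 - x) := mul_le_mul_of_nonneg_left (by linarith) (by linarith)
    have h4 : (5 / 4 : ℝ) * (1 - (1 - x) / 100) ≤ 5 / 4 * Real.exp (-((1 - x) / 100)) := by linarith
    refine le_trans ?_ h4
    rw [hθ] at *
    nlinarith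
  · -- 1/3 ≤ x
    push Not at hx
    set t : ℝ := 1 - x with ht
    have ht0 : 0 ≤ t := by linarith
    have ht1 : t ≤ 2 / 3 := by linarith
    have hl0 : 0 ≤ 3 * t / 2 := by linarith
    have hl1 : 3 * t / 2 ≤ 1 := by linarith
    have h1 : Real.exp (-(2 * M * x / 3)) - Real.exp (-(2 * M / 3)) ≤ 3 * t / 2 * 0.1354 := by
      have hc := chord (u := 4 * M / 9) hl0 hl1
      have e : Real.exp (-(2 * M * x / 3)) = Real.exp (-(2 * M / 3)) * Real.exp (3 * t / 2 * (4 * M / 9)) := by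
        rw [← Real.exp_add]; congr 1; rw [ht]; ring
      rw [e]
      have h2 : Real.exp (-(2 * M / 3)) * (Real.exp (4 * M / 9) - 1) ≤ 0.1354 := by
        have h3 : Real.exp (-(2 * M / 3)) * Real.exp (4 * M / 9) ≤ Real.exp (-2) := by
          rw [← Real.exp_add]
          exact Real.exp_le_exp.mpr (by linarith)
        have h4 := Real.exp_pos (-(2 * M / 3))
        have h5 := e2
        linarith
      calc Real.exp (-(2 * M / 3)) * Real.exp (3 * t / 2 * (4 * M / 9)) - Real.exp (-(2 * M / 3))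
          = Real.exp (-(2 * M / 3)) * (Real.exp (3 * t / 2 * (4 * M / 9)) - 1) := by ring
        _ ≤ Real.exp (-(2 * M / 3)) * (3 * t / 2 * (Real.exp (4 * M / 9) - 1)) :=
            mul_le_mul_of_nonneg_left hc (Real.exp_pos _).le
        _ = 3 * t / 2 * (Real.exp (-(2 * M / 3)) * (Real.exp (4 * M / 9) - 1)) := by ring
        _ ≤ 3 * t / 2 * 0.1354 := mul_le_mul_of_nonneg_left h2 hl0
    have h2 : Real.exp (-(M * (1 + x) / 3)) - Real.exp (-(2 * M / 3)) ≤ 3 * t / 2 * 0.0184 := by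
      have hc := chord (u := 2 * M / 9) hl0 hl1
      have e : Real.exp (-(M * (1 + x) / 3)) = Real.exp (-(2 * M / 3)) * Real.exp (3 * t / 2 * (2 * M / 9)) := by
        rw [← Real.exp_add]; congr 1; rw [ht]; ring
      rw [e]
      have h2 : Real.exp (-(2 * M / 3)) * (Real.exp (2 * M / 9) - 1) ≤ 0.0184 := by
        have h3 : Real.exp (-(2 * M / 3)) * Real.exp (2 * M / 9) ≤ Real.exp (-4) := by
          rw [← Real.exp_add]
          exact Real.exp_le_exp.mpr (by linarith)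
        have h4 := Real.exp_pos (-(2 * M / 3))
        have h5 := e4
        linarith
      calc Real.exp (-(2 * M / 3)) * Real.exp (3 * t / 2 * (2 * M / 9)) - Real.exp (-(2 * M / 3))
          = Real.exp (-(2 * M / 3)) * (Real.exp (3 * t / 2 * (2 * M / 9)) - 1) := by ring
        _ ≤ Real.exp (-(2 * M / 3)) * (3 * t / 2 * (Real.exp (2 * M / 9) - 1)) :=
            mul_le_mul_of_nonneg_left hc (Real.exp_pos _).le
        _ = 3 * t / 2 * (Real.exp (-(2 * M / 3)) * (Real.exp (2 * M / 9) - 1)) := by ring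
        _ ≤ 3 * t / 2 * 0.0184 := mul_le_mul_of_nonneg_left h2 hl0
    have h3 : 5 / 4 * (A * x + θ) * (Real.exp (-(2 * M * x / 3)) - Real.exp (-(2 * M / 3))) ≤
        5 / 8 * (3 * t / 2 * 0.1354) := by
      have h4 : 5 / 4 * (A * x + θ) ≤ 5 / 8 := by rw [hθ]; linarith
      have h5 : 0 ≤ 5 / 4 * (A * x + θ) := by rw [hθ]; linarith
      calc 5 / 4 * (A * x + θ) * (Real.exp (-(2 * M * x / 3)) - Real.exp (-(2 * M / 3)))
          ≤ 5 / 4 * (A * x + θ) * (3 * t / 2 * 0.1354) := mul_le_mul_of_nonneg_left h1 h5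
        _ ≤ 5 / 8 * (3 * t / 2 * 0.1354) := mul_le_mul_of_nonneg_right h4 (by positivity)
    have h4 : (2 * A * x + 4 * θ) * (Real.exp (-(M * (1 + x) / 3)) - Real.exp (-(2 * M / 3))) ≤
        3 / 2 * (3 * t / 2 * 0.0184) := by
      have h6 : 2 * A * x + 4 * θ ≤ 3 / 2 := by rw [hθ]; linarith
      have h5 : 0 ≤ 2 * A * x + 4 * θ := by rw [hθ]; linarith
      calc (2 * A * x + 4 * θ) * (Real.exp (-(M * (1 + x) / 3)) - Real.exp (-(2 * M / 3)))
          ≤ (2 * A * x + 4 * θ) * (3 * t / 2 * 0.0184) := mul_le_mul_of_nonneg_left h2 h5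
        _ ≤ 3 / 2 * (3 * t / 2 * 0.0184) := mul_le_mul_of_nonneg_right h6 (by positivity)
    have h5 : 11 / 50 * t ≤ A * t := mul_le_mul_of_nonneg_right hA0 ht0
    rw [one_mul]
    refine le_trans ?_ hexp
    nlinarith

theorem main : S_INEQ := by
  intro M x A θ s0 s1 s2 hM hx0 hx1 hA0 hA1 hAθ h0 h01 h12 hs2 hs1 hs0
  set B : ℝ := Real.exp (-(M * (1 - x) / 3)) with hB
  set r : ℝ := Real.exp (-(M / 3)) with hr
  have hB0 : 0 < B := Real.exp_pos _
  have hr0 : 0 < r := Real.exp_pos _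
  have hB1 : B ≤ 1 := by
    rw [hB, Real.exp_le_one_iff]
    have : 0 ≤ M * (1 - x) := mul_nonneg (by linarith) (by linarith)
    linarith
  have hr1 : r ≤ 1 := by rw [hr, Real.exp_le_one_iff]; linarith
  have hθ : θ = (1 - A) / 3 := by linarith
  have hθ0 : 0 ≤ θ := by rw [hθ]; linarith
  have h1 : ∀ i, 0 ≤ s1 i := fun i => (h0 i).trans (h01 i)
  have h2 : ∀ i, 0 ≤ s2 i := fun i => (h1 i).trans (h12 i)
  have hG : ∀ i j k, GG s0 s1 s2 i j k ≤ B ^ 3 + 2 * B ^ 2 * r ^ 2 * (1 - B) +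
      5 / 4 * B * r ^ 2 * (1 - B ^ 2) := fun i j k =>
    G_le hB0.le hB1 hr0.le hr1 (h0 i) (h01 i) (h12 i) (hs2 i) (hs1 i) (hs0 i)
      (h1 j) (h12 j) (hs2 j) (hs1 j) (h1 k) (h12 k) (hs2 k) (hs1 k)
  have hG2 : ∀ i j k, GG2 s1 s2 i j k ≤ B ^ 3 + B ^ 2 * r ^ 2 * (1 - B) := fun i j k =>
    G2_le hB0.le hB1 hr0.le (h1 i) (h12 i) (hs2 i) (hs1 i) (h1 j) (h12 j) (hs2 j) (hs1 j)
      (h2 k) (hs2 k)
  have hAxθ : 0 ≤ A * x + θ := by
    have : 0 ≤ A * x := mul_nonneg (by linarith) hx0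
    linarith
  have hFF : FF A θ x s0 s1 s2 ≤ (A * x + θ) * (B ^ 3 + 2 * B ^ 2 * r ^ 2 * (1 - B) +
      5 / 4 * B * r ^ 2 * (1 - B ^ 2)) + 2 * θ * (B ^ 3 + B ^ 2 * r ^ 2 * (1 - B)) := by
    unfold FF
    have a1 : (A * x + θ) * (GG s0 s1 s2 0 1 2 + GG s0 s1 s2 1 0 2 + GG s0 s1 s2 2 0 1) ≤
        (A * x + θ) * (3 * (B ^ 3 + 2 * B ^ 2 * r ^ 2 * (1 - B) +
      5 / 4 * B * r ^ 2 * (1 - B ^ 2))) :=
      mul_le_mul_of_nonneg_left (by linarith [hG 0 1 2, hG 1 0 2, hG 2 0 1]) hAxθ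
    have a2 : 2 * θ * (GG2 s1 s2 0 1 2 + GG2 s1 s2 0 2 1 + GG2 s1 s2 1 2 0) ≤
        2 * θ * (3 * (B ^ 3 + B ^ 2 * r ^ 2 * (1 - B))) :=
      mul_le_mul_of_nonneg_left (by linarith [hG2 0 1 2, hG2 0 2 1, hG2 1 2 0]) (by linarith)
    linarith
  have hcore := core hM hx0 hx1 hA0 hA1 hAθ
  have b3 : B ^ 3 = Real.exp (-(M * (1 - x))) := by
    rw [hB, ← Real.exp_nat_mul]; congr 1; push_cast; ring
  have b2 : B ^ 2 * r ^ 2 * (1 - B) =
      B ^ 3 * (Real.exp (-(M * (1 + x) / 3)) - Real.exp (-(2 * M / 3))) := by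
    have q1 : B ^ 3 * Real.exp (-(M * (1 + x) / 3)) = B ^ 2 * r ^ 2 := by
      rw [hB, hr, ← Real.exp_nat_mul, ← Real.exp_nat_mul, ← Real.exp_nat_mul, ← Real.exp_add,
        ← Real.exp_add]
      congr 1; push_cast; ring
    have q2 : Real.exp (-(2 * M / 3)) = r ^ 2 := by
      rw [hr, ← Real.exp_nat_mul]; congr 1; push_cast; ring
    linear_combination (-1) * q1 + B ^ 3 * q2
  have b1 : B * r ^ 2 * (1 - B ^ 2) =
      B ^ 3 * (Real.exp (-(2 * M * x / 3)) - Real.exp (-(2 * M / 3))) := by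
    have q1 : B ^ 3 * Real.exp (-(2 * M * x / 3)) = B * r ^ 2 := by
      rw [hB, hr, ← Real.exp_nat_mul, ← Real.exp_nat_mul, ← Real.exp_add,
        ← Real.exp_add]
      congr 1; push_cast; ring
    have q2 : Real.exp (-(2 * M / 3)) = r ^ 2 := by
      rw [hr, ← Real.exp_nat_mul]; congr 1; push_cast; ring
    linear_combination (-1) * q1 + B ^ 3 * q2
  calc FF A θ x s0 s1 s2 ≤ (A * x + θ) * (B ^ 3 + 2 * B ^ 2 * r ^ 2 * (1 - B) +
      5 / 4 * B * r ^ 2 * (1 - B ^ 2)) + 2 * θ * (B ^ 3 + B ^ 2 * r ^ 2 * (1 - B)) := hFF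
    _ = (A * x + 3 * θ) * B ^ 3 + (2 * A * x + 4 * θ) * (B ^ 2 * r ^ 2 * (1 - B)) +
        5 / 4 * (A * x + θ) * (B * r ^ 2 * (1 - B ^ 2)) := by ring
    _ = B ^ 3 * ((1 - A * (1 - x)) + 5 / 4 * (A * x + θ) *
          (Real.exp (-(2 * M * x / 3)) - Real.exp (-(2 * M / 3))) +
      (2 * A * x + 4 * θ) * (Real.exp (-(M * (1 + x) / 3)) - Real.exp (-(2 * M / 3)))) := by
        rw [b2, b1]
        have : A * x + 3 * θ = 1 - A * (1 - x) := by linarith
        rw [this]; ring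
    _ ≤ B ^ 3 * (Cx x * Real.exp (-((1 - x) / 100))) :=
        mul_le_mul_of_nonneg_left hcore (by positivity)
    _ = Cx x * Real.exp (-((M + 1 / 100) * (1 - x))) := by
        rw [b3]
        have : Real.exp (-((M + 1 / 100) * (1 - x))) =
            Real.exp (-(M * (1 - x))) * Real.exp (-((1 - x) / 100)) := by
          rw [← Real.exp_add]; congr 1; ring
        rw [this]; ring

end Pool.Agent.W565.T3INEQ
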