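import Pool.Agent.W565.T3E

/-! Part FT-STC (project FT of helper847). -/

set_option autoImplicit false

namespace Pool.Agent.W565.T3STC

open Pool.Agent.W847.T3 Pool.Agent.W565.T3E

theorem pgf_nonneg {w : List (Fin 3) → Side → Fin 4 → ℝ} (hw : Wt w) (h : ℕ) (v : List (Fin 3))
    {x : ℝ} (hx : 0 ≤ x) : 0 ≤ pgf w h v x :=
  E_nonneg hw _ fun _ => pow_nonneg hx _

theorem pgf_mono {w : List (Fin 3) → Side → Fin 4 → ℝ} (hw : Wt w) (h : ℕ) (v : List (Fin 3))
    {x y : ℝ} (hx : 0 ≤ x) (hxy : x ≤ y) : pgf w h v x ≤ pgf w h v y :=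
  E_mono hw _ fun _ => pow_le_pow_left₀ hx hxy _

theorem psi_bounds {u c : ℝ} (h1 : 4 / 7 ≤ u) (h2 : u ≤ c) (h3 : 2 / 3 ≤ c) (h4 : c ≤ 27 / 40) :
    4 / 9 ≤ u * (3 * c) / (u + 3 * c) ∧ u * (3 * c) / (u + 3 * c) ≤ 81 / 160 := by
  have hp : 0 < u + 3 * c := by linarith
  constructor
  · rw [div_le_div_iff₀ (by norm_num) hp]
    nlinarith [mul_nonneg (by linarith : (0 : ℝ) ≤ u - 4 / 7) (by linarith : (0 : ℝ) ≤ 27 * c - 4)]
  · rw [div_le_div_iff₀ hp (by norm_num)]
    nlinarith [mul_nonneg (by linarith : (0 : ℝ) ≤ c - u) (by linarith : (0 : ℝ) ≤ c),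
      mul_nonneg (by linarith : (0 : ℝ) ≤ 27 / 40 - c) (by linarith : (0 : ℝ) ≤ u),
      mul_nonneg (by linarith : (0 : ℝ) ≤ 27 / 40 - c) (by linarith : (0 : ℝ) ≤ c)]

theorem main (h1 : S_WTS) (h2 : S_FORM) (h3 : S_INEQ) (h4 : S_LEV) : S_STC := by
  intro n l1 hl1 hn hbase
  have hw : Wt (wq n) := h1 n
  have hpsi : ∀ l, 1 ≤ l → l + 5 ≤ n → 4 / 9 ≤ psi n l ∧ psi n l ≤ 81 / 160 := by
    intro l hl hln
    obtain ⟨a1, a2, a3, a4, _⟩ := h4 n l hl hln
    exact psi_bounds a1 a2 a3 a4
  obtain ⟨q1, q2⟩ := hpsi l1 hl1 hn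
  have hCx1 : ∀ x, 1 ≤ Cx x := by intro x; unfold Cx; split_ifs <;> norm_num
  have hCx2 : ∀ x, Cx x ≤ 5 / 4 := by intro x; unfold Cx; split_ifs <;> norm_num
  -- induction on k = l1 - l
  have key : ∀ k l : ℕ, l + k = l1 → 1 ≤ l → ∀ v : List (Fin 3), v.length = l →
      ∀ x : ℝ, 0 ≤ x → x ≤ 1 → pgf (wq n) (n - l) v x ≤
      Cx x * Real.exp (-((11 / psi n l1 + 19 / 1000 * ((l1 : ℝ) - l)) * psi n l * (1 - x))) := by
    intro k
    induction k with
    | zero =>
      intro l hlk hl v hv x hx0 hx1
      have : l = l1 := by omega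
      subst this
      have e : (11 / psi n l + 19 / 1000 * ((l : ℝ) - l)) * psi n l * (1 - x) = 11 * (1 - x) := by
        have : psi n l ≠ 0 := by linarith
        field_simp
        ring
      rw [e]
      calc pgf (wq n) (n - l) v x ≤ Real.exp (-(11 * (1 - x))) := hbase v hv x hx0 hx1
        _ = 1 * Real.exp (-(11 * (1 - x))) := by rw [one_mul]
        _ ≤ Cx x * Real.exp (-(11 * (1 - x))) :=
            mul_le_mul_of_nonneg_right (hCx1 x) (Real.exp_pos _).le
    | succ k ih =>
      intro l hlk hl v hv x hx0 hx1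
      have hl5 : l + 5 ≤ n := by omega
      obtain ⟨a1, a2, a3, a4, a5⟩ := h4 n l hl hl5
      obtain ⟨p1, p2⟩ := hpsi l hl hl5
      obtain ⟨p1', p2'⟩ := hpsi (l + 1) (by omega) (by omega)
      set u := U n l with hu
      set c := cc n l with hc
      have hu0 : 0 < u := by linarith
      have hc0 : 0 < c := by linarith
      have hd2 : 0 < u + 2 * c := by linarith
      have hd3 : 0 < u + 3 * c := by linarith
      set a : ℝ := u / (u + 2 * c) with ha
      set b : ℝ := c / (u + 2 * c) with hb
      set A : ℝ := u / (u + 3 * c) with hA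
      set θ : ℝ := c / (u + 3 * c) with hθ
      have ha0 : 0 < a := by positivity
      have hb0 : 0 < b := by positivity
      have hab : a + 2 * b = 1 := by rw [ha, hb]; field_simp
      have hAθ : A + 3 * θ = 1 := by rw [hA, hθ]; field_simp
      have ha3 : a ≤ 1 / 3 := by rw [ha, div_le_div_iff₀ hd2 (by norm_num)]; linarith
      have hb3 : 1 / 3 ≤ b := by linarith
      have hA4 : A ≤ 1 / 4 := by rw [hA, div_le_div_iff₀ hd3 (by norm_num)]; linarith
      have hA5 : 11 / 50 ≤ A := by rw [hA, div_le_div_iff₀ (by norm_num) hd3]; linarith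
      have hform := h2 (wq n) hw (n - (l + 1)) v a b A θ
        (by simp [wq, wl, hv, hA, hu, hc]) (by intro j; simp [wq, wl, hv, hθ, hu, hc, Fin.succ_ne_zero])
        (by simp [wq, wl]) (by intro j; simp [wq, wl, Fin.succ_ne_zero])
        (by intro i; simp [wq, wl, hv, ha, hu, hc])
        (by
          intro i j
          by_cases hij : i = j
          · subst hij; simp [wq, wl, Fin.succ_ne_zero]
          · have hji : ¬ j = i := fun e => hij e.symm
            simp [wq, wl, hv, hb, hu, hc, Fin.succ_ne_zero, Fin.succ_inj, hij, hji])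
        x hx0 hx1
      have hnl : n - l = n - (l + 1) + 1 := by omega
      rw [hnl]
      refine hform.trans ?_
      -- the induction hypothesis
      set lam : ℝ := 11 / psi n l1 + 19 / 1000 * ((l1 : ℝ) - ((l + 1 : ℕ) : ℝ)) with hlam
      have hll : (0 : ℝ) ≤ (l1 : ℝ) - ((l + 1 : ℕ) : ℝ) := by
        have : ((l + 1 : ℕ) : ℝ) ≤ (l1 : ℝ) := by exact_mod_cast (by omega : l + 1 ≤ l1)
        linarith
      have hlam0 : 11 * 160 / 81 ≤ lam := by
        have : 11 * 160 / 81 ≤ 11 / psi n l1 := by
          rw [div_le_div_iff₀ (by norm_num) (by linarith)]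
          linarith
        linarith
      set M : ℝ := lam * psi n l with hMdef
      have hM : 9 ≤ M := by
        calc (9 : ℝ) ≤ 11 * 160 / 81 * (4 / 9) := by norm_num
          _ ≤ lam * psi n l := mul_le_mul hlam0 p1 (by norm_num) (by linarith)
      have hpsi' : a * psi n (l + 1) = psi n l / 3 := a5
      have hM3 : lam * psi n (l + 1) * a = M / 3 := by
        rw [hMdef]
        calc lam * psi n (l + 1) * a = lam * (a * psi n (l + 1)) := by ring
          _ = lam * (psi n l / 3) := by rw [hpsi']
          _ = lam * psi n l / 3 := by ring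
      have hlp : 0 ≤ lam * psi n (l + 1) := mul_nonneg (by linarith) (by linarith)
      have hIH : ∀ i : Fin 3, ∀ y : ℝ, 0 ≤ y → y ≤ 1 →
          pgf (wq n) (n - (l + 1)) (i :: v) y ≤
          Cx y * Real.exp (-(lam * psi n (l + 1) * (1 - y))) := fun i y hy0 hy1 =>
        ih (l + 1) (by omega) (by omega) (i :: v) (by simp [hv]) y hy0 hy1
      have hax0 : 0 ≤ a * x := mul_nonneg ha0.le hx0
      have hax1 : a * x ≤ a := mul_le_of_le_one_right ha0.le hx1
      have hineq := h3 M x A θ (fun i => pgf (wq n) (n - (l + 1)) (i :: v) (a * x))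
        (fun i => pgf (wq n) (n - (l + 1)) (i :: v) (a * x + b))
        (fun i => pgf (wq n) (n - (l + 1)) (i :: v) (a * x + 2 * b)) hM hx0 hx1 hA5 hA4 hAθ
        (fun i => pgf_nonneg hw _ _ hax0)
        (fun i => pgf_mono hw _ _ hax0 (by linarith))
        (fun i => pgf_mono hw _ _ (by linarith) (by linarith))
        (fun i => by
          have h5 := hIH i (a * x + 2 * b) (by linarith) (by linarith)
          have h6 : Cx (a * x + 2 * b) = 1 := by
            unfold Cx; rw [if_neg]; push Not; linarith
          rw [h6, one_mul] at h5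
          refine h5.trans (le_of_eq ?_)
          congr 1
          have : 1 - (a * x + 2 * b) = a * (1 - x) := by linarith
          rw [this]
          calc -(lam * psi n (l + 1) * (a * (1 - x))) = -(lam * psi n (l + 1) * a * (1 - x)) := by ring
            _ = -(M * (1 - x) / 3) := by rw [hM3]; ring)
        (fun i => by
          have h5 := hIH i (a * x + b) (by linarith) (by linarith)
          have h6 : Cx (a * x + b) = 1 := by
            unfold Cx; rw [if_neg]; push Not; linarith
          rw [h6, one_mul] at h5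
          refine h5.trans ?_
          rw [← Real.exp_add]
          apply Real.exp_le_exp.mpr
          have e1 : 1 - (a * x + b) = a * (1 - x) + b := by linarith
          rw [e1]
          have e2 : lam * psi n (l + 1) * a ≤ lam * psi n (l + 1) * b :=
            mul_le_mul_of_nonneg_left (by linarith) hlp
          have e3 : lam * psi n (l + 1) * (a * (1 - x) + b) =
              lam * psi n (l + 1) * a * (1 - x) + lam * psi n (l + 1) * b := by ring
          rw [e3, hM3]
          rw [hM3] at e2
          linarith)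
        (fun i => by
          have h5 := hIH i (a * x) hax0 (by linarith)
          have h6 := hCx2 (a * x)
          have h7 : Real.exp (-(lam * psi n (l + 1) * (1 - a * x))) ≤
              Real.exp (-(M * (1 - x) / 3)) * Real.exp (-(M / 3)) ^ 2 := by
            rw [← Real.exp_nat_mul, ← Real.exp_add]
            apply Real.exp_le_exp.mpr
            have e1 : 1 - a * x = a * (1 - x) + 2 * b := by linarith
            rw [e1]
            have e2 : lam * psi n (l + 1) * a ≤ lam * psi n (l + 1) * b :=
              mul_le_mul_of_nonneg_left (by linarith) hlp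
            have e3 : lam * psi n (l + 1) * (a * (1 - x) + 2 * b) =
                lam * psi n (l + 1) * a * (1 - x) + 2 * (lam * psi n (l + 1) * b) := by ring
            rw [e3, hM3]
            rw [hM3] at e2
            push_cast
            linarith
          calc pgf (wq n) (n - (l + 1)) (i :: v) (a * x)
              ≤ Cx (a * x) * Real.exp (-(lam * psi n (l + 1) * (1 - a * x))) := h5
            _ ≤ 5 / 4 * (Real.exp (-(M * (1 - x) / 3)) * Real.exp (-(M / 3)) ^ 2) :=
                mul_le_mul h6 h7 (Real.exp_pos _).le (by norm_num)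
            _ = 5 / 4 * Real.exp (-(M * (1 - x) / 3)) * Real.exp (-(M / 3)) ^ 2 := by ring)
      refine hineq.trans ?_
      have hCx0 : 0 ≤ Cx x := by linarith [hCx1 x]
      refine mul_le_mul_of_nonneg_left (Real.exp_le_exp.mpr ?_) hCx0
      rw [neg_le_neg_iff]
      refine mul_le_mul_of_nonneg_right ?_ (by linarith)
      have e1 : 11 / psi n l1 + 19 / 1000 * ((l1 : ℝ) - l) = lam + 19 / 1000 := by
        rw [hlam]; push_cast; ring
      rw [e1, add_mul]
      linarith
  intro l hl hll v hv x hx0 hx1
  exact key (l1 - l) l (by omega) hl v hv x hx0 hx1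

end Pool.Agent.W565.T3STC
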