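import Pool.Agent.W982.TA.Stm2

/-!
# TA-S1: classification of the primitive vectors
-/

set_option autoImplicit false

namespace Pool.Agent.W982.TA

theorem s1_det : ∀ k < 24, dtv (dv k) (dv (k + 1)) = 1 := by decide

theorem s1_key (k : ℕ) (hk : k < 24) (v : Pt) (hg : Int.gcd v.1 v.2 = 1)
    (h1 : 0 ≤ dtv (dv k) v) (h2 : dtv (dv (k + 1)) v < 0) : ∃ k' < 48, HasT k' v := by
  have hd := s1_det k hk
  set u := dv k with hu
  set w := dv (k + 1) with hw
  obtain ⟨i, hi⟩ : ∃ i : ℤ, i = -dtv w v := ⟨_, rfl⟩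
  obtain ⟨j, hj⟩ : ∃ j : ℤ, j = dtv u v := ⟨_, rfl⟩
  have hi1 : 1 ≤ i := by omega
  have hj0 : 0 ≤ j := by omega
  have e1 : v.1 = i * u.1 + j * w.1 := by
    rw [hi, hj]
    unfold dtv at hd ⊢
    linear_combination (-v.1) * hd
  have e2 : v.2 = i * u.2 + j * w.2 := by
    rw [hi, hj]
    unfold dtv at hd ⊢
    linear_combination (-v.2) * hd
  by_cases hj1 : j = 0
  · refine ⟨k, by omega, ?_⟩
    unfold HasT
    rw [if_pos hk, ← hu]
    rw [hj1, zero_mul, add_zero] at e1 e2
    rw [e1, e2, Int.gcd_mul_left] at hg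
    have h3 : i.natAbs = 1 := Nat.eq_one_of_mul_eq_one_right hg
    have h4 : i = 1 := by omega
    rw [h4, one_mul] at e1 e2
    exact Prod.ext e1 e2
  · refine ⟨k + 24, by omega, ?_⟩
    unfold HasT
    rw [if_neg (by omega)]
    refine ⟨i, j, hi1, by omega, ?_⟩
    have h5 : k + 24 - 24 = k := by omega
    have h6 : k + 24 - 23 = k + 1 := by omega
    rw [h5, h6, ← hu, ← hw]
    exact Prod.ext e1 e2

theorem s1 : TaskS1 := by
  intro v hn hg
  rcases hn with hn | ⟨hb, ha⟩
  · have h0 : 0 ≤ dtv (dv 0) v := by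
      have : dv 0 = (1, 0) := rfl
      rw [this]
      unfold dtv
      simp only
      omega
    have h24 : dtv (dv 24) v < 0 := by
      have : dv 24 = (-1, 0) := rfl
      rw [this]
      unfold dtv
      simp only
      omega
    by_contra hc
    have hall : ∀ k ≤ 24, 0 ≤ dtv (dv k) v := by
      intro k
      induction k with
      | zero => exact fun _ => h0
      | succ k ih =>
        intro hk
        by_contra h3
        exact hc (s1_key k (by omega) v hg (ih (by omega)) (by omega))
    have := hall 24 le_rfl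
    omega
  · refine ⟨0, by norm_num, ?_⟩
    unfold HasT
    rw [if_pos (by norm_num)]
    rw [hb, Int.gcd_zero_right] at hg
    have h1 : v.1 = 1 := by omega
    exact Prod.ext h1 hb

end Pool.Agent.W982.TA
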