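import Pool.Agent.W76.MO.Stmts
import Pool.Agent.H469R2.NK.ExpSum

/-! MO-FS: sums of fractional parts (MP_a187e6_nt). -/

set_option autoImplicit false

namespace Pool.Agent.W565.MOFS

open Finset Filter Topology
open Pool.Agent.H469R2.NK (e norm_e e_add)

/-- the second Bernoulli polynomial -/
noncomputable def P2 (t : ℝ) : ℝ := t ^ 2 - t + 1 / 6

theorem cos_sum (x : ℝ) : HasSum (fun n : ℕ => 1 / (n : ℝ) ^ 2 * Real.cos (2 * Real.pi * n * x))
    (Real.pi ^ 2 * P2 (Int.fract x)) := by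
  have h := hasSum_one_div_nat_pow_mul_cos (k := 1) one_ne_zero (x := Int.fract x)
    ⟨Int.fract_nonneg x, (Int.fract_lt_one x).le⟩
  have h1 : (-1 : ℝ) ^ (1 + 1) * (2 * Real.pi) ^ (2 * 1) / 2 / (Nat.factorial (2 * 1) : ℝ) *
        (Polynomial.map (algebraMap ℚ ℝ) (Polynomial.bernoulli (2 * 1))).eval (Int.fract x) =
      Real.pi ^ 2 * P2 (Int.fract x) := by
    have h2 : (Polynomial.map (algebraMap ℚ ℝ) (Polynomial.bernoulli (2 * 1))).eval (Int.fract x)
        = P2 (Int.fract x) := by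
      simp [Polynomial.bernoulli, Finset.sum_range_succ, P2, bernoulli_one, bernoulli_two,
        Polynomial.eval_monomial]
      ring
    have h3 : (Nat.factorial (2 * 1) : ℝ) = 2 := by norm_num [Nat.factorial]
    rw [h2, h3]
    ring
  rw [h1] at h
  convert h using 2 with n
  rw [mul_one]
  congr 1
  have h3 : 2 * Real.pi * (n : ℝ) * x =
      2 * Real.pi * (n : ℝ) * Int.fract x + ((n * ⌊x⌋ : ℤ) : ℝ) * (2 * Real.pi) := by
    have : x = Int.fract x + (⌊x⌋ : ℤ) := (Int.fract_add_floor x).symm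
    conv_lhs => rw [this]
    push_cast; ring
  rw [h3, Real.cos_add_int_mul_two_pi]

theorem saw_lower (x δ : ℝ) (h0 : 0 < δ) (h1 : δ ≤ 1) :
    (P2 (Int.fract (x + δ)) - P2 (Int.fract x)) / (2 * δ) - δ / 2 ≤ Int.fract x - 1 / 2 := by
  set t := Int.fract x with ht
  have ht0 : 0 ≤ t := Int.fract_nonneg x
  have ht1 : t < 1 := Int.fract_lt_one x
  have hx : x + δ = (t + δ) + (⌊x⌋ : ℤ) := by
    have : x = t + (⌊x⌋ : ℤ) := (Int.fract_add_floor x).symm
    linarith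
  rw [hx, Int.fract_add_intCast]
  by_cases h : t + δ < 1
  · rw [Int.fract_eq_self.2 ⟨by linarith, h⟩]
    unfold P2
    rw [div_sub' (by positivity), div_le_iff₀ (by positivity)]
    nlinarith
  · push Not at h
    have h2 : Int.fract (t + δ) = t + δ - 1 := by
      have : t + δ = (t + δ - 1) + ((1 : ℤ) : ℝ) := by push_cast; ring
      rw [this, Int.fract_add_intCast, Int.fract_eq_self.2 ⟨by linarith, by linarith⟩]
      push_cast; ring
    rw [h2]
    unfold P2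
    rw [div_sub' (by positivity), div_le_iff₀ (by positivity)]
    nlinarith

theorem saw_upper (x δ : ℝ) (h0 : 0 < δ) (h1 : δ ≤ 1) :
    Int.fract x - 1 / 2 ≤ (P2 (Int.fract x) - P2 (Int.fract (x - δ))) / (2 * δ) + δ / 2 := by
  set t := Int.fract x with ht
  have ht0 : 0 ≤ t := Int.fract_nonneg x
  have ht1 : t < 1 := Int.fract_lt_one x
  have hx : x - δ = (t - δ) + (⌊x⌋ : ℤ) := by
    have : x = t + (⌊x⌋ : ℤ) := (Int.fract_add_floor x).symm
    linarith
  rw [hx, Int.fract_add_intCast]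
  by_cases h : δ ≤ t
  · rw [Int.fract_eq_self.2 ⟨by linarith, by linarith⟩]
    unfold P2
    rw [div_add' _ _ _ (by positivity), le_div_iff₀ (by positivity)]
    nlinarith
  · push Not at h
    have h2 : Int.fract (t - δ) = t - δ + 1 := by
      have : t - δ = (t - δ + 1) + ((-1 : ℤ) : ℝ) := by push_cast; ring
      rw [this, Int.fract_add_intCast, Int.fract_eq_self.2 ⟨by linarith, by linarith⟩]
      push_cast; ring
    rw [h2]
    unfold P2
    rw [div_add' _ _ _ (by positivity), le_div_iff₀ (by positivity)]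
    nlinarith

theorem re_e (x : ℝ) : (e x).re = Real.cos (2 * Real.pi * x) := by
  unfold e
  exact Complex.exp_ofReal_mul_I_re _

theorem norm_e_sub_one (x : ℝ) : ‖e x - 1‖ ≤ 2 * Real.pi * |x| := by
  have h := Real.norm_exp_I_mul_ofReal_sub_one_le (x := 2 * Real.pi * x)
  have h1 : e x = Complex.exp (Complex.I * ((2 * Real.pi * x : ℝ) : ℂ)) := by
    unfold e; rw [mul_comm]
  rw [h1]
  refine h.trans ?_
  rw [Real.norm_eq_abs, abs_mul, abs_of_pos (by positivity : (0 : ℝ) < 2 * Real.pi)]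

/-- the differences of `P2` -/
theorem diff_bound {ι : Type} (S : Finset ι) (x : ι → ℝ) (δ : ℝ) (K : ℕ) (hK : 1 ≤ K) :
    |∑ n ∈ S, (P2 (Int.fract (x n + δ)) - P2 (Int.fract (x n)))| ≤
      1 / Real.pi ^ 2 * (∑ h ∈ Icc 1 K, 2 * Real.pi * |δ| / h * ‖∑ n ∈ S, e (h * x n)‖ +
        2 * S.card / K) := by
  set B : ℝ := ∑ h ∈ Icc 1 K, 2 * Real.pi * |δ| / h * ‖∑ n ∈ S, e (h * x n)‖ +
        2 * S.card / K with hB
  let f : ℕ → ℝ := fun h => ∑ n ∈ S, (1 / (h : ℝ) ^ 2 * Real.cos (2 * Real.pi * h * (x n + δ)) -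
    1 / (h : ℝ) ^ 2 * Real.cos (2 * Real.pi * h * x n))
  have hf : HasSum f (∑ n ∈ S, (Real.pi ^ 2 * P2 (Int.fract (x n + δ)) -
      Real.pi ^ 2 * P2 (Int.fract (x n)))) :=
    hasSum_sum fun n _ => (cos_sum (x n + δ)).sub (cos_sum (x n))
  have hf0 : f 0 = 0 := by simp [f]
  have hf1 : ∀ h : ℕ, 1 ≤ h → |f h| ≤ 2 * Real.pi * |δ| / h * ‖∑ n ∈ S, e (h * x n)‖ := by
    intro h hh
    have hh0 : (0 : ℝ) < h := by exact_mod_cast hh
    have e1 : f h = 1 / (h : ℝ) ^ 2 * ((e (h * δ) - 1) * ∑ n ∈ S, e (h * x n)).re := by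
      simp only [f]
      rw [mul_sum, Complex.re_sum, mul_sum]
      refine sum_congr rfl fun n _ => ?_
      have e2 : (e (h * δ) - 1) * e (h * x n) = e (h * (x n + δ)) - e (h * x n) := by
        rw [mul_add, e_add]; ring
      rw [e2, Complex.sub_re, re_e, re_e]
      ring_nf
    rw [e1, abs_mul, abs_of_pos (by positivity : (0 : ℝ) < 1 / (h : ℝ) ^ 2)]
    have h2 : |((e (h * δ) - 1) * ∑ n ∈ S, e (h * x n)).re| ≤
        (2 * Real.pi * (h * |δ|)) * ‖∑ n ∈ S, e (h * x n)‖ := by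
      refine (Complex.abs_re_le_norm _).trans ?_
      rw [norm_mul]
      refine mul_le_mul_of_nonneg_right ?_ (norm_nonneg _)
      refine (norm_e_sub_one _).trans ?_
      rw [abs_mul, abs_of_pos hh0]
    calc 1 / (h : ℝ) ^ 2 * |((e (h * δ) - 1) * ∑ n ∈ S, e (h * x n)).re|
        ≤ 1 / (h : ℝ) ^ 2 * ((2 * Real.pi * (h * |δ|)) * ‖∑ n ∈ S, e (h * x n)‖) := by gcongr
      _ = _ := by field_simp
  have hf2 : ∀ h : ℕ, |f h| ≤ ((h : ℝ) ^ 2)⁻¹ * (2 * S.card) := by
    intro h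
    refine (abs_sum_le_sum_abs _ _).trans ?_
    have h2 : ∀ n ∈ S, |1 / (h : ℝ) ^ 2 * Real.cos (2 * Real.pi * h * (x n + δ)) -
        1 / (h : ℝ) ^ 2 * Real.cos (2 * Real.pi * h * x n)| ≤ ((h : ℝ) ^ 2)⁻¹ * 2 := by
      intro n _
      rw [← mul_sub, abs_mul, abs_of_nonneg (by positivity : (0 : ℝ) ≤ 1 / (h : ℝ) ^ 2), one_div]
      refine mul_le_mul_of_nonneg_left ?_ (by positivity)
      have h3 := Real.abs_cos_le_one (2 * Real.pi * h * (x n + δ))
      have h4 := Real.abs_cos_le_one (2 * Real.pi * h * x n)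
      have := abs_sub (Real.cos (2 * Real.pi * h * (x n + δ))) (Real.cos (2 * Real.pi * h * x n))
      linarith
    refine (sum_le_sum h2).trans ?_
    rw [sum_const, nsmul_eq_mul]
    apply le_of_eq; ring
  have hK0 : (0 : ℝ) < K := by exact_mod_cast hK
  have hpart : ∀ M : ℕ, |∑ h ∈ range M, f h| ≤ B := by
    intro M
    refine (abs_sum_le_sum_abs _ _).trans ?_
    have hM : range M ⊆ insert 0 (Icc 1 K ∪ Ioc K (max K M)) := by
      intro h hh
      rw [mem_range] at hh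
      rw [mem_insert, mem_union, mem_Icc, mem_Ioc]
      by_cases h1 : h = 0
      · exact Or.inl h1
      · by_cases h2 : h ≤ K
        · exact Or.inr (Or.inl ⟨by omega, h2⟩)
        · exact Or.inr (Or.inr ⟨by omega, le_max_of_le_right hh.le⟩)
    refine (sum_le_sum_of_subset_of_nonneg hM (fun _ _ _ => abs_nonneg _)).trans ?_
    have h0 : 0 ∉ Icc 1 K ∪ Ioc K (max K M) := by
      rw [mem_union, mem_Icc, mem_Ioc]; omega
    have hdisj : Disjoint (Icc 1 K) (Ioc K (max K M)) := by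
      rw [disjoint_left]
      intro a ha ha'
      rw [mem_Icc] at ha
      rw [mem_Ioc] at ha'
      omega
    rw [sum_insert h0, hf0, abs_zero, zero_add, sum_union hdisj, hB]
    refine add_le_add (sum_le_sum fun h hh => hf1 h (mem_Icc.1 hh).1) ?_
    refine (sum_le_sum fun h _ => hf2 h).trans ?_
    rw [← sum_mul]
    have h5 := sum_Ioc_inv_sq_le_sub (α := ℝ) (k := K) (n := max K M) (by omega) (le_max_left _ _)
    have h6 : (0 : ℝ) ≤ ((max K M : ℕ) : ℝ)⁻¹ := by positivity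
    calc (∑ h ∈ Ioc K (max K M), ((h : ℝ) ^ 2)⁻¹) * (2 * (S.card : ℝ))
        ≤ (K : ℝ)⁻¹ * (2 * (S.card : ℝ)) := by
          refine mul_le_mul_of_nonneg_right ?_ (by positivity)
          linarith
      _ = 2 * S.card / K := by rw [div_eq_mul_inv]; ring
  have hlim : |∑ n ∈ S, (Real.pi ^ 2 * P2 (Int.fract (x n + δ)) -
      Real.pi ^ 2 * P2 (Int.fract (x n)))| ≤ B :=
    le_of_tendsto (hf.tendsto_sum_nat.abs) (Eventually.of_forall hpart)
  have hpi : (0 : ℝ) < Real.pi ^ 2 := by positivity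
  have e3 : ∑ n ∈ S, (P2 (Int.fract (x n + δ)) - P2 (Int.fract (x n))) = 1 / Real.pi ^ 2 *
      ∑ n ∈ S, (Real.pi ^ 2 * P2 (Int.fract (x n + δ)) - Real.pi ^ 2 * P2 (Int.fract (x n))) := by
    rw [mul_sum]
    refine sum_congr rfl fun n _ => ?_
    field_simp
  rw [e3, abs_mul, abs_of_pos (by positivity : (0 : ℝ) < 1 / Real.pi ^ 2)]
  exact mul_le_mul_of_nonneg_left hlim (by positivity)

/-- an Erdos-Turan type inequality for the sawtooth function -/
theorem saw_sum {ι : Type} (S : Finset ι) (x : ι → ℝ) (H : ℕ) (hH : 1 ≤ H) :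
    |∑ n ∈ S, (Int.fract (x n) - 1 / 2)| ≤
      S.card / H + ∑ h ∈ Icc 1 (H ^ 2), ‖∑ n ∈ S, e (h * x n)‖ := by
  have hH0 : (0 : ℝ) < H := by exact_mod_cast hH
  set δ : ℝ := 1 / H with hδ
  have hδ0 : 0 < δ := by positivity
  have hδ1 : δ ≤ 1 := by
    rw [hδ, div_le_one hH0]; exact_mod_cast hH
  set D : ℝ := 1 / Real.pi ^ 2 * (∑ h ∈ Icc 1 (H ^ 2), 2 * Real.pi * δ / h *
    ‖∑ n ∈ S, e (h * x n)‖ + 2 * S.card / ((H ^ 2 : ℕ) : ℝ)) with hD
  have hu : |∑ n ∈ S, (P2 (Int.fract (x n + δ)) - P2 (Int.fract (x n)))| ≤ D := by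
    have := diff_bound S x δ (H ^ 2) (Nat.one_le_pow _ _ hH)
    rwa [abs_of_pos hδ0] at this
  have hl : |∑ n ∈ S, (P2 (Int.fract (x n + -δ)) - P2 (Int.fract (x n)))| ≤ D := by
    have := diff_bound S x (-δ) (H ^ 2) (Nat.one_le_pow _ _ hH)
    rwa [abs_neg, abs_of_pos hδ0] at this
  have h1 : ∑ n ∈ S, (Int.fract (x n) - 1 / 2) ≤ D / (2 * δ) + S.card * (δ / 2) := by
    have h2 : ∑ n ∈ S, (Int.fract (x n) - 1 / 2) ≤
        ∑ n ∈ S, ((P2 (Int.fract (x n)) - P2 (Int.fract (x n - δ))) / (2 * δ) + δ / 2) :=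
      sum_le_sum fun n _ => saw_upper (x n) δ hδ0 hδ1
    rw [sum_add_distrib, ← sum_div, sum_const, nsmul_eq_mul] at h2
    have h3 : ∑ n ∈ S, (P2 (Int.fract (x n)) - P2 (Int.fract (x n - δ))) ≤ D := by
      have h4 := (abs_le.1 hl).1
      have h5 : ∑ n ∈ S, (P2 (Int.fract (x n)) - P2 (Int.fract (x n - δ))) =
          -∑ n ∈ S, (P2 (Int.fract (x n + -δ)) - P2 (Int.fract (x n))) := by
        rw [← sum_neg_distrib]
        refine sum_congr rfl fun n _ => ?_
        rw [sub_eq_add_neg (x n) δ]; ring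
      rw [h5]; linarith
    have h6 : (∑ n ∈ S, (P2 (Int.fract (x n)) - P2 (Int.fract (x n - δ)))) / (2 * δ) ≤
        D / (2 * δ) := by gcongr
    linarith
  have h2 : -(D / (2 * δ) + S.card * (δ / 2)) ≤ ∑ n ∈ S, (Int.fract (x n) - 1 / 2) := by
    have h2 : ∑ n ∈ S, ((P2 (Int.fract (x n + δ)) - P2 (Int.fract (x n))) / (2 * δ) - δ / 2) ≤
        ∑ n ∈ S, (Int.fract (x n) - 1 / 2) :=
      sum_le_sum fun n _ => saw_lower (x n) δ hδ0 hδ1
    rw [sum_sub_distrib, ← sum_div, sum_const, nsmul_eq_mul] at h2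
    have h6 : -D / (2 * δ) ≤
        (∑ n ∈ S, (P2 (Int.fract (x n + δ)) - P2 (Int.fract (x n)))) / (2 * δ) := by
      have := (abs_le.1 hu).1
      gcongr
    have h7 : -D / (2 * δ) = -(D / (2 * δ)) := neg_div _ _
    linarith
  refine (abs_le.2 ⟨h2, h1⟩).trans ?_
  have hpi3 : (3 : ℝ) < Real.pi := Real.pi_gt_three
  have hpi0 : (0 : ℝ) < Real.pi := Real.pi_pos
  have e1 : D / (2 * δ) = (∑ h ∈ Icc 1 (H ^ 2), (1 / Real.pi) * (‖∑ n ∈ S, e (h * x n)‖ / h)) +
      S.card / H * (1 / Real.pi ^ 2) := by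
    rw [hD, hδ, mul_add, add_div, mul_sum, sum_div]
    congr 1
    · refine sum_congr rfl fun h hh => ?_
      have hh0 : (0 : ℝ) < h := by
        have := (mem_Icc.1 hh).1
        exact_mod_cast this
      field_simp
    · push_cast
      field_simp
  rw [e1]
  have e2 : ∑ h ∈ Icc 1 (H ^ 2), (1 / Real.pi) * (‖∑ n ∈ S, e (h * x n)‖ / h) ≤
      ∑ h ∈ Icc 1 (H ^ 2), ‖∑ n ∈ S, e (h * x n)‖ := by
    refine sum_le_sum fun h hh => ?_
    have hh1 : (1 : ℝ) ≤ h := by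
      have := (mem_Icc.1 hh).1
      exact_mod_cast this
    have e3 : ‖∑ n ∈ S, e (h * x n)‖ / h ≤ ‖∑ n ∈ S, e (h * x n)‖ :=
      div_le_self (norm_nonneg _) hh1
    have e4 : 1 / Real.pi ≤ 1 := by
      rw [div_le_one hpi0]; linarith
    calc (1 / Real.pi) * (‖∑ n ∈ S, e (h * x n)‖ / h) ≤ 1 * ‖∑ n ∈ S, e (h * x n)‖ :=
          mul_le_mul e4 e3 (by positivity) (by norm_num)
      _ = _ := one_mul _
  have e5 : (S.card : ℝ) / H * (1 / Real.pi ^ 2) ≤ S.card / H * (1 / 2) := by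
    refine mul_le_mul_of_nonneg_left ?_ (by positivity)
    apply one_div_le_one_div_of_le (by norm_num)
    nlinarith
  have e6 : (S.card : ℝ) * (δ / 2) = S.card / H * (1 / 2) := by
    rw [hδ]; field_simp
  linarith

theorem sum_shift (N L : ℕ) (f : ℕ → ℂ) :
    ∑ n ∈ Ioc N (N + L), f n = ∑ m ∈ range L, f (N + 1 + m) := by
  have h1 : Ioc N (N + L) = Ico (N + 1) (N + 1 + L) := by
    ext a; rw [mem_Ioc, mem_Ico]; omega
  rw [h1, sum_Ico_eq_sum_range]
  congr 2
  omega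

theorem FS : Pool.Agent.W76.MO.T_FS := by
  obtain ⟨η1, hη1, hη1', C1, hC1, hE⟩ :=
    Pool.Agent.H469R2.NK.exp_sum_bound 3 (by norm_num) (1 / 2) (by norm_num)
  refine ⟨η1 / 40, η1 / 40, 1 + 4 * C1 + 2 ^ 7, by positivity, by positivity, by positivity, ?_⟩
  intro i k N N' y hi hk hkη hNlow hNN' hN'2 hNup hy1 hy2
  -- powers of two
  set b : ℝ → ℝ := fun t => (2 : ℝ) ^ (t * i) with hb
  have hi1 : (1 : ℝ) ≤ i := by exact_mod_cast hi
  have hi0 : (0 : ℝ) ≤ i := by linarith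
  have bpos : ∀ t, 0 < b t := fun t => Real.rpow_pos_of_pos (by norm_num) _
  have badd : ∀ s t, b s * b t = b (s + t) := fun s t => by
    simp only [hb]; rw [← Real.rpow_add (by norm_num)]; congr 1; ring
  have bmono : ∀ s t, s ≤ t → b s ≤ b t := fun s t hst => by
    simp only [hb]
    exact Real.rpow_le_rpow_of_exponent_le (by norm_num) (mul_le_mul_of_nonneg_right hst hi0)
  have bpow : ∀ s t, (b s) ^ t = b (s * t) := fun s t => by
    simp only [hb]; rw [← Real.rpow_mul (by norm_num)]; congr 1; ring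
  have b1 : b 1 = 2 ^ i := by simp only [hb]; rw [one_mul, Real.rpow_natCast]
  have hkη' : (k : ℝ) ≤ b (η1 / 40) := hkη
  have hNlow' : b (1 / 2 - η1 / 40) ≤ N := hNlow
  have hNup' : (N : ℝ) ≤ b (1 / 2 + η1 / 40) := hNup
  show |∑ n ∈ Ioc N N', (Int.fract ((y : ℝ) / (k * n)) - 1 / 2)| ≤
    (1 + 4 * C1 + 2 ^ 7) * b (1 / 2 - η1 / 40)
  have hbη := bpos (1 / 2 - η1 / 40)
  have hN1 : 1 ≤ N := by
    have h1 : (0 : ℝ) < N := lt_of_lt_of_le (bpos _) hNlow'
    exact_mod_cast h1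
  have hN1' : (1 : ℝ) ≤ N := by exact_mod_cast hN1
  have hk0 : (0 : ℝ) < k := by exact_mod_cast hk
  by_cases hi7 : i < 7
  · -- trivial bound
    have h1 : |∑ n ∈ Ioc N N', (Int.fract ((y : ℝ) / (k * n)) - 1 / 2)| ≤ N := by
      refine (abs_sum_le_sum_abs _ _).trans ?_
      have h2 : ∀ n ∈ Ioc N N', |Int.fract ((y : ℝ) / (k * n)) - 1 / 2| ≤ 1 := by
        intro n _
        have h3 := Int.fract_nonneg ((y : ℝ) / (k * n))
        have h4 := Int.fract_lt_one ((y : ℝ) / (k * n))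
        rw [abs_le]; constructor <;> linarith
      refine (sum_le_sum h2).trans ?_
      rw [sum_const, Nat.card_Ioc, nsmul_eq_mul, mul_one]
      have : N' - N ≤ N := by omega
      exact_mod_cast this
    have h2 : b (1 / 2 + η1 / 40) ≤ 2 ^ 7 * b (1 / 2 - η1 / 40) := by
      have h3 : b (1 / 2 + η1 / 40) = b (η1 / 20) * b (1 / 2 - η1 / 40) := by
        rw [badd]; congr 1; ring
      rw [h3]
      refine mul_le_mul_of_nonneg_right ?_ hbη.le
      have h4 : b (η1 / 20) ≤ b 1 := bmono _ _ (by linarith)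
      rw [b1] at h4
      refine h4.trans ?_
      exact pow_le_pow_right₀ (by norm_num) hi7.le
    calc |∑ n ∈ Ioc N N', (Int.fract ((y : ℝ) / (k * n)) - 1 / 2)| ≤ N := h1
      _ ≤ 2 ^ 7 * b (1 / 2 - η1 / 40) := hNup'.trans h2
      _ ≤ _ := by
        refine mul_le_mul_of_nonneg_right ?_ hbη.le
        linarith
  · push Not at hi7
    have hi7' : (7 : ℝ) ≤ i := by exact_mod_cast hi7
    set H : ℕ := ⌈b (η1 / 8)⌉₊ with hH
    have hb8 : 1 ≤ b (η1 / 8) := by
      have : b 0 ≤ b (η1 / 8) := bmono _ _ (by positivity)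
      have h0 : b 0 = 1 := by simp [hb]
      linarith
    have hHlow : b (η1 / 8) ≤ H := Nat.le_ceil _
    have hHup : (H : ℝ) ≤ 2 * b (η1 / 8) := by
      have := (Nat.ceil_lt_add_one (bpos (η1 / 8)).le).le
      linarith
    have hH1 : 1 ≤ H := by
      have : (1 : ℝ) ≤ H := hb8.trans hHlow
      exact_mod_cast this
    have hsaw := saw_sum (Ioc N N') (fun n : ℕ => (y : ℝ) / (k * n)) H hH1
    have hcard : ((Ioc N N').card : ℝ) / H ≤ b (1 / 2 - η1 / 40) := by
      rw [Nat.card_Ioc]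
      have h1 : ((N' - N : ℕ) : ℝ) ≤ b (1 / 2 + η1 / 40) := by
        refine le_trans ?_ hNup'
        have : N' - N ≤ N := by omega
        exact_mod_cast this
      rw [div_le_iff₀ (lt_of_lt_of_le (bpos _) hHlow)]
      refine h1.trans ?_
      calc b (1 / 2 + η1 / 40) ≤ b ((1 / 2 - η1 / 40) + η1 / 8) := bmono _ _ (by linarith)
        _ = b (1 / 2 - η1 / 40) * b (η1 / 8) := (badd _ _).symm
        _ ≤ b (1 / 2 - η1 / 40) * H := by gcongr
    have hexp : ∀ h ∈ Icc 1 (H ^ 2),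
        ‖∑ n ∈ Ioc N N', e (h * ((y : ℝ) / (k * n)))‖ ≤ C1 * b (1 / 2 + η1 / 40 - η1 / 2) := by
      intro h hh
      rw [mem_Icc] at hh
      have hh1 : (1 : ℝ) ≤ h := by exact_mod_cast hh.1
      have hhH : (h : ℝ) ≤ (H : ℝ) ^ 2 := by exact_mod_cast hh.2
      obtain ⟨L, rfl⟩ := Nat.exists_eq_add_of_le hNN'
      rw [sum_shift]
      have hZ : ∀ m ∈ range L, e (h * ((y : ℝ) / (k * ((N + 1 + m : ℕ) : ℝ)))) =
          e ((h * y / k) / ((N + 1 + m : ℕ) : ℝ)) := by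
        intro m _
        congr 1
        have : ((N + 1 + m : ℕ) : ℝ) ≠ 0 := by positivity
        field_simp
      rw [sum_congr rfl hZ]
      have hy1' : b 1 ≤ y := by rw [b1]; exact_mod_cast hy1
      have hy2' : (y : ℝ) ≤ 4 * b 1 := by
        rw [b1]
        have : ((y : ℕ) : ℝ) ≤ ((2 ^ (i + 2) : ℕ) : ℝ) := by exact_mod_cast hy2
        refine this.trans (le_of_eq ?_)
        push_cast; ring
      have hlow : (N : ℝ) ^ (1 + 1 / 2 : ℝ) ≤ h * y / k := by
        rw [le_div_iff₀ hk0]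
        have h2 : (N : ℝ) ^ (1 + 1 / 2 : ℝ) ≤ (b (1 / 2 + η1 / 40)) ^ (1 + 1 / 2 : ℝ) :=
          Real.rpow_le_rpow (by linarith) hNup' (by norm_num)
        calc (N : ℝ) ^ (1 + 1 / 2 : ℝ) * k ≤ b ((1 / 2 + η1 / 40) * (1 + 1 / 2)) * b (η1 / 40) := by
              rw [← bpow]
              exact mul_le_mul h2 hkη' hk0.le (Real.rpow_nonneg (bpos _).le _)
          _ = b ((1 / 2 + η1 / 40) * (1 + 1 / 2) + η1 / 40) := badd _ _
          _ ≤ b 1 := bmono _ _ (by linarith)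
          _ ≤ y := hy1'
          _ = 1 * y := (one_mul _).symm
          _ ≤ h * y := by gcongr
      have hup : h * y / k ≤ (N : ℝ) ^ (3 + 1 : ℕ) := by
        have hk1 : (1 : ℝ) ≤ k := by exact_mod_cast hk
        have h3 : (h : ℝ) * y / k ≤ h * y := div_le_self (by positivity) hk1
        have h4 : (h : ℝ) ≤ 4 * b (η1 / 4) := by
          have : (H : ℝ) ^ 2 ≤ (2 * b (η1 / 8)) ^ 2 := by gcongr
          refine (hhH.trans this).trans (le_of_eq ?_)
          have : b (η1 / 8) ^ 2 = b (η1 / 4) := by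
            rw [sq, badd]; congr 1; ring
          rw [mul_pow, this]; norm_num
        have h16 : (16 : ℝ) ≤ b (13 / 20) := by
          have : (2 : ℝ) ^ (4 : ℝ) ≤ b (13 / 20) := by
            simp only [hb]
            apply Real.rpow_le_rpow_of_exponent_le (by norm_num)
            linarith
          have h5 : (2 : ℝ) ^ (4 : ℝ) = 16 := by norm_num
          linarith
        have h6 : b (4 * (1 / 2 - η1 / 40)) ≤ (N : ℝ) ^ (3 + 1 : ℕ) := by
          have h7 : b (4 * (1 / 2 - η1 / 40)) = (b (1 / 2 - η1 / 40)) ^ (3 + 1 : ℕ) := by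
            rw [← Real.rpow_natCast, bpow]
            congr 1; push_cast; ring
          rw [h7]
          exact pow_le_pow_left₀ hbη.le hNlow' _
        calc (h : ℝ) * y / k ≤ h * y := h3
          _ ≤ (4 * b (η1 / 4)) * (4 * b 1) := by gcongr
          _ = 16 * b (η1 / 4 + 1) := by rw [← badd]; ring
          _ ≤ b (13 / 20) * b (η1 / 4 + 1) := by
              exact mul_le_mul_of_nonneg_right h16 (bpos _).le
          _ = b (13 / 20 + (η1 / 4 + 1)) := badd _ _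
          _ ≤ b (4 * (1 / 2 - η1 / 40)) := bmono _ _ (by linarith)
          _ ≤ _ := h6
      have hmain := hE N (N + 1) L (h * y / k) hN1 (by omega) (by omega) (by omega) hlow hup
      refine hmain.trans ?_
      refine mul_le_mul_of_nonneg_left ?_ hC1.le
      calc (N : ℝ) ^ (1 - η1) ≤ (b (1 / 2 + η1 / 40)) ^ (1 - η1) :=
            Real.rpow_le_rpow (by linarith) hNup' (by linarith)
        _ = b ((1 / 2 + η1 / 40) * (1 - η1)) := bpow _ _
        _ ≤ b (1 / 2 + η1 / 40 - η1 / 2) := bmono _ _ (by nlinarith)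
    have hsum : ∑ h ∈ Icc 1 (H ^ 2), ‖∑ n ∈ Ioc N N', e (h * ((y : ℝ) / (k * n)))‖ ≤
        4 * C1 * b (1 / 2 - η1 / 40) := by
      refine (sum_le_sum hexp).trans ?_
      rw [sum_const, Nat.card_Icc, nsmul_eq_mul]
      have h1 : ((H ^ 2 + 1 - 1 : ℕ) : ℝ) ≤ 4 * b (η1 / 4) := by
        rw [Nat.add_sub_cancel]
        push_cast
        have : (H : ℝ) ^ 2 ≤ (2 * b (η1 / 8)) ^ 2 := by gcongr
        refine this.trans (le_of_eq ?_)
        have : b (η1 / 8) ^ 2 = b (η1 / 4) := by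
          rw [sq, badd]; congr 1; ring
        rw [mul_pow, this]; norm_num
      calc ((H ^ 2 + 1 - 1 : ℕ) : ℝ) * (C1 * b (1 / 2 + η1 / 40 - η1 / 2))
          ≤ (4 * b (η1 / 4)) * (C1 * b (1 / 2 + η1 / 40 - η1 / 2)) :=
            mul_le_mul_of_nonneg_right h1 (mul_nonneg hC1.le (bpos _).le)
        _ = 4 * C1 * b (η1 / 4 + (1 / 2 + η1 / 40 - η1 / 2)) := by rw [← badd]; ring
        _ ≤ 4 * C1 * b (1 / 2 - η1 / 40) := by
            refine mul_le_mul_of_nonneg_left (bmono _ _ (by linarith)) (by positivity)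
    calc |∑ n ∈ Ioc N N', (Int.fract ((y : ℝ) / (k * n)) - 1 / 2)|
        ≤ ((Ioc N N').card : ℝ) / H +
          ∑ h ∈ Icc 1 (H ^ 2), ‖∑ n ∈ Ioc N N', e (h * ((y : ℝ) / (k * n)))‖ := hsaw
      _ ≤ b (1 / 2 - η1 / 40) + 4 * C1 * b (1 / 2 - η1 / 40) := add_le_add hcard hsum
      _ ≤ _ := by nlinarith

end Pool.Agent.W565.MOFS
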