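import Pool.Agent.W847.T3.Stm

/-! Basic facts on expectations of programs (project FT of helper847). -/

set_option autoImplicit false

namespace Pool.Agent.W565.T3E

open Pool.Agent.W847.T3

variable {β γ : Type}

theorem E_mono {w : List (Fin 3) → Side → Fin 4 → ℝ} (hw : Wt w) (P : Prog β) {g g' : β → ℝ}
    (h : ∀ r, g r ≤ g' r) : P.E w g ≤ P.E w g' := by
  induction P with
  | ret r => exact h r
  | ask x z s next ih =>
    exact Finset.sum_le_sum fun a _ => mul_le_mul_of_nonneg_left (ih a) (hw.1 _ _ _)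

theorem E_const {w : List (Fin 3) → Side → Fin 4 → ℝ} (hw : Wt w) (P : Prog β) (c : ℝ) :
    P.E w (fun _ => c) = c := by
  induction P with
  | ret r => rfl
  | ask x z s next ih =>
    simp only [Prog.E, ih, ← Finset.sum_mul, hw.2, one_mul]

theorem E_lin (w : List (Fin 3) → Side → Fin 4 → ℝ) (P : Prog β) (c d : ℝ) (g g' : β → ℝ) :
    P.E w (fun r => c * g r + d * g' r) = c * P.E w g + d * P.E w g' := by
  induction P with
  | ret r => rfl
  | ask x z s next ih =>
    simp only [Prog.E, ih, mul_add, Finset.sum_add_distrib, Finset.mul_sum]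
    congr 1 <;> refine Finset.sum_congr rfl fun a _ => ?_ <;> ring

theorem E_bind (w : List (Fin 3) → Side → Fin 4 → ℝ) (P : Prog β) (f : β → Prog γ) (g : γ → ℝ) :
    (P.bind f).E w g = P.E w (fun r => (f r).E w g) := by
  induction P with
  | ret r => rfl
  | ask x z s next ih =>
    simp only [Prog.bind, Prog.E, ih]

theorem E_nonneg {w : List (Fin 3) → Side → Fin 4 → ℝ} (hw : Wt w) (P : Prog β) {g : β → ℝ}
    (h : ∀ r, 0 ≤ g r) : 0 ≤ P.E w g := by
  have := E_mono hw P (g := fun _ => 0) (g' := g) h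
  rwa [E_const hw] at this

end Pool.Agent.W565.T3E
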